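import Pool.Agent.RHCW.St
import Pool.Agent.RHCB.PCNC
import Pool.Agent.RHCB.SMLC
import Pool.Agent.RHCB.UIFTC

/-!
RHCW, [TOPCW]: the conclusion for the points of the weighted projective space.
-/

set_option autoImplicit false

namespace Pool.Agent.RHCW

open scoped BigOperators
open Classical NumberField IsDedekindDomain
open Pool.Agent.RHP (Mon mono ev Sys Prim pd WB WW)
open Pool.Agent.RHK Pool.Agent.RHC
open Pool.Agent.RHKB (mI hh jj qv MK uu BadK)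
open Pool.Agent.RHCB (BadC cred cemb uk PrC csig hM PCNC_int SMLC_nat UIFTC_max UIFTC_norm_smul)

/-! ### Residue classes, the integer `q`, approximation at all finite places -/

theorem TOPCW_reps {K : Type} [Field K] [NumberField K] (q : ℕ) (hq : 0 < q) :
    ∃ R : Finset (𝓞 K), ∀ a : 𝓞 K, ∃ b ∈ R, (q : 𝓞 K) ∣ a - b := by
  have hfin : Finite (𝓞 K ⧸ Ideal.span {(q : 𝓞 K)}) := by
    refine Ideal.finiteQuotientOfFreeOfNeBot _ ?_
    rw [Ne, Ideal.span_singleton_eq_bot]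
    exact_mod_cast hq.ne'
  have := Fintype.ofFinite (𝓞 K ⧸ Ideal.span {(q : 𝓞 K)})
  choose g hg using (Ideal.Quotient.mk_surjective (I := Ideal.span {(q : 𝓞 K)}))
  refine ⟨Finset.univ.image g, fun a => ⟨g (Ideal.Quotient.mk _ a),
    Finset.mem_image_of_mem _ (Finset.mem_univ _), ?_⟩⟩
  rw [← Ideal.mem_span_singleton, ← Ideal.Quotient.eq, hg]

section fin

variable {K : Type} [Field K] [NumberField K]

theorem TOPCW_cast (v : HeightOneSpectrum (𝓞 K)) (q : ℕ) :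
    (q : v.adicCompletion K) = jj (v.adicCompletion K) (q : 𝓞 K) := (map_natCast _ q).symm

theorem TOPCW_int (hv : RHKB.St_PLV) (v : HeightOneSpectrum (𝓞 K)) (a : 𝓞 K) :
    ‖jj (v.adicCompletion K) a‖ ≤ 1 := by
  have h := ((hv K v).2.2.2.2.1 a 0).2 (by rw [pow_zero, Ideal.one_eq_top]; trivial)
  rwa [pow_zero, inv_one] at h

theorem TOPCW_sub (hv : RHKB.St_PLV) (v : HeightOneSpectrum (𝓞 K)) (x y : v.adicCompletion K) :
    ‖x - y‖ ≤ max ‖x‖ ‖y‖ := by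
  rw [sub_eq_add_neg]
  refine ((hv K v).2.2.2.1 x (-y)).trans ?_
  rw [norm_neg]

theorem TOPCW_dvd (hv : RHKB.St_PLV) (v : HeightOneSpectrum (𝓞 K)) (q : ℕ) (a : 𝓞 K)
    (h : (q : 𝓞 K) ∣ a) : ‖jj (v.adicCompletion K) a‖ ≤ ‖(q : v.adicCompletion K)‖ := by
  obtain ⟨b, rfl⟩ := h
  rw [map_mul, norm_mul, ← TOPCW_cast]
  exact mul_le_of_le_one_right (norm_nonneg _) (TOPCW_int hv v b)

theorem TOPCW_q (hv : RHKB.St_PLV) (S : Finset (HeightOneSpectrum (𝓞 K))) (η : ℝ) (hη : 0 < η) :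
    ∃ q : ℕ, 0 < q ∧ ∀ v ∈ S, ‖(q : v.adicCompletion K)‖ ≤ η := by
  induction S using Finset.induction_on with
  | empty => exact ⟨1, one_pos, fun v hv => absurd hv (Finset.notMem_empty v)⟩
  | insert v S hvS ih =>
    obtain ⟨q, hq, hqS⟩ := ih
    obtain ⟨-, hq1, -, -, hjj, -, -⟩ := hv K v
    have hq1' : 1 < (qv v : ℝ) := by exact_mod_cast hq1
    obtain ⟨n, hn⟩ : ∃ n : ℕ, ((qv v : ℝ)⁻¹) ^ n < η :=
      exists_pow_lt_of_lt_one hη (inv_lt_one_of_one_lt₀ hq1')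
    have h1 : ‖((qv v : ℕ) : v.adicCompletion K)‖ ≤ (qv v : ℝ)⁻¹ := by
      have h2 := (hjj ((qv v : ℕ) : 𝓞 K) 1).2 (by
        rw [pow_one]
        exact Ideal.absNorm_mem _)
      rw [pow_one] at h2
      rw [TOPCW_cast]
      exact h2
    have hnat : ∀ (w : HeightOneSpectrum (𝓞 K)) (m : ℕ), ‖(m : w.adicCompletion K)‖ ≤ 1 := by
      intro w m
      rw [TOPCW_cast]
      exact TOPCW_int hv w _
    refine ⟨q * qv v ^ n, Nat.mul_pos hq (pow_pos (by omega) n), fun w hw => ?_⟩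
    rw [Nat.cast_mul, norm_mul]
    rcases Finset.mem_insert.1 hw with h | h
    · subst h
      rw [Nat.cast_pow, norm_pow]
      have h2 : ‖((qv w : ℕ) : w.adicCompletion K)‖ ^ n ≤ η :=
        (pow_le_pow_left₀ (norm_nonneg _) h1 n).trans hn.le
      calc ‖(q : w.adicCompletion K)‖ * ‖((qv w : ℕ) : w.adicCompletion K)‖ ^ n
          ≤ 1 * ‖((qv w : ℕ) : w.adicCompletion K)‖ ^ n :=
            mul_le_mul_of_nonneg_right (hnat w q) (by positivity)
        _ ≤ η := by rw [one_mul]; exact h2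
    · exact (mul_le_of_le_one_right (norm_nonneg _) (hnat w _)).trans (hqS w h)

/-- simultaneous approximation at all finite places, modulo `q` -/
theorem TOPCW_crt (hv : RHKB.St_PLV) (q : ℕ) (hq : 0 < q)
    (z : (v : HeightOneSpectrum (𝓞 K)) → v.adicCompletion K) (hz : ∀ v, ‖z v‖ ≤ 1) :
    ∃ a : 𝓞 K, ∀ v, ‖z v - jj (v.adicCompletion K) a‖ ≤ ‖(q : v.adicCompletion K)‖ := by
  have hq0 : (q : 𝓞 K) ≠ 0 := by exact_mod_cast hq.ne'
  have hfin : {v : HeightOneSpectrum (𝓞 K) | v.asIdeal ∣ Ideal.span {(q : 𝓞 K)}}.Finite := by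
    refine Ideal.finite_factors ?_
    rw [Ideal.zero_eq_bot, Ne, Ideal.span_singleton_eq_bot]
    exact hq0
  have hqv : ∀ v : HeightOneSpectrum (𝓞 K), (q : v.adicCompletion K) ≠ 0 := by
    intro v h
    rw [TOPCW_cast] at h
    have h1 : ((q : 𝓞 K) : K) = 0 := (algebraMap K (v.adicCompletion K)).injective (by
      rw [map_zero]
      exact h)
    exact hq0 (RingOfIntegers.coe_eq_zero_iff.1 h1)
  have e1 : ∀ v : HeightOneSpectrum (𝓞 K), ∃ (n : ℕ) (a : 𝓞 K),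
      ((qv v : ℝ) ^ n)⁻¹ ≤ ‖(q : v.adicCompletion K)‖ ∧
        ‖z v - jj (v.adicCompletion K) a‖ ≤ ((qv v : ℝ) ^ n)⁻¹ := by
    intro v
    obtain ⟨-, hq1, -, -, -, happ, -⟩ := hv K v
    have hq1' : 1 < (qv v : ℝ) := by exact_mod_cast hq1
    obtain ⟨n, hn⟩ : ∃ n : ℕ, ((qv v : ℝ)⁻¹) ^ n < ‖(q : v.adicCompletion K)‖ :=
      exists_pow_lt_of_lt_one (norm_pos_iff.2 (hqv v)) (inv_lt_one_of_one_lt₀ hq1')
    rw [inv_pow] at hn
    obtain ⟨a, ha⟩ := happ (z v) (hz v) n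
    exact ⟨n, a, hn.le, ha⟩
  choose n a hn ha using e1
  obtain ⟨y, hy⟩ := IsDedekindDomain.exists_forall_sub_mem_ideal (s := hfin.toFinset)
    (fun v : HeightOneSpectrum (𝓞 K) => v.asIdeal) n (fun v _ => v.prime)
    (fun v _ w _ hvw h => hvw (HeightOneSpectrum.ext h)) (fun v => a v)
  refine ⟨y, fun v => ?_⟩
  obtain ⟨-, hq1, -, -, hjj, -, hval⟩ := hv K v
  have hq1' : 1 < (qv v : ℝ) := by exact_mod_cast hq1
  by_cases h : v.asIdeal ∣ Ideal.span {(q : 𝓞 K)}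
  · have h1 : y - a v ∈ v.asIdeal ^ n v := hy v (hfin.mem_toFinset.2 h)
    have h2 := (hjj _ _).2 h1
    have h3 : z v - jj (v.adicCompletion K) y = (z v - jj (v.adicCompletion K) (a v)) -
        jj (v.adicCompletion K) (y - a v) := by
      rw [map_sub]
      ring
    rw [h3]
    exact (TOPCW_sub hv v _ _).trans ((max_le (ha v) h2).trans (hn v))
  · have h1 : ‖(q : v.adicCompletion K)‖ = 1 := by
      obtain ⟨e, he⟩ := hval _ (hqv v)
      have h2 : ‖(q : v.adicCompletion K)‖ ≤ 1 := by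
        rw [TOPCW_cast]
        exact TOPCW_int hv v _
      have h3 : ¬ ‖(q : v.adicCompletion K)‖ ≤ ((qv v : ℝ) ^ 1)⁻¹ := by
        intro h4
        rw [TOPCW_cast, hjj, pow_one] at h4
        exact h ((Ideal.dvd_span_singleton).2 h4)
      rw [he] at h2 h3 ⊢
      have h4 : e ≤ 0 := by
        by_contra h5
        push Not at h5
        have h6 := one_lt_zpow₀ hq1' h5
        linarith
      have h5 : -1 < e := by
        by_contra h6
        push Not at h6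
        apply h3
        rw [pow_one, ← zpow_neg_one]
        exact zpow_le_zpow_right₀ hq1'.le h6
      have h6 : e = 0 := by omega
      rw [h6, zpow_zero]
    rw [h1]
    exact (TOPCW_sub hv v _ _).trans (max_le (hz v) (TOPCW_int hv v y))

/-- scaling of a point at a finite place -/
theorem TOPCW_fin (hv : RHKB.St_PLV) (v : HeightOneSpectrum (𝓞 K)) {s k m : ℕ} (hk : 1 ≤ k)
    (f : Mon s (k * m) → 𝓞 K) (x : Fin s → v.adicCompletion K) (a : v.adicCompletion K)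
    (hx : x ≠ 0) (he : ev (fun μ => algebraMap K (v.adicCompletion K) (f μ : K)) x = a ^ k) :
    ∃ (c : v.adicCompletion K) (z : Fin (s + 1) → v.adicCompletion K), ‖c‖ = ‖x‖ ∧
      (∀ l : Fin s, x l = c * z l.succ) ∧ a = c ^ m * z 0 ∧ ‖fun l : Fin s => z l.succ‖ = 1 ∧
      ‖z 0‖ ≤ 1 ∧
      ev (fun μ => algebraMap K (v.adicCompletion K) (f μ : K)) (fun l => z l.succ) = z 0 ^ k := by
  obtain ⟨l₀, hl₀, hl₀'⟩ := UIFTC_max x hx
  have hxn : ‖x‖ ≠ 0 := norm_ne_zero_iff.2 hx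
  have e1 : ev (fun μ => algebraMap K (v.adicCompletion K) (f μ : K))
      (fun l => (x l₀)⁻¹ * x l) = (((x l₀) ^ m)⁻¹ * a) ^ k := by
    rw [Pool.Agent.RHP.ev_smul_pt, he, mul_pow, inv_pow, inv_pow, ← pow_mul, mul_comm k m]
  have e2 : ‖fun l => (x l₀)⁻¹ * x l‖ = 1 := by
    rw [UIFTC_norm_smul, norm_inv, hl₀]
    exact inv_mul_cancel₀ hxn
  refine ⟨x l₀, Fin.cons (((x l₀) ^ m)⁻¹ * a) fun l => (x l₀)⁻¹ * x l, hl₀, ?_, ?_, ?_, ?_, ?_⟩
  · intro l
    rw [Fin.cons_succ, mul_inv_cancel_left₀ hl₀']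
  · rw [Fin.cons_zero, mul_inv_cancel_left₀ (pow_ne_zero _ hl₀')]
  · simp only [Fin.cons_succ]
    exact e2
  · rw [Fin.cons_zero]
    have h1 : ‖(((x l₀) ^ m)⁻¹ * a) ^ k‖ ≤ 1 := by
      rw [← e1]
      refine PCNC_int (hv K v).2.2.2.1 _ (fun μ => TOPCW_int hv v (f μ)) _ fun l => ?_
      rw [← e2]
      exact norm_le_pi_norm (fun l => (x l₀)⁻¹ * x l) l
    rw [norm_pow] at h1
    by_contra h2
    push Not at h2
    exact absurd (one_lt_pow₀ h2 (by omega)) (not_lt.2 h1)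
  · simp only [Fin.cons_succ, Fin.cons_zero]
    exact e1

end fin

section inf

variable {K : Type} [Field K] [NumberField K]

/-- scaling of a point at an infinite place -/
theorem TOPCW_inf (hw : RHKB.St_PLW) (v : InfinitePlace K) {s k m : ℕ} (hk : 1 ≤ k)
    (f : Mon s (k * m) → 𝓞 K) (H V : ℕ) (hV : 1 ≤ V) (hHV : H ≤ (V + 1) ^ k)
    (hf : ∀ μ, f μ ∈ cb K H) (x : Fin s → v.Completion) (a : v.Completion)
    (hx : x ≠ 0) (he : ev (fun μ => algebraMap K v.Completion (f μ : K)) x = a ^ k) :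
    ∃ (c : v.Completion) (z : Fin (s + 1) → v.Completion), ‖c‖ = 4 / 3 * ‖x‖ ∧
      (∀ l : Fin s, x l = c * z l.succ) ∧ a = c ^ m * ((V : v.Completion) * z 0) ∧
      ‖fun l : Fin s => z l.succ‖ = 3 / 4 ∧
      ‖z 0‖ ≤ (Fintype.card (Mon s (k * m)) : ℝ) * (MK K * 2 ^ k) + 1 ∧
      ev (cemb (uk v k V) f) (fun l => z l.succ) = z 0 ^ k := by
  obtain ⟨l₀, hl₀, hl₀'⟩ := UIFTC_max x hx
  have hxn : ‖x‖ ≠ 0 := norm_ne_zero_iff.2 hx
  obtain ⟨-, -, hjj, hq, hcb, -⟩ := hw K v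
  have hnat := SMLC_nat hw K v
  have hVr : (0 : ℝ) < V := by exact_mod_cast hV
  have hV0 : (V : v.Completion) ≠ 0 := by
    intro h
    have h1 := hnat V
    rw [h, norm_zero] at h1
    linarith
  have h43 : ‖((4 / 3 : ℚ) : v.Completion)‖ = 4 / 3 := by
    rw [hq]
    norm_num
  have h43' : ((4 / 3 : ℚ) : v.Completion) ≠ 0 := by
    intro h
    rw [h, norm_zero] at h43
    norm_num at h43
  obtain ⟨c, hc⟩ : ∃ c : v.Completion, c = ((4 / 3 : ℚ) : v.Completion) * x l₀ := ⟨_, rfl⟩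
  have hc0 : c ≠ 0 := by
    rw [hc]
    exact mul_ne_zero h43' hl₀'
  have hcn : ‖c‖ = 4 / 3 * ‖x‖ := by
    rw [hc, norm_mul, h43, hl₀]
  have e1 : ev (cemb (uk v k V) f) (fun l => c⁻¹ * x l) =
      ((c ^ m * (V : v.Completion))⁻¹ * a) ^ k := by
    have h1 : ev (cemb (uk v k V) f) (fun l => c⁻¹ * x l) =
        uk v k V * ev (fun μ => algebraMap K v.Completion (f μ : K)) (fun l => c⁻¹ * x l) :=
      Pool.Agent.RHP.ev_smul (uk v k V) (fun μ => algebraMap K v.Completion (f μ : K)) _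
    rw [h1, Pool.Agent.RHP.ev_smul_pt, he]
    unfold uk
    push_cast
    rw [mul_pow, mul_inv, mul_pow, inv_pow, inv_pow, inv_pow, ← pow_mul, mul_comm k m]
    ring
  have e2 : ‖fun l => c⁻¹ * x l‖ = 3 / 4 := by
    rw [UIFTC_norm_smul, norm_inv, hcn]
    field_simp
  have hc1 : c ^ m * (V : v.Completion) ≠ 0 := mul_ne_zero (pow_ne_zero _ hc0) hV0
  refine ⟨c, Fin.cons ((c ^ m * (V : v.Completion))⁻¹ * a) fun l => c⁻¹ * x l, hcn, ?_, ?_, ?_, ?_,
    ?_⟩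
  · intro l
    rw [Fin.cons_succ, mul_inv_cancel_left₀ hc0]
  · rw [Fin.cons_zero, ← mul_assoc, mul_inv_cancel_left₀ hc1]
  · simp only [Fin.cons_succ]
    exact e2
  · rw [Fin.cons_zero]
    have hco : ∀ μ, ‖cemb (uk v k V) f μ‖ ≤ MK K * 2 ^ k := by
      intro μ
      have h3 : ‖cemb (uk v k V) f μ‖ = ((V : ℝ) ^ k)⁻¹ * av v (f μ) := by
        change ‖uk v k V * jj v.Completion (f μ)‖ = _
        unfold uk
        rw [norm_mul, norm_inv, hnat, hjj]
        push_cast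
        rfl
      rw [h3, inv_mul_le_iff₀ (by positivity)]
      refine (hcb H _ (hf μ)).trans ?_
      have h4 : H ≤ 2 ^ k * V ^ k := by
        refine hHV.trans ?_
        rw [← mul_pow]
        exact Nat.pow_le_pow_left (by omega) k
      have h5 : (H : ℝ) ≤ 2 ^ k * (V : ℝ) ^ k := by exact_mod_cast h4
      calc (MK K : ℝ) * H ≤ MK K * (2 ^ k * (V : ℝ) ^ k) :=
            mul_le_mul_of_nonneg_left h5 (Nat.cast_nonneg _)
        _ = (V : ℝ) ^ k * (MK K * 2 ^ k) := by ring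
    have h1 : ‖((c ^ m * (V : v.Completion))⁻¹ * a) ^ k‖ ≤
        (Fintype.card (Mon s (k * m)) : ℝ) * (MK K * 2 ^ k) := by
      rw [← e1]
      unfold ev
      refine (norm_sum_le _ _).trans ?_
      have h2 : ∀ μ ∈ (Finset.univ : Finset (Mon s (k * m))),
          ‖cemb (uk v k V) f μ * mono (fun l => c⁻¹ * x l) μ.1‖ ≤ MK K * 2 ^ k := by
        intro μ _
        rw [norm_mul]
        refine (mul_le_of_le_one_right (norm_nonneg _) ?_).trans (hco μ)
        unfold mono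
        rw [norm_prod]
        refine Finset.prod_le_one (fun _ _ => norm_nonneg _) fun l _ => ?_
        rw [norm_pow]
        refine pow_le_one₀ (norm_nonneg _) ?_
        have h3 := norm_le_pi_norm (fun l => c⁻¹ * x l) l
        rw [e2] at h3
        linarith
      refine (Finset.sum_le_sum h2).trans (le_of_eq ?_)
      rw [Finset.sum_const, Finset.card_univ, nsmul_eq_mul]
    rw [norm_pow] at h1
    by_contra h2
    push Not at h2
    have h3 : (0 : ℝ) ≤ (Fintype.card (Mon s (k * m)) : ℝ) * (MK K * 2 ^ k) := by positivity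
    have h4 : ‖(c ^ m * (V : v.Completion))⁻¹ * a‖ ≤ ‖(c ^ m * (V : v.Completion))⁻¹ * a‖ ^ k :=
      le_self_pow₀ (by linarith) (by omega)
    linarith
  · simp only [Fin.cons_succ, Fin.cons_zero]
    exact e1

/-- a finite net -/
theorem TOPCW_net (hw : RHKB.St_PLW) (s : ℕ) (B r : ℝ) (hr : 0 < r) :
    ∃ T : Finset ((v : InfinitePlace K) → Fin (s + 1) → v.Completion),
      ∀ z : (v : InfinitePlace K) → Fin (s + 1) → v.Completion, (∀ v l, ‖z v l‖ ≤ B) →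
        ∃ y ∈ T, ∀ v l, ‖z v l - y v l‖ ≤ r := by
  have hp : ∀ v : InfinitePlace K, ProperSpace v.Completion := fun v => (hw K v).1
  have h1 : TotallyBounded (Metric.closedBall
      (0 : (v : InfinitePlace K) → Fin (s + 1) → v.Completion) (max B 0)) :=
    (isCompact_closedBall _ _).totallyBounded
  obtain ⟨T, hT, hT'⟩ := Metric.totallyBounded_iff.1 h1 r hr
  refine ⟨hT.toFinset, fun z hz => ?_⟩
  have h2 : z ∈ Metric.closedBall (0 : (v : InfinitePlace K) → Fin (s + 1) → v.Completion)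
      (max B 0) := by
    rw [mem_closedBall_zero_iff, pi_norm_le_iff_of_nonneg (le_max_right _ _)]
    intro v
    rw [pi_norm_le_iff_of_nonneg (le_max_right _ _)]
    exact fun l => (hz v l).trans (le_max_left _ _)
  obtain ⟨y, hy, hyz⟩ := Set.mem_iUnion₂.1 (hT' h2)
  refine ⟨y, hT.mem_toFinset.2 hy, fun v l => ?_⟩
  rw [Metric.mem_ball, dist_eq_norm] at hyz
  have h3 : ‖(z - y) v l‖ ≤ ‖z - y‖ := (norm_le_pi_norm ((z - y) v) l).trans (norm_le_pi_norm (z - y) v)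
  exact h3.trans hyz.le

end inf

theorem TOPCW_min {α : Type} (S : Finset α) (g : α → ℝ) (hg : ∀ a ∈ S, 0 < g a) :
    ∃ δ : ℝ, 0 < δ ∧ δ ≤ 1 ∧ ∀ a ∈ S, δ ≤ g a := by
  induction S using Finset.induction_on with
  | empty => exact ⟨1, one_pos, le_refl _, fun a ha => absurd ha (Finset.notMem_empty a)⟩
  | insert b S hb ih =>
    obtain ⟨δ, h0, h1, h2⟩ := ih fun a ha => hg a (Finset.mem_insert_of_mem ha)
    refine ⟨min δ (g b), lt_min h0 (hg b (Finset.mem_insert_self _ _)),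
      (min_le_left _ _).trans h1, fun a ha => ?_⟩
    rcases Finset.mem_insert.1 ha with h | h
    · rw [h]
      exact min_le_right _ _
    · exact (min_le_left _ _).trans (h2 a h)

theorem TOPCW_root (k H : ℕ) (hk : 1 ≤ k) (hH : 1 ≤ H) :
    ∃ V : ℕ, 1 ≤ V ∧ V ^ k ≤ H ∧ H ≤ (V + 1) ^ k := by
  have h1 : ∃ n, H < (n + 1) ^ k := by
    refine ⟨H, ?_⟩
    calc H < H + 1 := Nat.lt_succ_self H
      _ = (H + 1) ^ 1 := (pow_one _).symm
      _ ≤ (H + 1) ^ k := Nat.pow_le_pow_right (Nat.succ_pos H) hk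
  obtain ⟨V, hV⟩ : ∃ V, V = Nat.find h1 := ⟨_, rfl⟩
  have h2 : H < (V + 1) ^ k := by
    rw [hV]
    exact Nat.find_spec h1
  have h3 : 1 ≤ V := by
    by_contra h
    have h4 : V = 0 := by omega
    rw [h4, zero_add, one_pow] at h2
    omega
  refine ⟨V, h3, ?_, h2.le⟩
  have h4 : ¬ H < (V - 1 + 1) ^ k := Nat.find_min h1 (by omega)
  rw [Nat.sub_add_cancel h3] at h4
  omega

/-- a form which is in none of the exceptional sets -/
theorem TOPCW_dense (hv : RHKB.St_PLV) (hw : RHKB.St_PLW) {K : Type} [Field K] [NumberField K]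
    {s k m : ℕ} (hk : 1 ≤ k) (f : Mon s (k * m) → 𝓞 K) (H V q : ℕ) (hV : 1 ≤ V)
    (hVH : V ^ k ≤ H) (hHV : H ≤ (V + 1) ^ k) (hf : f ∈ box K s (k * m) H)
    (S : Finset (HeightOneSpectrum (𝓞 K))) (η δ r : ℝ) (hη : 0 < η) (_hδ0 : 0 < δ) (hδ1 : δ ≤ 1)
    (hr0 : 0 < r) (hr16 : r ≤ 1 / 16) (hr1 : 4 * r ≤ 3 / 4 * η)
    (hr2 : 4 * r ≤ η * δ * (3 / 4) ^ (k * m)) (hq : 0 < q)
    (hqS : ∀ v ∈ S, ‖(q : v.adicCompletion K)‖ ≤ η * δ)
    (hSf : ∀ v ∈ S, ∃ μ, δ ≤ ‖jj (v.adicCompletion K) (f μ)‖)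
    (hSi : ∀ v : InfinitePlace K, ∃ μ, δ * H ≤ ‖jj v.Completion (f μ)‖)
    (R : Finset (𝓞 K)) (hR : ∀ a : 𝓞 K, ∃ b ∈ R, (q : 𝓞 K) ∣ a - b)
    (T : Finset ((v : InfinitePlace K) → Fin (s + 1) → v.Completion))
    (hT : ∀ z : (v : InfinitePlace K) → Fin (s + 1) → v.Completion,
      (∀ v l, ‖z v l‖ ≤ (Fintype.card (Mon s (k * m)) : ℝ) * (MK K * 2 ^ k) + 1) →
        ∃ y ∈ T, ∀ v l, ‖z v l - y v l‖ ≤ r)
    (hcell : ∀ (ρ₀ : Fin s → 𝓞 K) (ω₀ : 𝓞 K)
      (y₀ : (v : InfinitePlace K) → Fin (s + 1) → v.Completion), (∀ l, ρ₀ l ∈ R) → ω₀ ∈ R →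
      y₀ ∈ T → (∀ v, InfZC v k V (y₀ v) r f) → (∀ v, LocZC v k q ρ₀ ω₀ f) →
      ∃ (X : ℕ) (p : (Fin s → 𝓞 K) × 𝓞 K), 0 < X ∧ Prim p.1 ∧
        p ∈ CellC q ρ₀ ω₀ y₀ (3 * r) X (X ^ m * V) ∧ ev f p.1 = p.2 ^ k)
    (hE : ELSC f) : DenseC k m S η f := by
  intro z a y b hza hyb
  have hfb : ∀ μ, f μ ∈ cb K H := by
    unfold box at hf
    rw [Fintype.mem_piFinset] at hf
    exact hf
  -- local points at all finite places
  have e1 : ∀ v : HeightOneSpectrum (𝓞 K), ∃ (c : v.adicCompletion K)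
      (u : Fin (s + 1) → v.adicCompletion K),
      (v ∈ S → ‖c‖ = ‖z v‖ ∧ (∀ l : Fin s, z v l = c * u l.succ) ∧ a v = c ^ m * u 0) ∧
      ‖fun l : Fin s => u l.succ‖ = 1 ∧ ‖u 0‖ ≤ 1 ∧
      ev (fun μ => algebraMap K (v.adicCompletion K) (f μ : K)) (fun l => u l.succ) =
        u 0 ^ k := by
    intro v
    by_cases h : v ∈ S
    · obtain ⟨c, u, h1, h2, h3, h4, h5, h6⟩ := TOPCW_fin hv v hk f (z v) (a v) (hza v h).1
        (hza v h).2
      exact ⟨c, u, fun _ => ⟨h1, h2, h3⟩, h4, h5, h6⟩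
    · obtain ⟨x, hx, w, hxw⟩ := hE.2 v
      obtain ⟨c, u, h1, h2, h3, h4, h5, h6⟩ := TOPCW_fin hv v hk f x w hx hxw
      exact ⟨c, u, fun h' => absurd h' h, h4, h5, h6⟩
  choose c u hcu hu1 hu2 hu3 using e1
  have e2 : ∀ v : InfinitePlace K, ∃ (c : v.Completion) (u : Fin (s + 1) → v.Completion),
      ‖c‖ = 4 / 3 * ‖y v‖ ∧ (∀ l : Fin s, y v l = c * u l.succ) ∧
      b v = c ^ m * ((V : v.Completion) * u 0) ∧ ‖fun l : Fin s => u l.succ‖ = 3 / 4 ∧
      ‖u 0‖ ≤ (Fintype.card (Mon s (k * m)) : ℝ) * (MK K * 2 ^ k) + 1 ∧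
      ev (cemb (uk v k V) f) (fun l => u l.succ) = u 0 ^ k := fun v =>
    TOPCW_inf hw v hk f H V hV hHV hfb (y v) (b v) (hyb v).1 (hyb v).2
  choose c' u' hc1 hc2 hc3 hu1' hu2' hu3' using e2
  -- the cell
  have hule : ∀ v (l : Fin (s + 1)), ‖u v l‖ ≤ 1 := by
    intro v l
    refine Fin.cases (hu2 v) (fun l => ?_) l
    rw [← hu1 v]
    exact norm_le_pi_norm (fun l : Fin s => u v l.succ) l
  have e3 : ∀ l : Fin (s + 1), ∃ a' ∈ R, ∀ v, ‖u v l - jj (v.adicCompletion K) a'‖ ≤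
      ‖(q : v.adicCompletion K)‖ := by
    intro l
    obtain ⟨a₀, ha₀⟩ := TOPCW_crt hv q hq (fun v => u v l) fun v => hule v l
    obtain ⟨a₁, ha₁, hd⟩ := hR a₀
    refine ⟨a₁, ha₁, fun v => ?_⟩
    have h1 : u v l - jj (v.adicCompletion K) a₁ = (u v l - jj (v.adicCompletion K) a₀) +
        jj (v.adicCompletion K) (a₀ - a₁) := by
      rw [map_sub]
      ring
    rw [h1]
    exact ((hv K v).2.2.2.1 _ _).trans (max_le (ha₀ v) (TOPCW_dvd hv v q _ hd))
  choose A hAR hA using e3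
  have hB1 : (1 : ℝ) ≤ (Fintype.card (Mon s (k * m)) : ℝ) * (MK K * 2 ^ k) + 1 := by
    have : (0 : ℝ) ≤ (Fintype.card (Mon s (k * m)) : ℝ) * (MK K * 2 ^ k) := by positivity
    linarith
  obtain ⟨y₀, hy₀, hy₀'⟩ := hT u' fun v l => by
    refine Fin.cases (hu2' v) (fun l => ?_) l
    have h1 := norm_le_pi_norm (fun l : Fin s => u' v l.succ) l
    rw [hu1' v] at h1
    exact h1.trans (by linarith)
  obtain ⟨X, p, hX, hp, ⟨⟨hp1, hp2⟩, hp3⟩, hp4⟩ := hcell (fun l => A l.succ) (A 0) y₀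
    (fun l => hAR l.succ) (hAR 0) hy₀ (fun v => ⟨u' v, hu1' v, fun l => hy₀' v l, hu3' v⟩)
    (fun v => ⟨u v, hu1 v, ⟨fun l => hA l.succ v, hA 0 v⟩, hu3 v⟩)
  -- the point
  have hev : ev (fun μ => (f μ : K)) (fun l => (p.1 l : K)) = (p.2 : K) ^ k := by
    have h4 : ev (fun μ => algebraMap (𝓞 K) K (f μ)) (fun l => algebraMap (𝓞 K) K (p.1 l)) =
        algebraMap (𝓞 K) K (ev f p.1) := Pool.Agent.RHP.ev_map (algebraMap (𝓞 K) K) f p.1
    rw [hp4, map_pow] at h4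
    exact h4
  refine ⟨fun l => (p.1 l : K), (p.2 : K), ?_, hev, ?_, ?_⟩
  · intro h0
    obtain ⟨g, hg⟩ := hp
    have h1 : ∀ i, p.1 i = 0 := fun i => by
      have h2 : (p.1 i : K) = 0 := congrFun h0 i
      exact RingOfIntegers.coe_eq_zero_iff.1 h2
    simp [h1] at hg
  · -- finite places
    intro v hvS
    obtain ⟨g1, g2, g3⟩ := hcu v hvS
    have hx : ∀ (l : Fin (s + 1)) (x : 𝓞 K), (q : 𝓞 K) ∣ x - A l →
        ‖jj (v.adicCompletion K) x - u v l‖ ≤ ‖(q : v.adicCompletion K)‖ := by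
      intro l x hx
      have h1 : jj (v.adicCompletion K) x - u v l = jj (v.adicCompletion K) (x - A l) -
          (u v l - jj (v.adicCompletion K) (A l)) := by
        rw [map_sub]
        ring
      rw [h1]
      exact (TOPCW_sub hv v _ _).trans (max_le (TOPCW_dvd hv v q _ hx) (hA l v))
    have hzn : 0 ≤ ‖z v‖ := norm_nonneg _
    refine ⟨c v, fun l => ?_, ?_⟩
    · have h1 : c v * algebraMap K (v.adicCompletion K) (p.1 l : K) - z v l =
          c v * (jj (v.adicCompletion K) (p.1 l) - u v l.succ) := by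
        rw [g2 l, mul_sub]
        rfl
      rw [h1, norm_mul, g1, mul_comm]
      refine mul_le_mul_of_nonneg_right ?_ hzn
      refine (hx l.succ _ (hp1 l)).trans ((hqS v hvS).trans ?_)
      exact mul_le_of_le_one_right hη.le hδ1
    · obtain ⟨μ, hμ⟩ := hSf v hvS
      refine ⟨μ, ?_⟩
      have h1 : c v ^ m * algebraMap K (v.adicCompletion K) (p.2 : K) - a v =
          c v ^ m * (jj (v.adicCompletion K) p.2 - u v 0) := by
        rw [g3, mul_sub]
        rfl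
      rw [h1, norm_mul, norm_pow, g1, mul_pow, ← pow_mul, mul_comm m k, mul_comm (‖z v‖ ^ (k * m))]
      refine mul_le_mul_of_nonneg_right ?_ (by positivity)
      have h2 := hx 0 p.2 hp2
      have h3 : ‖(q : v.adicCompletion K)‖ ≤ 1 := by
        rw [TOPCW_cast]
        exact TOPCW_int hv v _
      have h4 : ‖jj (v.adicCompletion K) p.2 - u v 0‖ ^ k ≤
          ‖jj (v.adicCompletion K) p.2 - u v 0‖ :=
        pow_le_of_le_one (norm_nonneg _) (h2.trans h3) (by omega)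
      exact h4.trans (h2.trans ((hqS v hvS).trans (mul_le_mul_of_nonneg_left hμ hη.le)))
  · -- infinite places
    intro v
    have hnat := SMLC_nat hw K v
    have hXr : (0 : ℝ) < X := by exact_mod_cast hX
    have hVr : (0 : ℝ) < V := by exact_mod_cast hV
    have hX0 : (X : v.Completion) ≠ 0 := by
      intro h
      have h1 := hnat X
      rw [h, norm_zero] at h1
      linarith
    have hV0 : (V : v.Completion) ≠ 0 := by
      intro h
      have h1 := hnat V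
      rw [h, norm_zero] at h1
      linarith
    have hyn : 0 ≤ ‖y v‖ := norm_nonneg _
    -- near points
    have hx : ∀ (l : Fin (s + 1)) (Q : ℕ) (x : 𝓞 K), 0 < Q →
        ‖jj v.Completion x - (Q : v.Completion) * y₀ v l‖ ≤ 3 * r * Q →
        ‖(Q : v.Completion)⁻¹ * jj v.Completion x - u' v l‖ ≤ 4 * r := by
      intro l Q x hQ hx
      have hQr : (0 : ℝ) < Q := by exact_mod_cast hQ
      have hQ0 : (Q : v.Completion) ≠ 0 := by
        intro h
        have h1 := hnat Q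
        rw [h, norm_zero] at h1
        linarith
      have h1 : (Q : v.Completion)⁻¹ * jj v.Completion x - u' v l =
          (Q : v.Completion)⁻¹ * (jj v.Completion x - (Q : v.Completion) * y₀ v l) -
          (u' v l - y₀ v l) := by
        rw [mul_sub, inv_mul_cancel_left₀ hQ0]
        ring
      rw [h1]
      refine (norm_sub_le _ _).trans ?_
      rw [norm_mul, norm_inv, hnat]
      have h2 : (Q : ℝ)⁻¹ * ‖jj v.Completion x - (Q : v.Completion) * y₀ v l‖ ≤ 3 * r := by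
        rw [inv_mul_le_iff₀ hQr]
        exact hx.trans (le_of_eq (by ring))
      have h3 := hy₀' v l
      linarith
    refine ⟨c' v * (X : v.Completion)⁻¹, fun l => ?_, ?_⟩
    · have h1 : c' v * (X : v.Completion)⁻¹ * algebraMap K v.Completion (p.1 l : K) - y v l =
          c' v * ((X : v.Completion)⁻¹ * jj v.Completion (p.1 l) - u' v l.succ) := by
        rw [hc2 v l, mul_sub, mul_assoc]
        rfl
      rw [h1, norm_mul, hc1 v]
      have h2 := hx l.succ X (p.1 l) hX ((hp3 v).1 l)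
      calc 4 / 3 * ‖y v‖ * ‖(X : v.Completion)⁻¹ * jj v.Completion (p.1 l) - u' v l.succ‖
          ≤ 4 / 3 * ‖y v‖ * (4 * r) := mul_le_mul_of_nonneg_left h2 (by positivity)
        _ ≤ 4 / 3 * ‖y v‖ * (3 / 4 * η) := mul_le_mul_of_nonneg_left hr1 (by positivity)
        _ = η * ‖y v‖ := by ring
    · obtain ⟨μ, hμ⟩ := hSi v
      refine ⟨μ, ?_⟩
      have hXV : 0 < X ^ m * V := Nat.mul_pos (pow_pos hX m) hV
      have h2 := hx 0 (X ^ m * V) p.2 hXV (hp3 v).2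
      have h1 : (c' v * (X : v.Completion)⁻¹) ^ m * algebraMap K v.Completion (p.2 : K) - b v =
          c' v ^ m * (V : v.Completion) *
            (((X ^ m * V : ℕ) : v.Completion)⁻¹ * jj v.Completion p.2 - u' v 0) := by
        rw [hc3 v, mul_sub]
        have h3 : algebraMap K v.Completion (p.2 : K) = jj v.Completion p.2 := rfl
        rw [h3]
        push_cast
        rw [mul_pow, inv_pow]
        field_simp
      rw [h1, norm_mul, norm_mul, norm_pow, hc1 v, hnat]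
      have h5 : ‖((X ^ m * V : ℕ) : v.Completion)⁻¹ * jj v.Completion p.2 - u' v 0‖ ^ k ≤
          η * δ * (3 / 4) ^ (k * m) := by
        refine (pow_le_pow_left₀ (norm_nonneg _) h2 k).trans ?_
        exact (pow_le_of_le_one (by linarith) (by linarith) (by omega)).trans hr2
      have h6 : (V : ℝ) ^ k ≤ H := by exact_mod_cast hVH
      have h7 : ((4 / 3 * ‖y v‖) ^ m) ^ k = (4 / 3) ^ (k * m) * ‖y v‖ ^ (k * m) := by
        rw [← pow_mul, mul_comm m k, mul_pow]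
      rw [mul_pow, mul_pow, h7]
      have h8 : ((4 : ℝ) / 3) ^ (k * m) * (3 / 4) ^ (k * m) = 1 := by
        rw [← mul_pow]
        norm_num
      calc (4 / 3) ^ (k * m) * ‖y v‖ ^ (k * m) * (V : ℝ) ^ k *
            ‖((X ^ m * V : ℕ) : v.Completion)⁻¹ * jj v.Completion p.2 - u' v 0‖ ^ k
          ≤ (4 / 3) ^ (k * m) * ‖y v‖ ^ (k * m) * H * (η * δ * (3 / 4) ^ (k * m)) := by
            refine mul_le_mul ?_ h5 (by positivity) (by positivity)
            exact mul_le_mul_of_nonneg_left h6 (by positivity)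
        _ = ((4 / 3) ^ (k * m) * (3 / 4) ^ (k * m)) * (η * (δ * H) * ‖y v‖ ^ (k * m)) := by ring
        _ = η * (δ * H) * ‖y v‖ ^ (k * m) := by rw [h8, one_mul]
        _ ≤ η * ‖jj v.Completion (f μ)‖ * ‖y v‖ ^ (k * m) := by
            refine mul_le_mul_of_nonneg_right ?_ (by positivity)
            exact mul_le_mul_of_nonneg_left hμ hη.le

theorem thm_TOPCW (hS : St_SZC) (hv : RHKB.St_PLV) (hw : RHKB.St_PLW) : St_TOPCW := by
  intro K _ _ s k m hyp hF S η hη ε hε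
  have hk : 1 ≤ k := by
    have := hyp.hk
    omega
  have hs1 : 1 ≤ s := by
    have := hyp.hs
    omega
  have hkm : 1 ≤ k * m := Nat.mul_pos hk hyp.hm
  obtain ⟨n1, hn1⟩ : ∃ n1 : ℝ, n1 = (S.card : ℝ) + (Fintype.card (InfinitePlace K) : ℝ) + 1 :=
    ⟨_, rfl⟩
  have hn1p : 0 < n1 := by
    rw [hn1]
    positivity
  obtain ⟨ε₁, hε₁d⟩ : ∃ ε₁ : ℝ, ε₁ = ε / (2 * n1) := ⟨_, rfl⟩
  have hε₁ : 0 < ε₁ := by
    rw [hε₁d]
    positivity
  obtain ⟨SZ1, SZ2⟩ := hS K s (k * m) hs1 hkm ε₁ hε₁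
  choose δf hδf Hf hHf using SZ1
  choose δi hδi Hi hHi using SZ2
  obtain ⟨δ1, hδ10, hδ11, hδ1S⟩ := TOPCW_min S δf fun v _ => hδf v
  obtain ⟨δ2, hδ20, hδ21, hδ2S⟩ := TOPCW_min Finset.univ δi fun v _ => hδi v
  obtain ⟨δ, hδd⟩ : ∃ δ, δ = min δ1 δ2 := ⟨_, rfl⟩
  have hδ0 : 0 < δ := by
    rw [hδd]
    exact lt_min hδ10 hδ20
  have hδ1 : δ ≤ 1 := by
    rw [hδd]
    exact (min_le_left _ _).trans hδ11
  have hδS : ∀ v ∈ S, δ ≤ δf v := fun v h => by
    rw [hδd]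
    exact (min_le_left _ _).trans (hδ1S v h)
  have hδI : ∀ v, δ ≤ δi v := fun v => by
    rw [hδd]
    exact (min_le_right _ _).trans (hδ2S v (Finset.mem_univ v))
  obtain ⟨q, hq, hqS⟩ := TOPCW_q hv S (η * δ) (mul_pos hη hδ0)
  obtain ⟨r, hr0, hr16, hr1, hr2⟩ : ∃ r : ℝ, 0 < r ∧ r ≤ 1 / 16 ∧ 4 * r ≤ 3 / 4 * η ∧
      4 * r ≤ η * δ * (3 / 4) ^ (k * m) := by
    refine ⟨min (1 / 16) (min (3 / 16 * η) (η * δ * (3 / 4) ^ (k * m) / 4)), ?_, min_le_left _ _,
      ?_, ?_⟩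
    · exact lt_min (by norm_num) (lt_min (by positivity) (by positivity))
    · have h := (min_le_right (1 / 16 : ℝ) (min (3 / 16 * η) (η * δ * (3 / 4) ^ (k * m) / 4))).trans
        (min_le_left _ _)
      linarith
    · have h := (min_le_right (1 / 16 : ℝ) (min (3 / 16 * η) (η * δ * (3 / 4) ^ (k * m) / 4))).trans
        (min_le_right _ _)
      linarith
  obtain ⟨R, hR⟩ := TOPCW_reps (K := K) q hq
  obtain ⟨T, hT⟩ := TOPCW_net (K := K) hw s
    ((Fintype.card (Mon s (k * m)) : ℝ) * (MK K * 2 ^ k) + 1) r hr0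
  obtain ⟨C, hC⟩ : ∃ C : Finset ((Fin s → 𝓞 K) × (𝓞 K ×
      ((v : InfinitePlace K) → Fin (s + 1) → v.Completion))),
      C = (Fintype.piFinset fun _ : Fin s => R) ×ˢ (R ×ˢ T) := ⟨_, rfl⟩
  obtain ⟨n2, hn2⟩ : ∃ n2 : ℝ, n2 = (C.card : ℝ) + 1 := ⟨_, rfl⟩
  have hn2p : 0 < n2 := by
    rw [hn2]
    positivity
  obtain ⟨ε₂, hε₂d⟩ : ∃ ε₂ : ℝ, ε₂ = ε / (2 * n2) := ⟨_, rfl⟩
  have hε₂ : 0 < ε₂ := by
    rw [hε₂d]
    positivity
  have e1 := fun c : (Fin s → 𝓞 K) × (𝓞 K ×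
      ((v : InfinitePlace K) → Fin (s + 1) → v.Completion)) =>
    hF q hq c.1 c.2.1 c.2.2 r hr0 hr16 ε₂ hε₂
  choose H2 hH2 using e1
  refine ⟨max 1 (max (S.sup Hf) (max (Finset.univ.sup Hi) (C.sup H2))), fun H hH => ?_⟩
  have hH1 : 1 ≤ H := (le_max_left _ _).trans hH
  have hHS : ∀ v ∈ S, Hf v ≤ H := fun v h => (Finset.le_sup h).trans
    ((le_max_left _ _).trans ((le_max_right _ _).trans hH))
  have hHI : ∀ v, Hi v ≤ H := fun v => (Finset.le_sup (Finset.mem_univ v)).trans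
    ((le_max_left _ _).trans ((le_max_right _ _).trans ((le_max_right _ _).trans hH)))
  have hHC : ∀ c ∈ C, H2 c ≤ H := fun c h => (Finset.le_sup h).trans
    ((le_max_right _ _).trans ((le_max_right _ _).trans ((le_max_right _ _).trans hH)))
  obtain ⟨V, hV, hVH, hHV⟩ := TOPCW_root k H hk hH1
  -- the exceptional sets
  set B1 : HeightOneSpectrum (𝓞 K) → Finset (Mon s (k * m) → 𝓞 K) := fun v =>
    (box K s (k * m) H).filter fun f => ∀ μ, ‖jj (v.adicCompletion K) (f μ)‖ < δf v with hB1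
  set B2 : InfinitePlace K → Finset (Mon s (k * m) → 𝓞 K) := fun v =>
    (box K s (k * m) H).filter fun f => ∀ μ, ‖jj v.Completion (f μ)‖ < δi v * H with hB2
  set B3 : (Fin s → 𝓞 K) × (𝓞 K × ((v : InfinitePlace K) → Fin (s + 1) → v.Completion)) →
      Finset (Mon s (k * m) → 𝓞 K) := fun c =>
    (box K s (k * m) H).filter fun f => (∀ v : InfinitePlace K, InfZC v k V (c.2.2 v) r f) ∧
        (∀ v, LocZC v k q c.1 c.2.1 f) ∧
        ¬ ∃ (X : ℕ) (p : (Fin s → 𝓞 K) × 𝓞 K), 0 < X ∧ Prim p.1 ∧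
          p ∈ CellC q c.1 c.2.1 c.2.2 (3 * r) X (X ^ m * V) ∧ ev f p.1 = p.2 ^ k with hB3
  have hsub : ((box K s (k * m) H).filter fun f => ELSC f ∧ ¬ DenseC k m S η f) ⊆
      (S.biUnion B1 ∪ Finset.univ.biUnion B2) ∪ C.biUnion B3 := by
    intro f hf
    rw [Finset.mem_filter] at hf
    obtain ⟨hfb, hE, hD⟩ := hf
    by_contra hcon
    rw [Finset.mem_union, Finset.mem_union, not_or, not_or] at hcon
    obtain ⟨⟨c1, c2⟩, c3⟩ := hcon
    refine hD (TOPCW_dense hv hw hk f H V q hV hVH hHV hfb S η δ r hη hδ0 hδ1 hr0 hr16 hr1 hr2 hq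
      hqS ?_ ?_ R hR T hT ?_ hE)
    · intro v hvS
      by_contra h
      push Not at h
      refine c1 (Finset.mem_biUnion.2 ⟨v, hvS, ?_⟩)
      rw [hB1]
      exact Finset.mem_filter.2 ⟨hfb, fun μ => (h μ).trans_le (hδS v hvS)⟩
    · intro v
      by_contra h
      push Not at h
      refine c2 (Finset.mem_biUnion.2 ⟨v, Finset.mem_univ v, ?_⟩)
      rw [hB2]
      exact Finset.mem_filter.2 ⟨hfb, fun μ => (h μ).trans_le
        (mul_le_mul_of_nonneg_right (hδI v) (Nat.cast_nonneg _))⟩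
    · intro ρ₀ ω₀ y₀ h1 h2 h3 h4 h5
      by_contra h
      refine c3 (Finset.mem_biUnion.2 ⟨(ρ₀, (ω₀, y₀)), ?_, ?_⟩)
      · rw [hC, Finset.mem_product, Finset.mem_product, Fintype.mem_piFinset]
        exact ⟨h1, h2, h3⟩
      · rw [hB3]
        exact Finset.mem_filter.2 ⟨hfb, h4, h5, h⟩
  have hcard : (((box K s (k * m) H).filter fun f => ELSC f ∧ ¬ DenseC k m S η f).card : ℝ) ≤
      (∑ v ∈ S, ((B1 v).card : ℝ)) + (∑ v, ((B2 v).card : ℝ)) + ∑ c ∈ C, ((B3 c).card : ℝ) := by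
    have h2 := (Finset.card_le_card hsub).trans ((Finset.card_union_le _ _).trans
      (Nat.add_le_add ((Finset.card_union_le _ _).trans
        (Nat.add_le_add Finset.card_biUnion_le Finset.card_biUnion_le)) Finset.card_biUnion_le))
    exact_mod_cast h2
  obtain ⟨bx0, hbx0⟩ : ∃ bx0 : ℝ, bx0 = ((box K s (k * m) H).card : ℝ) := ⟨_, rfl⟩
  have hbx00 : 0 ≤ bx0 := by
    rw [hbx0]
    exact Nat.cast_nonneg _
  have s1 : ∑ v ∈ S, ((B1 v).card : ℝ) ≤ S.card * (ε₁ * bx0) := by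
    have h3 : ∀ v ∈ S, ((B1 v).card : ℝ) ≤ ε₁ * bx0 := fun v h => by
      rw [hbx0]
      exact hHf v H (hHS v h)
    refine (Finset.sum_le_sum h3).trans (le_of_eq ?_)
    rw [Finset.sum_const, nsmul_eq_mul]
  have s2 : ∑ v, ((B2 v).card : ℝ) ≤ Fintype.card (InfinitePlace K) * (ε₁ * bx0) := by
    have h3 : ∀ v ∈ (Finset.univ : Finset (InfinitePlace K)), ((B2 v).card : ℝ) ≤ ε₁ * bx0 :=
      fun v _ => by
      rw [hbx0]
      exact hHi v H (hHI v)
    refine (Finset.sum_le_sum h3).trans (le_of_eq ?_)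
    rw [Finset.sum_const, nsmul_eq_mul, Finset.card_univ]
  have s3 : ∑ c ∈ C, ((B3 c).card : ℝ) ≤ C.card * (ε₂ * bx0) := by
    have h3 : ∀ c ∈ C, ((B3 c).card : ℝ) ≤ ε₂ * bx0 := fun c h => by
      rw [hbx0]
      exact hH2 c H (hHC c h) V hVH hHV
    refine (Finset.sum_le_sum h3).trans (le_of_eq ?_)
    rw [Finset.sum_const, nsmul_eq_mul]
  rw [← hbx0]
  have t1 : n1 * (ε₁ * bx0) = ε / 2 * bx0 := by
    rw [hε₁d]
    field_simp
  have t2 : n2 * (ε₂ * bx0) = ε / 2 * bx0 := by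
    rw [hε₂d]
    field_simp
  have t3 : 0 ≤ ε₁ * bx0 := mul_nonneg hε₁.le hbx00
  have t4 : 0 ≤ ε₂ * bx0 := mul_nonneg hε₂.le hbx00
  rw [hn1] at t1
  rw [hn2] at t2
  nlinarith [hcard, s1, s2, s3, t1, t2, t3, t4]

end Pool.Agent.RHCW
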