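import Pool.Agent.RHCW.St
import Pool.Agent.RHCB.PCNC

/-!
RHCW, module PCNCW: the densities near a form with a nonsingular point at a finite place, in a residue
class (helper6; port of RHCB/PCNC.lean).
-/

set_option autoImplicit false

namespace Pool.Agent.RHCW

open scoped BigOperators
open Classical NumberField IsDedekindDomain
open Pool.Agent.RHP (Mon mono ev Sys Prim pd WB WW)
open Pool.Agent.RHK Pool.Agent.RHC
open Pool.Agent.RHKB (mI hh jj qv MK uu BadK PCN_ev PCN_unit PCN_card PCN_low)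
open Pool.Agent.RHCB (BadC cred cemb uk PrC csig hM)

/-- an integer whose norm is at most the norm of `q` is divisible by `q` modulo `v ^ k` -/
theorem PCNCW_dvd (hV : RHKB.St_PLV) {K : Type} [Field K] [NumberField K]
    (v : HeightOneSpectrum (𝓞 K)) {q : ℕ} (k : ℕ) (y : 𝓞 K)
    (hy : ‖jj (v.adicCompletion K) y‖ ≤ max ‖(q : v.adicCompletion K)‖ ((qv v : ℝ) ^ k)⁻¹) :
    (q : 𝓞 K ⧸ v.asIdeal ^ k) ∣ Ideal.Quotient.mk (v.asIdeal ^ k) y := by
  obtain ⟨-, -, -, hu, hjj, happ, -⟩ := hV K v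
  rcases le_or_gt ‖(q : v.adicCompletion K)‖ ((qv v : ℝ) ^ k)⁻¹ with h | h
  · rw [max_eq_right h, hjj] at hy
    rw [Ideal.Quotient.eq_zero_iff_mem.2 hy]
    exact dvd_zero _
  · rw [max_eq_left h.le] at hy
    have h0 : 0 < ‖(q : v.adicCompletion K)‖ := lt_of_le_of_lt (by positivity) h
    have hq1 : (q : v.adicCompletion K) ≠ 0 := norm_pos_iff.1 h0
    have h1 : ‖jj (v.adicCompletion K) y / (q : v.adicCompletion K)‖ ≤ 1 := by
      rw [norm_div, div_le_one h0]
      exact hy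
    obtain ⟨c, hc⟩ := happ _ h1 k
    have h2 : ‖jj (v.adicCompletion K) (y - (q : 𝓞 K) * c)‖ ≤ ((qv v : ℝ) ^ k)⁻¹ := by
      have h3 : jj (v.adicCompletion K) (y - (q : 𝓞 K) * c) = (q : v.adicCompletion K) *
          (jj (v.adicCompletion K) y / (q : v.adicCompletion K) - jj (v.adicCompletion K) c) := by
        rw [map_sub, map_mul, map_natCast, mul_sub, mul_div_cancel₀ _ hq1]
      have h4 : ‖(q : v.adicCompletion K)‖ ≤ 1 := by
        have h5 := (hjj (q : 𝓞 K) 0).2 (by rw [pow_zero, Ideal.one_eq_top]; exact Submodule.mem_top)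
        rwa [pow_zero, inv_one, map_natCast] at h5
      rw [h3, norm_mul]
      exact (mul_le_of_le_one_left (norm_nonneg _) h4).trans hc
    rw [hjj] at h2
    refine ⟨Ideal.Quotient.mk _ c, ?_⟩
    have h3 := Ideal.Quotient.eq.2 h2
    rw [h3, map_mul, map_natCast]

theorem thm_PCNCW (hV : RHKB.St_PLV) : St_PCNCW := by
  intro K _ _ v q _ s k d hk δ hδ
  obtain ⟨-, hq, -, hu, hjj, happ, -⟩ := hV K v
  have hq1 : 1 < (qv v : ℝ) := by exact_mod_cast hq
  have hq0 : 0 < (qv v : ℝ) := by linarith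
  obtain ⟨b, hb⟩ : ∃ b : ℕ, ((qv v : ℝ)⁻¹) ^ b < δ :=
    exists_pow_lt_of_lt_one hδ (inv_lt_one_of_one_lt₀ hq1)
  rw [inv_pow] at hb
  refine ⟨((qv v : ℝ) ^ (b * s))⁻¹, by positivity,
    fun ρ₀ ω₀ f z₀ hz0 hρ₀ hω₀ hF n => ?_⟩
  obtain ⟨j, hNZ⟩ := hF
  have hqn : ‖(q : v.adicCompletion K)‖ ≤ 1 := by
    have h5 := (hjj (q : 𝓞 K) 0).2 (by rw [pow_zero, Ideal.one_eq_top]; exact Submodule.mem_top)
    rwa [pow_zero, inv_one, map_natCast] at h5
  -- ultrametric inequality for differences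
  have hus : ∀ x y : v.adicCompletion K, ‖x - y‖ ≤ max ‖x‖ ‖y‖ := by
    intro x y
    rw [sub_eq_add_neg]
    refine (hu x (-y)).trans ?_
    rw [norm_neg]
  have hjn : ∀ a : 𝓞 K, ‖jj (v.adicCompletion K) a‖ ≤ 1 := by
    intro a
    have h1 := (hjj a 0).2 (by rw [pow_zero, Ideal.one_eq_top]; exact Submodule.mem_top)
    rwa [pow_zero, inv_one] at h1
  have hfe : cemb (1 : v.adicCompletion K) f = fun m => jj (v.adicCompletion K) (f m) := by
    funext m
    exact one_mul _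
  have hfn : ∀ m, ‖cemb (1 : v.adicCompletion K) f m‖ ≤ 1 := fun m => by
    rw [hfe]
    exact hjn _
  have hx0l : ∀ l : Fin s, ‖z₀ l.succ‖ ≤ 1 := fun l => by
    rw [← hz0]
    exact norm_le_pi_norm (fun l : Fin s => z₀ l.succ) l
  obtain ⟨l₀, hl₀⟩ : ∃ l : Fin s, 1 ≤ ‖z₀ l.succ‖ := by
    by_contra hcon
    push Not at hcon
    have h1 := (pi_norm_lt_iff (x := fun l : Fin s => z₀ l.succ) one_pos).2 hcon
    rw [hz0] at h1
    exact lt_irrefl _ h1
  -- the points of the equation near `z₀` are integral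
  have hint : ∀ z : Fin (s + 1) → v.adicCompletion K, (∀ l, ‖z l - z₀ l‖ ≤ ‖(q : v.adicCompletion K)‖ / 2) →
      ev (cemb (1 : v.adicCompletion K) f) (fun l => z l.succ) = z 0 ^ k → ∀ l, ‖z l‖ ≤ 1 := by
    intro z hz2 hz3
    have h1 : ∀ l : Fin s, ‖z l.succ‖ ≤ 1 := by
      intro l
      have h2 : z l.succ = (z l.succ - z₀ l.succ) + z₀ l.succ := by ring
      rw [h2]
      exact (hu _ _).trans (max_le ((hz2 _).trans (by linarith)) (hx0l l))
    have h2 := RHCB.PCNC_int hu _ hfn _ h1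
    rw [hz3, norm_pow] at h2
    have h3 : ‖z 0‖ ≤ 1 := by
      by_contra hcon
      push Not at hcon
      exact absurd h2 (not_le.2 (one_lt_pow₀ hcon (by omega)))
    intro l
    refine Fin.cases h3 h1 l
  have hz0l : ∀ l, ‖z₀ l‖ ≤ 1 := by
    intro l
    obtain ⟨z, -, hz2, hz3⟩ := hNZ z₀ (fun l => by rw [sub_self, norm_zero]; exact hδ.le)
    have h2 : z₀ l = z l - (z l - z₀ l) := by ring
    rw [h2]
    exact (hus _ _).trans (max_le (hint z hz2 hz3 l) ((hz2 l).trans (by linarith)))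
  -- approximation of the point
  choose a ha using fun l => happ (z₀ l) (hz0l l) b
  set A := 𝓞 K ⧸ v.asIdeal ^ n with hA
  have hAfin : Finite A := by
    refine Nat.finite_of_card_ne_zero ?_
    rw [hA, PCN_card]
    exact (pow_pos (by omega) n).ne'
  set T : Ideal A := Ideal.map (Ideal.Quotient.mk (v.asIdeal ^ n)) (v.asIdeal ^ b) with hT
  have hlift : ∀ w : T, ∃ y ∈ v.asIdeal ^ b, Ideal.Quotient.mk (v.asIdeal ^ n) y = w := by
    intro w
    exact (Ideal.mem_map_iff_of_surjective _ Ideal.Quotient.mk_surjective).1 w.2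
  choose g hg1 hg2 using hlift
  have hgn : ∀ w, ‖jj (v.adicCompletion K) (g w)‖ ≤ ((qv v : ℝ) ^ b)⁻¹ := fun w =>
    (hjj (g w) b).2 (hg1 w)
  -- the points over the completion and near integral points
  have key : ∀ u : {l // l ≠ j} → T, ∃ (z : Fin (s + 1) → v.adicCompletion K)
      (x : Fin (s + 1) → 𝓞 K),
      (∀ l (hl : l ≠ j), z l = jj (v.adicCompletion K) (a l + g (u ⟨l, hl⟩))) ∧
      (∀ l, ‖z l - z₀ l‖ ≤ ‖(q : v.adicCompletion K)‖ / 2) ∧
      (ev (cemb (1 : v.adicCompletion K) f) (fun l => z l.succ) = z 0 ^ k) ∧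
      (∀ l, ‖z l‖ ≤ 1) ∧ ∀ l, ‖z l - jj (v.adicCompletion K) (x l)‖ ≤ ((qv v : ℝ) ^ n)⁻¹ := by
    intro u
    obtain ⟨z, hz1, hz2, hz3⟩ := hNZ (fun l => if hl : l ≠ j then
      jj (v.adicCompletion K) (a l + g (u ⟨l, hl⟩)) else z₀ l) (by
        intro l
        by_cases hl : l ≠ j
        · rw [dif_pos hl, map_add]
          have h1 : jj (v.adicCompletion K) (a l) + jj (v.adicCompletion K) (g (u ⟨l, hl⟩)) -
              z₀ l = jj (v.adicCompletion K) (g (u ⟨l, hl⟩)) -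
              (z₀ l - jj (v.adicCompletion K) (a l)) := by ring
          rw [h1]
          exact ((hus _ _).trans (max_le (hgn _) (ha l))).trans hb.le
        · rw [dif_neg hl, sub_self, norm_zero]
          exact hδ.le)
    have hzn := hint z hz2 hz3
    choose x hx using fun l => happ (z l) (hzn l) n
    exact ⟨z, x, fun l hl => by rw [hz1 l hl, dif_pos hl], hz2, hz3, hzn, hx⟩
  choose z x hz1 hz2 hz3 hzn hx using key
  -- the reductions are points
  have hzero : ∀ u, ev (cred (v.asIdeal ^ n) f)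
      (fun l => Ideal.Quotient.mk (v.asIdeal ^ n) (x u l.succ)) =
        (Ideal.Quotient.mk (v.asIdeal ^ n) (x u 0)) ^ k := by
    intro u
    have h1 := Pool.Agent.RHP.ev_map (Ideal.Quotient.mk (v.asIdeal ^ n)) f
      (fun l : Fin s => x u l.succ)
    refine h1.trans ?_
    rw [← map_pow]
    refine Ideal.Quotient.eq.2 ?_
    rw [← hjj, map_sub, map_pow]
    have h2 := Pool.Agent.RHP.ev_map (jj (v.adicCompletion K)) f (fun l : Fin s => x u l.succ)
    have h4 := PCN_ev hu (cemb (1 : v.adicCompletion K) f) hfn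
      (fun l : Fin s => jj (v.adicCompletion K) (x u l.succ)) (fun l : Fin s => z u l.succ)
      (fun l => hjn _) (fun l => hzn u _) ((qv v : ℝ) ^ n)⁻¹ (by positivity)
      (fun l => by rw [norm_sub_rev]; exact hx u _)
    have h5 := RHCB.PCNC_pow hu (z u 0) (jj (v.adicCompletion K) (x u 0)) (hzn u 0) (hjn _)
      ((qv v : ℝ) ^ n)⁻¹ (by positivity) (hx u 0) k
    rw [hz3 u, hfe, h2] at h4
    have h6 : jj (v.adicCompletion K) (ev f fun l : Fin s => x u l.succ) -
        jj (v.adicCompletion K) (x u 0) ^ k =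
        (jj (v.adicCompletion K) (ev f fun l : Fin s => x u l.succ) - z u 0 ^ k) +
        (z u 0 ^ k - jj (v.adicCompletion K) (x u 0) ^ k) := by ring
    rw [h6]
    exact (hu _ _).trans (max_le h4 h5)
  -- they are primitive
  have hprim : ∀ u, Prim (fun l : Fin s => Ideal.Quotient.mk (v.asIdeal ^ n) (x u l.succ)) := by
    intro u
    rcases Nat.eq_zero_or_pos n with hk | hk
    · refine ⟨fun _ => 0, ?_⟩
      have h1 : (v.asIdeal ^ n) = ⊤ := by rw [hk, pow_zero, Ideal.one_eq_top]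
      have h2 : Subsingleton (𝓞 K ⧸ v.asIdeal ^ n) := Ideal.Quotient.subsingleton_iff.2 h1
      exact Subsingleton.elim _ _
    · have h1 : x u l₀.succ ∉ v.asIdeal := by
        intro h2
        have h3 : ‖jj (v.adicCompletion K) (x u l₀.succ)‖ ≤ ((qv v : ℝ) ^ 1)⁻¹ :=
          (hjj _ 1).2 (by rw [pow_one]; exact h2)
        have h4 : ((qv v : ℝ) ^ n)⁻¹ ≤ ((qv v : ℝ) ^ 1)⁻¹ :=
          inv_anti₀ (by positivity) (pow_le_pow_right₀ hq1.le hk)
        have h5 : ((qv v : ℝ) ^ 1)⁻¹ < 1 := by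
          rw [pow_one]
          exact inv_lt_one_of_one_lt₀ hq1
        have h6 : ‖z u l₀.succ‖ < 1 := by
          have h7 : z u l₀.succ = (z u l₀.succ - jj (v.adicCompletion K) (x u l₀.succ)) +
              jj (v.adicCompletion K) (x u l₀.succ) := by ring
          rw [h7]
          exact ((hu _ _).trans (max_le ((hx u l₀.succ).trans h4) h3)).trans_lt h5
        have h7 : ‖z₀ l₀.succ‖ < 1 := by
          have h8 : z₀ l₀.succ = z u l₀.succ - (z u l₀.succ - z₀ l₀.succ) := by ring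
          rw [h8]
          exact (hus _ _).trans_lt (max_lt h6 ((hz2 u l₀.succ).trans_lt (by linarith)))
        exact absurd hl₀ (not_le.2 h7)
      obtain ⟨c, hc⟩ := PCN_unit v h1 n
      refine ⟨fun l => if l = l₀ then Ideal.Quotient.mk (v.asIdeal ^ n) c else 0, ?_⟩
      simp only [ite_mul, zero_mul, Finset.sum_ite_eq', Finset.mem_univ, if_true]
      rw [← map_mul, ← map_one (Ideal.Quotient.mk (v.asIdeal ^ n))]
      exact Ideal.Quotient.eq.2 hc
  -- they are in the residue class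
  have hresl : ∀ u l (c : 𝓞 K), ‖z₀ l - jj (v.adicCompletion K) c‖ ≤
      ‖(q : v.adicCompletion K)‖ → (q : 𝓞 K ⧸ v.asIdeal ^ n) ∣
      Ideal.Quotient.mk (v.asIdeal ^ n) (x u l) - Ideal.Quotient.mk (v.asIdeal ^ n) c := by
    intro u l c hc
    rw [← map_sub]
    apply PCNCW_dvd hV v n
    have h2 : jj (v.adicCompletion K) (x u l - c) =
        ((z u l - z₀ l) + (z₀ l - jj (v.adicCompletion K) c)) -
        (z u l - jj (v.adicCompletion K) (x u l)) := by
      rw [map_sub]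
      ring
    rw [h2]
    refine (hus _ _).trans (max_le_max ((hu _ _).trans (max_le ((hz2 u l).trans ?_) hc)) (hx u l))
    have := norm_nonneg (q : v.adicCompletion K)
    linarith
  have hres : ∀ u, (∀ l : Fin s, (q : 𝓞 K ⧸ v.asIdeal ^ n) ∣
      Ideal.Quotient.mk (v.asIdeal ^ n) (x u l.succ) - cmk (v.asIdeal ^ n) ρ₀ l) ∧
      (q : 𝓞 K ⧸ v.asIdeal ^ n) ∣ Ideal.Quotient.mk (v.asIdeal ^ n) (x u 0) -
        Ideal.Quotient.mk (v.asIdeal ^ n) ω₀ := fun u =>
    ⟨fun l => hresl u l.succ (ρ₀ l) (hρ₀ l), hresl u 0 ω₀ hω₀⟩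
  -- they are different
  have hinj : ∀ u u', (∀ l, Ideal.Quotient.mk (v.asIdeal ^ n) (x u l) =
      Ideal.Quotient.mk (v.asIdeal ^ n) (x u' l)) → u = u' := by
    intro u u' h
    funext ⟨l, hl⟩
    have h1 : x u l - x u' l ∈ v.asIdeal ^ n := Ideal.Quotient.eq.1 (h l)
    have h2 : g (u ⟨l, hl⟩) - g (u' ⟨l, hl⟩) ∈ v.asIdeal ^ n := by
      rw [← hjj]
      have h3 : jj (v.adicCompletion K) (g (u ⟨l, hl⟩) - g (u' ⟨l, hl⟩)) =
          (z u l - jj (v.adicCompletion K) (x u l)) -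
          (z u' l - jj (v.adicCompletion K) (x u' l)) +
          jj (v.adicCompletion K) (x u l - x u' l) := by
        rw [hz1 u l hl, hz1 u' l hl, map_add, map_add, map_sub, map_sub]
        ring
      rw [h3]
      refine (hu _ _).trans (max_le ((hus _ _).trans (max_le (hx u l) (hx u' l))) ?_)
      exact (hjj _ n).2 h1
    have h3 := Ideal.Quotient.eq.2 h2
    rw [hg2, hg2] at h3
    exact Subtype.ext h3
  -- the count
  have hcnt : (qv v ^ (n - b)) ^ s ≤ wcntC k q (cmk (v.asIdeal ^ n) ρ₀)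
      (Ideal.Quotient.mk (v.asIdeal ^ n) ω₀) (cred (v.asIdeal ^ n) f) := by
    have h1 : Nat.card ({l // l ≠ j} → T) = Nat.card T ^ s := by
      rw [Nat.card_fun, Nat.card_eq_fintype_card (α := {l // l ≠ j})]
      congr 1
      rw [Fintype.card_subtype_compl, Fintype.card_fin, Fintype.card_subtype_eq]
      rfl
    have h2 : (qv v ^ (n - b)) ^ s ≤ Nat.card ({l // l ≠ j} → T) := by
      rw [h1]
      exact Nat.pow_le_pow_left (PCN_low v hq b n) _
    refine h2.trans ?_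
    unfold wcntC
    refine Nat.card_le_card_of_injective (fun u => (⟨(fun l =>
      Ideal.Quotient.mk (v.asIdeal ^ n) (x u l.succ), Ideal.Quotient.mk (v.asIdeal ^ n) (x u 0)),
      hprim u, hres u, hzero u⟩ :
      {p : (Fin s → 𝓞 K ⧸ v.asIdeal ^ n) × (𝓞 K ⧸ v.asIdeal ^ n) //
        Prim p.1 ∧ ((∀ l, (q : 𝓞 K ⧸ v.asIdeal ^ n) ∣ p.1 l - cmk (v.asIdeal ^ n) ρ₀ l) ∧
        (q : 𝓞 K ⧸ v.asIdeal ^ n) ∣ p.2 - Ideal.Quotient.mk (v.asIdeal ^ n) ω₀) ∧
        ev (cred (v.asIdeal ^ n) f) p.1 = p.2 ^ k}))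
      (fun u u' h => hinj u u' ?_)
    have h3 := congrArg Subtype.val h
    intro l
    refine Fin.cases ?_ (fun i => ?_) l
    · exact congrArg Prod.snd h3
    · exact congrFun (congrArg Prod.fst h3) i
  -- the estimate
  unfold wsigC
  rw [PCN_card]
  have h2 : (((qv v ^ (n - b)) ^ s : ℕ) : ℝ) ≤ (wcntC k q (cmk (v.asIdeal ^ n) ρ₀)
      (Ideal.Quotient.mk (v.asIdeal ^ n) ω₀) (cred (v.asIdeal ^ n) f) : ℝ) := by
    exact_mod_cast hcnt
  push_cast at h2 ⊢
  rw [le_div_iff₀ (by positivity)]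
  refine le_trans ?_ h2
  rw [inv_mul_le_iff₀ (by positivity)]
  rw [pow_mul, ← mul_pow]
  refine pow_le_pow_left₀ (by positivity) ?_ _
  rw [← pow_add]
  exact pow_le_pow_right₀ hq1.le (by omega)

end Pool.Agent.RHCW
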