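import Pool.Agent.RHCW.St
import Pool.Agent.RHKB.PLW

/-!
RHCW, module SZC: few forms have small coefficients (helper75).
-/

set_option autoImplicit false

namespace Pool.Agent.RHCW

open scoped BigOperators
open Classical NumberField IsDedekindDomain
open Pool.Agent.RHP (Mon mono ev Sys Prim pd WB WW)
open Pool.Agent.RHK Pool.Agent.RHC
open Pool.Agent.RHKB (mI hh jj qv MK uu BadK PLW_rat)
open Pool.Agent.RHCB (BadC cred cemb uk PrC csig hM)

/-- the constant `1 + (d + 1) N`, `N` the number of the monomials -/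
private noncomputable def SZC_C (s d : ℕ) : ℝ := 1 + (d + 1 : ℝ) * (Fintype.card (Mon s d) : ℝ)

private theorem SZC_C_pos (s d : ℕ) : 0 < SZC_C s d := by
  unfold SZC_C
  positivity

/-- forms with small coefficients are bad -/
private theorem SZC_bad {L : Type} [NormedField L] {s d : ℕ} (hs : 1 ≤ s) {τ : ℝ} (hτ : 0 < τ)
    (f : Mon s d → L) (hf : ∀ μ, ‖f μ‖ ≤ τ / SZC_C s d) : BadC τ f := by
  have hC := SZC_C_pos s d
  have hδ : 0 ≤ τ / SZC_C s d := (div_pos hτ hC).le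
  have hN : (0 : ℝ) ≤ (Fintype.card (Mon s d) : ℝ) := Nat.cast_nonneg _
  have hd : (0 : ℝ) ≤ (d : ℝ) := Nat.cast_nonneg _
  have hlt : (Fintype.card (Mon s d) : ℝ) * ((d + 1 : ℝ) * (τ / SZC_C s d)) < τ := by
    have h1 : (Fintype.card (Mon s d) : ℝ) * ((d + 1 : ℝ) * (τ / SZC_C s d)) =
        ((d + 1 : ℝ) * (Fintype.card (Mon s d) : ℝ)) / SZC_C s d * τ := by ring
    rw [h1]
    have h2 : ((d + 1 : ℝ) * (Fintype.card (Mon s d) : ℝ)) / SZC_C s d < 1 := by
      rw [div_lt_one hC]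
      unfold SZC_C
      linarith
    calc _ < 1 * τ := mul_lt_mul_of_pos_right h2 hτ
      _ = τ := one_mul τ
  have hcard : ∀ b : ℝ, ∑ _m : Mon s d, b = (Fintype.card (Mon s d) : ℝ) * b := by
    intro b
    rw [Finset.sum_const, Finset.card_univ, nsmul_eq_mul]
  refine ⟨fun _ => 1, fun _ => 1, ?_, ?_, fun _ => ?_, fun t => ?_⟩
  · haveI : Nonempty (Fin s) := ⟨⟨0, hs⟩⟩
    rw [pi_norm_const, norm_one]
  · rw [pi_norm_const, norm_one]
  · refine lt_of_le_of_lt (?_ : _ ≤ (Fintype.card (Mon s d) : ℝ) * ((d + 1 : ℝ) * (τ / SZC_C s d))) hlt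
    rw [← hcard]
    refine norm_sum_le_of_le _ fun m _ => ?_
    have h1 : mono (fun _ : Fin s => (1 : L)) m.1 = 1 := by
      unfold mono
      simp
    rw [h1, mul_one]
    have h2 := hf m
    nlinarith
  · refine lt_of_le_of_lt (?_ : _ ≤ (Fintype.card (Mon s d) : ℝ) * ((d + 1 : ℝ) * (τ / SZC_C s d))) hlt
    rw [← hcard, Fin.sum_univ_one, one_mul]
    refine norm_sum_le_of_le _ fun m _ => ?_
    have h1 : ((m.1 t : L) * ((1 : L) ^ (m.1 t - 1) *
        ∏ i ∈ Finset.univ.erase t, (1 : L) ^ m.1 i)) = (m.1 t : L) := by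
      simp
    rw [h1, norm_mul]
    have h2 := hf m
    have h3 : ‖(m.1 t : L)‖ ≤ (m.1 t : ℝ) := by
      have h := Nat.norm_cast_le (α := L) (m.1 t)
      rwa [norm_one, mul_one] at h
    have h4 : (m.1 t : ℝ) ≤ (d : ℝ) := by
      have h5 : m.1 t ≤ d :=
        (Finset.single_le_sum (f := fun i => m.1 i) (fun _ _ => Nat.zero_le _)
          (Finset.mem_univ t)).trans m.sum_eq.le
      exact_mod_cast h5
    calc ‖f m‖ * ‖(m.1 t : L)‖ ≤ (τ / SZC_C s d) * (d : ℝ) :=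
          mul_le_mul h2 (h3.trans h4) (norm_nonneg _) hδ
      _ ≤ (d + 1 : ℝ) * (τ / SZC_C s d) := by nlinarith

theorem thm_SZC (h : Pool.Agent.RHCB.St_BADC) : St_SZC := by
  intro K _ _ s d hs hd ε hε
  obtain ⟨h1, h2⟩ := h K s d hs hd ε hε
  have hC := SZC_C_pos s d
  refine ⟨fun v => ?_, fun v => ?_⟩
  · obtain ⟨τ, hτ, H0, hH⟩ := h1 v
    refine ⟨τ / SZC_C s d, div_pos hτ hC, H0, fun H hH0 => le_trans ?_ (hH H hH0)⟩
    refine Nat.cast_le.2 (Finset.card_le_card fun f hf => ?_)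
    rw [Finset.mem_filter] at hf ⊢
    refine ⟨hf.1, SZC_bad hs hτ _ fun μ => ?_⟩
    show ‖(1 : v.adicCompletion K) * jj (v.adicCompletion K) (f μ)‖ ≤ _
    rw [one_mul]
    exact (hf.2 μ).le
  · obtain ⟨τ, hτ, H0, hH⟩ := h2 v
    refine ⟨τ / SZC_C s d, div_pos hτ hC, H0, fun H hH0 => le_trans ?_ (hH H hH0)⟩
    refine Nat.cast_le.2 (Finset.card_le_card fun f hf => ?_)
    rw [Finset.mem_filter] at hf ⊢
    refine ⟨hf.1, SZC_bad hs hτ _ fun μ => ?_⟩
    show ‖uu v H * jj v.Completion (f μ)‖ ≤ _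
    rw [norm_mul]
    have h3 : ‖uu v H‖ = ((MK K * H : ℕ) : ℝ)⁻¹ := by
      unfold uu
      rw [norm_inv]
      have h4 := PLW_rat v ((MK K * H : ℕ) : ℚ)
      rw [Rat.cast_natCast, Rat.cast_natCast, abs_of_nonneg (Nat.cast_nonneg _)] at h4
      rw [h4]
    have h5 := hf.2 μ
    have h6 : 0 < τ / SZC_C s d := div_pos hτ hC
    rw [h3]
    rcases Nat.eq_zero_or_pos H with hz | hz
    · subst hz
      simpa using h6.le
    · have h7 : (0 : ℝ) < (H : ℝ) := by exact_mod_cast hz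
      have h8 : (1 : ℝ) ≤ (MK K : ℝ) := by
        have : 1 ≤ MK K := by
          unfold MK
          omega
        exact_mod_cast this
      rw [inv_mul_le_iff₀ (by push_cast; positivity)]
      push_cast
      have h9 : τ / SZC_C s d * (H : ℝ) ≤ (MK K : ℝ) * (τ / SZC_C s d * (H : ℝ)) :=
        le_mul_of_one_le_left (by positivity) h8
      linarith

end Pool.Agent.RHCW
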