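import Pool.Agent.RHCB.StB
import Pool.Agent.RHC.StA

/-!
RHCW: weak approximation for 100 percent of the Fano cyclic covers `w^k = f(x)` of projective spaces over
a number field `K` (upgrade of RHC / RHCB, architect helper18).  Parallel to `RHW/St.lean` (complete
intersections); read that file and its modules first, most of this file is the same with `(x, w)` in place
of the blocks.

A point `(x, w)` over a field `L` is a vector `z : Fin (s + 1) → L`, `w = z 0`, `x = fun l => z l.succ`.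
A cell is given by an integer `q`, a residue class `(ρ₀, ω₀)` modulo `q`, and points `y₀ v` at the infinite
places `v`; the points `(x, w)` counted by the second moment are the good points in the residue class with
`(x / X, w / (X^m V))` near `y₀ v`, where `V` is the integral part of `H^(1/k)`.

Every module proves `theorem thm_NAME : St_NAME`, or `theorem thm_NAME (h : St_OTHER) ... : St_NAME`, with
other statements (of this file, of RHCB/StB, RHKB/StB or RHC/StA) as hypotheses.  The proofs are ports of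
modules of `RHCB`, `RHC`; the docstrings say what changes.
-/

set_option autoImplicit false

namespace Pool.Agent.RHCW

open scoped BigOperators
open Classical NumberField IsDedekindDomain
open Pool.Agent.RHP (Mon mono ev Sys Prim pd WB WW)
open Pool.Agent.RHK Pool.Agent.RHC
open Pool.Agent.RHKB (mI hh jj qv MK uu BadK)
open Pool.Agent.RHCB (BadC cred cemb uk PrC csig hM)

/-! ### Definitions -/

section fin

variable {A : Type} [CommRing A] {s d : ℕ}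

/-- the number of the points `(ρ, ω)` with `ρ` primitive and `f(ρ) = ω^k` in the finite ring `A` which are
congruent to `(ρ₀, ω₀)` modulo `q` -/
noncomputable def wcntC (k q : ℕ) (ρ₀ : Fin s → A) (ω₀ : A) (f : Mon s d → A) : ℕ :=
  Nat.card {p : (Fin s → A) × A // Prim p.1 ∧ ((∀ l, (q : A) ∣ p.1 l - ρ₀ l) ∧
    (q : A) ∣ p.2 - ω₀) ∧ ev f p.1 = p.2 ^ k}

/-- the normalised number of these points -/
noncomputable def wsigC (k q : ℕ) (ρ₀ : Fin s → A) (ω₀ : A) (f : Mon s d → A) : ℝ :=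
  (wcntC k q ρ₀ ω₀ f : ℝ) / (Nat.card A : ℝ) ^ s

end fin

section loc

variable {L : Type} [NormedField L] {s d : ℕ}

/-- There is a coordinate `j` such that the other coordinates can be prescribed arbitrarily near the point
`z₀`, and there is a point of `f(x) = w^k` with these coordinates near `z₀`. -/
def NZCW (k : ℕ) (f : Mon s d → L) (z₀ : Fin (s + 1) → L) (δ r : ℝ) : Prop :=
  ∃ j : Fin (s + 1), ∀ κ : Fin (s + 1) → L, (∀ l, ‖κ l - z₀ l‖ ≤ δ) →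
    ∃ z : Fin (s + 1) → L, (∀ l, l ≠ j → z l = κ l) ∧ (∀ l, ‖z l - z₀ l‖ ≤ r) ∧
      ev f (fun l => z l.succ) = z 0 ^ k

end loc

section field

variable {K : Type} [Field K] [NumberField K] {s d : ℕ}

/-- the point modulo the ideal `I` -/
def cmk (I : Ideal (𝓞 K)) (p : Fin s → 𝓞 K) : Fin s → 𝓞 K ⧸ I := fun l => Ideal.Quotient.mk I (p l)

/-- There is a point over the completion at the finite place `v`, with `x` of size one, which is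
congruent to `(ρ₀, ω₀)` modulo `q`. -/
def LocZC (v : HeightOneSpectrum (𝓞 K)) (k q : ℕ) (ρ₀ : Fin s → 𝓞 K) (ω₀ : 𝓞 K)
    (f : Mon s d → 𝓞 K) : Prop :=
  ∃ z : Fin (s + 1) → v.adicCompletion K, ‖fun l : Fin s => z l.succ‖ = 1 ∧
    ((∀ l : Fin s, ‖z l.succ - jj (v.adicCompletion K) (ρ₀ l)‖ ≤ ‖(q : v.adicCompletion K)‖) ∧
      ‖z 0 - jj (v.adicCompletion K) ω₀‖ ≤ ‖(q : v.adicCompletion K)‖) ∧
    ev (fun μ => algebraMap K (v.adicCompletion K) (f μ : K)) (fun l => z l.succ) = z 0 ^ k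

/-- There is a point of `f(x) / V^k = w^k` over the completion at the infinite place `v`, with `x` of size
`3/4`, within `r` of `y`. -/
def InfZC (v : InfinitePlace K) (k V : ℕ) (y : Fin (s + 1) → v.Completion) (r : ℝ)
    (f : Mon s d → 𝓞 K) : Prop :=
  ∃ z : Fin (s + 1) → v.Completion, ‖fun l : Fin s => z l.succ‖ = 3 / 4 ∧
    (∀ l, ‖z l - y l‖ ≤ r) ∧ ev (cemb (uk v k V) f) (fun l => z l.succ) = z 0 ^ k

/-- `(x / X, w / Q)` is within `r` of `y v` at all infinite places -/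
def NearC (y : (v : InfinitePlace K) → Fin (s + 1) → v.Completion) (r : ℝ) (X Q : ℕ)
    (p : (Fin s → 𝓞 K) × 𝓞 K) : Prop :=
  ∀ v : InfinitePlace K,
    (∀ l : Fin s, ‖jj v.Completion (p.1 l) - (X : v.Completion) * y v l.succ‖ ≤ r * X) ∧
      ‖jj v.Completion p.2 - (Q : v.Completion) * y v 0‖ ≤ r * Q

/-- the points of a cell -/
def CellC (q : ℕ) (ρ₀ : Fin s → 𝓞 K) (ω₀ : 𝓞 K)
    (y : (v : InfinitePlace K) → Fin (s + 1) → v.Completion) (r : ℝ) (X Q : ℕ) :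
    Set ((Fin s → 𝓞 K) × 𝓞 K) :=
  {p | ((∀ l, (q : 𝓞 K) ∣ p.1 l - ρ₀ l) ∧ (q : 𝓞 K) ∣ p.2 - ω₀) ∧ NearC y r X Q p}

/-- the number of the points counted by `RCnC` which are in the set `P` -/
noncomputable def RCnCW {k m : ℕ} (P : Set ((Fin s → 𝓞 K) × 𝓞 K)) (A X V H κ W : ℕ)
    (f : Mon s (k * m) → 𝓞 K) (ρ : Fin s → 𝓞 K) (ω : 𝓞 K) : ℕ :=
  ((bx K s (X : ℝ) ×ˢ pb K ((A * X ^ m * V : ℕ) : ℝ)).filter fun p =>
    (Prim p.1 ∧ (∀ v : InfinitePlace K, (X : ℝ) < 2 * vs v p.1) ∧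
      (∀ l, (W : 𝓞 K) ∣ p.1 l - ρ l) ∧ (W : 𝓞 K) ∣ p.2 - ω ∧
      cz (ev f p.1 - p.2 ^ k) * κ ≤ H * X ^ (k * m)) ∧ p ∈ P).card

/-- number of the points `(x,w)` in `P` with `f(x) = w^k`, `x` good and `|w|_v <= U` -/
noncomputable def NCW {k m : ℕ} (P : Set ((Fin s → 𝓞 K) × 𝓞 K)) (A c t V : ℕ)
    (f : Mon s (k * m) → 𝓞 K) : ℝ :=
  ∑ x ∈ CG K s c t, ∑ w ∈ pb K ((UC s m A c t V : ℕ) : ℝ),
    if (x, w) ∈ P then (if ev f x = w ^ k then 1 else 0) else 0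

/-- the local model of the number of these points -/
noncomputable def NLCW {k m : ℕ} (P : Set ((Fin s → 𝓞 K) × 𝓞 K)) (A c t V H κ W : ℕ)
    (f : Mon s (k * m) → 𝓞 K) : ℝ :=
  ∑ x ∈ CG K s c t, ∑ w ∈ pb K ((UC s m A c t V : ℕ) : ℝ),
    if (x, w) ∈ P then (if (W : 𝓞 K) ∣ ev f x - w ^ k ∧
      cz (ev f x - w ^ k) ≤ ThC s c t H κ (k * m) then
        (1 / (TC (dg K) s c t H κ W (k * m) : ℝ)) else 0) else 0

end field

/-- OUTPUT of block A: the second moment for all sets `P` of points. -/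
def SMCW (K : Type) [Field K] [NumberField K] (s k m A c v : ℕ) : Prop :=
  ∀ ε : ℝ, 0 < ε → ∃ κ m0 : ℕ, 0 < κ ∧ ∀ W : ℕ, 0 < W → (∀ g, 1 ≤ g → g ≤ m0 → g ∣ W) →
    ∃ t0 : ℕ, ∀ t ≥ t0, ∀ V H : ℕ, CR k v t V H → ∀ P : Set ((Fin s → 𝓞 K) × 𝓞 K),
      ∑ f ∈ box K s (k * m) H, (NCW P A c t V f - NLCW P A c t V H κ W f) ^ 2
        ≤ ε * EC (dg K) s k m c t V H ^ 2 * ((box K s (k * m) H).card : ℝ)

/-! ### Block A -/

/-- [CSMW].  Port of `thm_CSM` (RHC/CSM.lean).  ABSC (unchanged, `thm_ABSC`) is applied to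
`δ x w f = if (x, w) ∈ P then dlt (w ^ k) x f else 0` and the same for `lmt`: they are not negative, and for
typical `x`, `x'` the bound `b0 ≥ 0` holds for all `w`, `w'` (if one of the points is not in `P` the sum is
zero).  In the sums over the other pairs the terms are at most the terms without `P`.  The rest is
unchanged (`block_CSM` in RHC/BlockA.lean shows the hypotheses). -/
def St_CSMW : Prop :=
  ∀ (K : Type) [Field K] [NumberField K] (s k m A : ℕ), CHyp s k m → 1 ≤ A → ∃ c0 : ℕ,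
    ∀ c ≥ c0, ∀ v : ℕ, CPar s k m c v → SMCW K s k m A c v

/-! ### Finite rings -/

/-- [CRTCW].  Port of `RHCB/CRTC.lean` (see also RHW/CRTW.lean). -/
def St_CRTCW : Prop :=
  ∀ (K : Type) [Field K] [NumberField K] (I J : Ideal (𝓞 K)), I ≠ ⊥ → J ≠ ⊥ → IsCoprime I J →
    ∀ (s k d q : ℕ) (ρ₀ : Fin s → 𝓞 K) (ω₀ : 𝓞 K) (f : Mon s d → 𝓞 K),
      wsigC k q (cmk (I * J) ρ₀) (Ideal.Quotient.mk (I * J) ω₀) (cred (I * J) f) =
        wsigC k q (cmk I ρ₀) (Ideal.Quotient.mk I ω₀) (cred I f) *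
          wsigC k q (cmk J ρ₀) (Ideal.Quotient.mk J ω₀) (cred J f)

/-- [WABCW], from CRTCW.  Port of `RHCB/WABC.lean` as `RHW/WABW.lean` is a port of `RHMB/WABM.lean`: modulo
`WB p0 m0` the integer `q` is a unit, so the congruence is always true there. -/
def St_WABCW : Prop :=
  ∀ (K : Type) [Field K] [NumberField K] (p0 : ℕ), ∃ S : Finset (HeightOneSpectrum (𝓞 K)),
    (∀ v ∈ S, ∃ p : ℕ, p.Prime ∧ p ≤ p0 ∧ (p : 𝓞 K) ∈ v.asIdeal) ∧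
    ∀ m0 : ℕ, p0 ≤ m0 → 0 < WB p0 m0 ∧ (∀ p : ℕ, p.Prime → p ∣ WB p0 m0 → p0 < p) ∧
      ∃ n : HeightOneSpectrum (𝓞 K) → ℕ, ∀ q : ℕ, 0 < q → (∀ p : ℕ, p.Prime → p ∣ q → p ≤ p0) →
        ∀ (s k d : ℕ) (ρ₀ : Fin s → 𝓞 K) (ω₀ : 𝓞 K) (f : Mon s d → 𝓞 K),
        wsigC k q (cmk (Ideal.span {(WW m0 : 𝓞 K)}) ρ₀)
          (Ideal.Quotient.mk (Ideal.span {(WW m0 : 𝓞 K)}) ω₀)
          (cred (Ideal.span {(WW m0 : 𝓞 K)}) f) =
          (∏ v ∈ S, wsigC k q (cmk (v.asIdeal ^ n v) ρ₀) (Ideal.Quotient.mk (v.asIdeal ^ n v) ω₀)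
            (cred (v.asIdeal ^ n v) f)) * csig k (cred (Ideal.span {(WB p0 m0 : 𝓞 K)}) f)

/-! ### Points near a nonsingular point -/

/-- [UIFTCW], from `RHCB.St_IFTC`, `RHKB.St_LIPK` (or what `thm_UIFTC` uses).  Port of `RHCB/UIFTC.lean`:
compactness of the set of the `(f, z)`; here the centre is the given point `z` itself (see RHW/UIFTW.lean). -/
def St_UIFTCW : Prop :=
  ∀ (L : Type) [NormedField L] [ProperSpace L], (∃ x : L, 1 < ‖x‖) →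
    ∀ (s k m : ℕ), 2 ≤ k → 1 ≤ m → (k : L) ≠ 0 → ∀ c : L, c ≠ 0 → ‖c‖ ≤ 1 →
    ∀ (B0 : ℕ) (τ r : ℝ), 0 < τ → 0 < r →
      ∃ δ : ℝ, 0 < δ ∧ ∀ f : Mon s (k * m) → L, (∀ μ, ‖f μ‖ ≤ B0) → ¬ BadC τ f →
        ∀ z : Fin (s + 1) → L, ‖fun l : Fin s => z l.succ‖ = ‖c‖ →
          ev f (fun l => z l.succ) = z 0 ^ k → NZCW k f z δ r

/-! ### Finite places -/

/-- [PCNCW], from `RHKB.St_PLV`.  Port of `RHCB/PCNC.lean` as `RHW/PCNW.lean` is a port of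
`RHMB/PCNM.lean`. -/
def St_PCNCW : Prop :=
  ∀ (K : Type) [Field K] [NumberField K] (v : HeightOneSpectrum (𝓞 K)) (q : ℕ), 0 < q →
    ∀ (s k d : ℕ), 1 ≤ k → ∀ δ : ℝ, 0 < δ → ∃ c : ℝ, 0 < c ∧
    ∀ (ρ₀ : Fin s → 𝓞 K) (ω₀ : 𝓞 K) (f : Mon s d → 𝓞 K) (z₀ : Fin (s + 1) → v.adicCompletion K),
      ‖fun l : Fin s => z₀ l.succ‖ = 1 →
      (∀ l : Fin s, ‖z₀ l.succ - jj (v.adicCompletion K) (ρ₀ l)‖ ≤
        ‖(q : v.adicCompletion K)‖) →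
      ‖z₀ 0 - jj (v.adicCompletion K) ω₀‖ ≤ ‖(q : v.adicCompletion K)‖ →
      NZCW k (cemb (1 : v.adicCompletion K) f) z₀ δ (‖(q : v.adicCompletion K)‖ / 2) →
        ∀ j : ℕ, c ≤ wsigC k q (cmk (v.asIdeal ^ j) ρ₀) (Ideal.Quotient.mk (v.asIdeal ^ j) ω₀)
          (cred (v.asIdeal ^ j) f)

/-- [SIGLOWCW], from `RHCB.St_SIGC`, `RHKB.St_HSUM`, `RHCB.St_HMQ`, WABCW, `RHCB.St_BADC`, UIFTCW, PCNCW,
`RHCB.St_EQUC`, `RHKB.St_PLV`.  Port of `RHCB/SIGLOWC.lean` as `RHW/SIGLOWW.lean` is a port of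
`RHMB/SIGLOWM.lean`: `p0 ≥ q` in addition; at `v ∈ S` UIFTCW with `c = 1`, `B0 = 1`, `r = ‖q‖ / 2` and the
point of LocZC. -/
def St_SIGLOWCW : Prop :=
  ∀ (K : Type) [Field K] [NumberField K] (s k m : ℕ), CHyp s k m → ∀ (q : ℕ), 0 < q →
    ∀ (ρ₀ : Fin s → 𝓞 K) (ω₀ : 𝓞 K) (ε : ℝ), 0 < ε →
    ∃ σ₀ : ℝ, 0 < σ₀ ∧ ∃ m2 : ℕ, ∀ m0 ≥ m2, ∃ H0 : ℕ,
      ∀ H ≥ H0, (((box K s (k * m) H).filter fun f => (∀ v, LocZC v k q ρ₀ ω₀ f) ∧
        wsigC k q (cmk (Ideal.span {(WW m0 : 𝓞 K)}) ρ₀)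
          (Ideal.Quotient.mk (Ideal.span {(WW m0 : 𝓞 K)}) ω₀)
          (cred (Ideal.span {(WW m0 : 𝓞 K)}) f) < σ₀).card : ℝ) ≤
          ε * ((box K s (k * m) H).card : ℝ)

/-! ### Infinite places -/

/-- [CENCW], from `RHKB.St_SEP`.  Port of `RHCB/CENC.lean`; the centres are within `r` of `z₀` (see
RHW/CENW.lean). -/
def St_CENCW : Prop :=
  ∀ (K : Type) [Field K] [NumberField K] (s k d : ℕ) (δ r : ℝ), 0 < δ → 0 < r →
    ∃ θ₀ c : ℝ, 0 < θ₀ ∧ 0 < c ∧ ∀ (F : (v : InfinitePlace K) → Mon s d → v.Completion)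
      (z₀ : (v : InfinitePlace K) → Fin (s + 1) → v.Completion),
      (∀ v, NZCW k (F v) (z₀ v) δ r) → ∀ θ : ℝ, 0 < θ → θ ≤ θ₀ →
      ∃ (ι : Type) (_ : Fintype ι) (y : ι → (v : InfinitePlace K) → Fin (s + 1) → v.Completion),
        (∀ i v, ev (F v) (fun l => y i v l.succ) = y i v 0 ^ k) ∧
        (∀ i v l, ‖y i v l - z₀ v l‖ ≤ r) ∧
        (∀ i i', i ≠ i' → ∃ v l, 2 * θ < ‖y i v l - y i' v l‖) ∧
        c * (1 / θ) ^ (dg K * s) ≤ (Fintype.card ι : ℝ)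

/-- [RCCW], from CENCW, `RHCB.St_SMLC`, `RHKB.St_CLOW`, `RHCB.St_NPRC`, `RHKB.St_PLW`.  Port of
`RHCB/RCC.lean` as `RHW/RCW.lean` is a port of `RHMB/RCM.lean`: `θ ≤ r` in addition; a point in the box of a
centre is in `NearC z₀ (2 r) X (X^m V)`; the centres have `11/16 ≤ ‖x‖ ≤ 13/16`, `‖w‖ ≤ B + 1/16` because
`‖x₀‖ = 3/4`, `‖w₀‖ ≤ B` and `r ≤ 1/16`. -/
def St_RCCW : Prop :=
  ∀ (K : Type) [Field K] [NumberField K] (s k m : ℕ), 2 ≤ s → 1 ≤ k → ∀ A B : ℕ, B + 1 ≤ A →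
    ∀ δ r : ℝ, 0 < δ → 0 < r → r ≤ 1 / 16 →
    ∃ c C : ℝ, 0 < c ∧ 0 < C ∧ ∀ W κ m0 : ℕ, 0 < W → 0 < κ → 0 < m0 →
      (∀ h : ℕ, 1 < h → h ≤ m0 → ¬ h.Coprime W) →
      ∃ X0 : ℕ, ∀ X V H : ℕ, X0 ≤ X → X0 ≤ V → V ^ k ≤ H → H ≤ (V + 1) ^ k →
        ∀ f : Mon s (k * m) → 𝓞 K, f ∈ box K s (k * m) H →
        ∀ z₀ : (v : InfinitePlace K) → Fin (s + 1) → v.Completion,
        (∀ v, ‖fun l : Fin s => z₀ v l.succ‖ = 3 / 4) → (∀ v, ‖z₀ v 0‖ ≤ B) →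
        (∀ v : InfinitePlace K, NZCW k (cemb (uk v k V) f) (z₀ v) δ r) →
        ∀ (ρ : Fin s → 𝓞 K) (ω : 𝓞 K), PrC W ρ →
          (c - C / m0) * ((X : ℝ) ^ s * ((X : ℝ) ^ m * V)) ^ dg K /
            ((κ : ℝ) ^ dg K * (W : ℝ) ^ (dg K * (s + 1))) ≤
            (RCnCW {p | NearC z₀ (2 * r) X (X ^ m * V) p} A X V H κ W f ρ ω : ℝ)

/-! ### Assembly -/

/-- [NLOWCW], from `RHCB.St_NGCC`, `RHKB.St_CUP`.  Port of `RHCB/NLOWC.lean` as `RHW/NLOWW.lean` is a port of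
`RHMB/NLOWM.lean`: the residue classes modulo `W` of the points counted by `wcntC`; the points in these
classes are congruent to `(ρ₀, ω₀)` modulo `q` because `q` divides `W`. -/
def St_NLOWCW : Prop :=
  ∀ (K : Type) [Field K] [NumberField K] (s k m : ℕ), CHyp s k m → ∀ A c v : ℕ, 1 ≤ A → 1 ≤ c →
    1 ≤ v → ∀ c₁ σ₀ : ℝ, 0 < c₁ → 0 < σ₀ → ∀ κ W q : ℕ, 0 < κ → 0 < W → q ∣ W → ∃ t0 : ℕ,
    ∀ t ≥ t0, ∀ V H : ℕ, CR k v t V H → ∀ (ρ₀ : Fin s → 𝓞 K) (ω₀ : 𝓞 K)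
    (f : Mon s (k * m) → 𝓞 K),
    σ₀ ≤ wsigC k q (cmk (Ideal.span {(W : 𝓞 K)}) ρ₀)
      (Ideal.Quotient.mk (Ideal.span {(W : 𝓞 K)}) ω₀) (cred (Ideal.span {(W : 𝓞 K)}) f) →
    ∀ P : Set ((Fin s → 𝓞 K) × 𝓞 K),
    (∀ (ρ : Fin s → 𝓞 K) (ω : 𝓞 K), PrC W ρ →
      c₁ * ((XC s c t : ℝ) ^ s * ((XC s c t : ℝ) ^ m * V)) ^ dg K /
        ((κ : ℝ) ^ dg K * (W : ℝ) ^ (dg K * (s + 1))) ≤
        (RCnCW P A (XC s c t) V H κ W f ρ ω : ℝ)) →
      σ₀ * c₁ / (2 * 3 ^ dg K) * EC (dg K) s k m c t V H ≤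
        NLCW {p | p ∈ P ∧ (∀ l, (q : 𝓞 K) ∣ p.1 l - ρ₀ l) ∧ (q : 𝓞 K) ∣ p.2 - ω₀}
          A c t V H κ W f

/-- [DETCW], from RCCW, NLOWCW.  Port of `RHCB/DETC.lean` as `RHW/DETW.lean` is a port of
`RHMB/DETM.lean`. -/
def St_DETCW : Prop :=
  ∀ (K : Type) [Field K] [NumberField K] (s k m : ℕ), CHyp s k m → ∀ A B c v : ℕ, B + 1 ≤ A →
    1 ≤ c → 1 ≤ v → ∀ (q : ℕ), 0 < q → ∀ δ r σ₀ : ℝ, 0 < δ → 0 < r → r ≤ 1 / 16 → 0 < σ₀ →
    ∃ γ : ℝ, 0 < γ ∧ ∃ m2 : ℕ, ∀ m0 ≥ m2,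
    ∀ κ : ℕ, 0 < κ → ∃ t0 : ℕ, ∀ t ≥ t0, ∀ V H : ℕ, CR k v t V H →
    ∀ (ρ₀ : Fin s → 𝓞 K) (ω₀ : 𝓞 K) (f : Mon s (k * m) → 𝓞 K), f ∈ box K s (k * m) H →
      σ₀ ≤ wsigC k q (cmk (Ideal.span {(WW m0 : 𝓞 K)}) ρ₀)
        (Ideal.Quotient.mk (Ideal.span {(WW m0 : 𝓞 K)}) ω₀)
        (cred (Ideal.span {(WW m0 : 𝓞 K)}) f) →
      ∀ z₀ : (v : InfinitePlace K) → Fin (s + 1) → v.Completion,
      (∀ v, ‖fun l : Fin s => z₀ v l.succ‖ = 3 / 4) → (∀ v, ‖z₀ v 0‖ ≤ B) →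
      (∀ v : InfinitePlace K, NZCW k (cemb (uk v k V) f) (z₀ v) δ r) →
      γ * EC (dg K) s k m c t V H ≤
        NLCW (CellC q ρ₀ ω₀ z₀ (2 * r) (XC s c t) (XC s c t ^ m * V)) A c t V H κ (WW m0) f

/-- [LLSCW], from SIGLOWCW, `RHCB.St_BADC`, UIFTCW, `RHKB.St_PLW`, DETCW.  Port of `RHCB/LLSC.lean` as
`RHW/LLSW.lean` is a port of `RHMB/LLSM.lean`: UIFTCW gives `NZCW` at the point `z v` of `InfZC`
(`‖z v 0‖ ≤ N B0 + 1`, since `‖w‖^k = ‖f(x)‖`, as in `thm_UIFTC`), DETCW for `z₀ = z`, the cell of `z` and `2 r` is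
contained in the cell of `y₀` and `3 r`, and `NLCW` is monotone in the set. -/
def St_LLSCW : Prop :=
  ∀ (K : Type) [Field K] [NumberField K] (s k m : ℕ), CHyp s k m → ∀ A c v : ℕ,
    Fintype.card (Mon s (k * m)) * (MK K * 2 ^ k) + 2 ≤ A → 1 ≤ c → 1 ≤ v → ∀ (q : ℕ), 0 < q →
    ∀ (ρ₀ : Fin s → 𝓞 K) (ω₀ : 𝓞 K)
    (y₀ : (v : InfinitePlace K) → Fin (s + 1) → v.Completion) (r : ℝ), 0 < r → r ≤ 1 / 16 →
    ∀ ε : ℝ, 0 < ε → ∃ γ : ℝ, 0 < γ ∧ ∃ m2 : ℕ, ∀ m0 ≥ m2, ∀ κ : ℕ,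
      0 < κ → ∃ t0 : ℕ, ∀ t ≥ t0, ∀ V H : ℕ, CR k v t V H →
      (((box K s (k * m) H).filter fun f => (∀ v : InfinitePlace K, InfZC v k V (y₀ v) r f) ∧
        (∀ v, LocZC v k q ρ₀ ω₀ f) ∧
        NLCW (CellC q ρ₀ ω₀ y₀ (3 * r) (XC s c t) (XC s c t ^ m * V)) A c t V H κ (WW m0) f <
          γ * EC (dg K) s k m c t V H).card : ℝ) ≤ ε * ((box K s (k * m) H).card : ℝ)

/-- the conclusion for the cells -/
def FinCW (K : Type) [Field K] [NumberField K] (s k m : ℕ) : Prop :=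
  ∀ (q : ℕ), 0 < q → ∀ (ρ₀ : Fin s → 𝓞 K) (ω₀ : 𝓞 K)
    (y₀ : (v : InfinitePlace K) → Fin (s + 1) → v.Completion) (r : ℝ), 0 < r → r ≤ 1 / 16 →
    ∀ ε : ℝ, 0 < ε → ∃ H0 : ℕ, ∀ H ≥ H0, ∀ V : ℕ, V ^ k ≤ H → H ≤ (V + 1) ^ k →
      (((box K s (k * m) H).filter fun f => (∀ v : InfinitePlace K, InfZC v k V (y₀ v) r f) ∧
        (∀ v, LocZC v k q ρ₀ ω₀ f) ∧
        ¬ ∃ (X : ℕ) (p : (Fin s → 𝓞 K) × 𝓞 K), 0 < X ∧ Prim p.1 ∧
          p ∈ CellC q ρ₀ ω₀ y₀ (3 * r) X (X ^ m * V) ∧ ev f p.1 = p.2 ^ k).card : ℝ) ≤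
          ε * ((box K s (k * m) H).card : ℝ)

/-- [FINCW], from LLSCW.  Port of the second part of `cmain_of` (RHC/Final.lean) and of `chebC`; compare
RHW/FINW.lean.  `H0`: if `H ≥ (V0 + 1)^k` and `H ≤ (V + 1)^k` then `V ≥ V0`, and `exists_root` (RHC/Final.lean)
for `V` gives `t ≥ t0` with `t^v ≤ V ≤ (t + 1)^v ≤ (2 t)^v`, so `CR k v t V H`. -/
def St_FINCW : Prop :=
  ∀ (K : Type) [Field K] [NumberField K] (s k m : ℕ), CHyp s k m → ∀ A c v : ℕ,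
    Fintype.card (Mon s (k * m)) * (MK K * 2 ^ k) + 2 ≤ A → 1 ≤ c → 1 ≤ v →
    SMCW K s k m A c v → FinCW K s k m

/-! ### The conclusion -/

section top

variable {K : Type} [Field K] [NumberField K] {s d : ℕ}

/-- the points `(x, w)` and `(y, u)` of `f(x) = w^k` in the weighted projective space over `L` are
`η`-close: for some `lam` the point `(lam x, lam^m w)` is within `η` of `(y, u)`, measured in the natural
way -/
def CloC {L : Type} [NormedField L] [Algebra K L] (k m : ℕ) (f : Mon s d → 𝓞 K) (η : ℝ)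
    (x : Fin s → L) (w : L) (y : Fin s → L) (u : L) : Prop :=
  ∃ lam : L, (∀ l, ‖lam * x l - y l‖ ≤ η * ‖y‖) ∧
    ∃ μ, ‖lam ^ m * w - u‖ ^ k ≤ η * ‖jj L (f μ)‖ * ‖y‖ ^ (k * m)

/-- the points over `K` are `η`-dense in the product of the sets of the points over the completions at the
finite places in `S` and at all infinite places -/
def DenseC (k m : ℕ) (S : Finset (HeightOneSpectrum (𝓞 K))) (η : ℝ) (f : Mon s d → 𝓞 K) : Prop :=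
  ∀ (z : (v : HeightOneSpectrum (𝓞 K)) → Fin s → v.adicCompletion K)
    (a : (v : HeightOneSpectrum (𝓞 K)) → v.adicCompletion K)
    (y : (v : InfinitePlace K) → Fin s → v.Completion) (b : (v : InfinitePlace K) → v.Completion),
    (∀ v ∈ S, z v ≠ 0 ∧
      ev (fun μ => algebraMap K (v.adicCompletion K) (f μ : K)) (z v) = a v ^ k) →
    (∀ v, y v ≠ 0 ∧ ev (fun μ => algebraMap K v.Completion (f μ : K)) (y v) = b v ^ k) →
    ∃ (x : Fin s → K) (w : K), x ≠ 0 ∧ ev (fun μ => (f μ : K)) x = w ^ k ∧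
      (∀ v ∈ S, CloC k m f η (fun l => algebraMap K (v.adicCompletion K) (x l))
        (algebraMap K (v.adicCompletion K) w) (z v) (a v)) ∧
      ∀ v : InfinitePlace K, CloC k m f η (fun l => algebraMap K v.Completion (x l))
        (algebraMap K v.Completion w) (y v) (b v)

end top

/-- [SZC], from `RHCB.St_BADC`.  PROOF.  If all `‖jj (f μ)‖ < δ` then at `e_last = (0, ..., 0, 1)` (any point
of size one, `s ≥ 1`) and `lam = 1` the value and the derivatives of `cemb 1 f` are less than `τ`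
(`δ` = `τ` divided by `1 + d (number of the monomials)`; `‖(n : L)‖ ≤ n`), so `BadC τ (cemb 1 f)`; at the infinite
places for `cemb (uu v H) f`, `uu v H = 1 / (MK K * H)`. -/
def St_SZC : Prop :=
  ∀ (K : Type) [Field K] [NumberField K] (s d : ℕ), 1 ≤ s → 1 ≤ d → ∀ ε : ℝ, 0 < ε →
    (∀ v : HeightOneSpectrum (𝓞 K), ∃ δ : ℝ, 0 < δ ∧ ∃ H0 : ℕ, ∀ H ≥ H0,
      (((box K s d H).filter fun f => ∀ μ, ‖jj (v.adicCompletion K) (f μ)‖ < δ).card : ℝ) ≤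
        ε * ((box K s d H).card : ℝ)) ∧
    (∀ v : InfinitePlace K, ∃ δ : ℝ, 0 < δ ∧ ∃ H0 : ℕ, ∀ H ≥ H0,
      (((box K s d H).filter fun f => ∀ μ, ‖jj v.Completion (f μ)‖ < δ * H).card : ℝ) ≤
        ε * ((box K s d H).card : ℝ))

/-- [TOPCW], from `FinCW`, SZC, `RHKB.St_PLV`, `RHKB.St_PLW`.  Compare RHW/TOPW.lean (St_TOPW).
PROOF.  `η ≤ 1` without loss of generality (`DenseC` is monotone in `η`).  SZC with `ε / (2 (|S| + number of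
the infinite places))` gives `δ ≤ 1` for all `v ∈ S` and all infinite `v`.  Let `q > 0` with
`‖q‖_v ≤ η` and `‖q‖_v^k ≤ η δ` for all `v ∈ S`, and `r ≤ 1/16` with `4 r ≤ η * 3/4` and
`(4 r)^k ≤ η δ (3/4)^(k m)`.  The cells: `(ρ₀, ω₀)` in a finite set of representatives of the residue
classes modulo `q`; `y₀` in a finite `r`-net of the families of the points with `‖x‖ = 3/4`,
`‖w‖ ≤ B = N MK 2^k + 1` over the `v.Completion` (compact).  FinCW for every cell with `ε / (2 (number of the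
cells))`, for the `V` with `V^k ≤ H < (V+1)^k` (`V ≥ 1`).  Let `f` be everywhere locally soluble, in none of the
exceptional sets.  Given local points `(z, a)`, `(y, b)` (for `v ∉ S` any local point), scale them by
`lam`, `(lam x, lam^m w)`: `‖x‖ = 1` at the finite places (then `‖w‖^k = ‖f(x)‖ ≤ 1`), `‖x‖ = 3/4` at the
infinite places, and there divide `w` by `V` (then `‖w‖^k = ‖(cemb (uk v k V) f)(x)‖ ≤ N MK 2^k`).  Find the
cell, hence a point `p` of the cell with `X`.  `CloC` at `v ∈ S`: `lam` = inverse of the scaling factor,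
`‖x - x'‖ ≤ ‖q‖ ≤ η`, `‖w - w'‖^k ≤ ‖q‖^k ≤ η δ ≤ η ‖f μ‖`, then multiply by the powers of the scaling factor
(`‖y‖` = its absolute value).  At infinite `v`: `‖x / X - x'‖ ≤ 4 r`, `‖w / (X^m V) - w'‖ ≤ 4 r`, and
`(4 r V)^k ≤ η δ H (3/4)^(k m)` (`V^k ≤ H`). -/
def St_TOPCW : Prop :=
  ∀ (K : Type) [Field K] [NumberField K] (s k m : ℕ), CHyp s k m → FinCW K s k m →
    ∀ (S : Finset (HeightOneSpectrum (𝓞 K))) (η : ℝ), 0 < η → ∀ ε : ℝ, 0 < ε →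
      ∃ H0 : ℕ, ∀ H ≥ H0, (((box K s (k * m) H).filter fun f =>
        ELSC f ∧ ¬ DenseC k m S η f).card : ℝ) ≤ ε * ((box K s (k * m) H).card : ℝ)

end Pool.Agent.RHCW
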