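import Pool.Agent.RHCW.St

/-!
RHCW, module CRTCW: counting points of the cyclic cover modulo a product of coprime ideals, with a
congruence modulo `q` (helper66; port of RHCB/CRTC.lean and RHW/CRTW.lean).
-/

set_option autoImplicit false

namespace Pool.Agent.RHCW

open scoped BigOperators
open Classical NumberField IsDedekindDomain
open Pool.Agent.RHP (Mon mono ev Sys Prim pd WB WW)
open Pool.Agent.RHK Pool.Agent.RHC
open Pool.Agent.RHKB (mI hh jj qv MK uu BadK)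
open Pool.Agent.RHCB (BadC cred cemb uk PrC csig hM)

theorem CRTCW_cnt {K : Type} [Field K] [NumberField K] {s k d : ℕ} (q : ℕ)
    (ρ₀ : Fin s → 𝓞 K) (ω₀ : 𝓞 K) (f : Mon s d → 𝓞 K) {I J : Ideal (𝓞 K)} (h : IsCoprime I J) :
    wcntC k q (cmk (I * J) ρ₀) (Ideal.Quotient.mk (I * J) ω₀) (cred (I * J) f) =
      wcntC k q (cmk I ρ₀) (Ideal.Quotient.mk I ω₀) (cred I f) *
        wcntC k q (cmk J ρ₀) (Ideal.Quotient.mk J ω₀) (cred J f) := by
  let e : 𝓞 K ⧸ I * J ≃+* (𝓞 K ⧸ I) × (𝓞 K ⧸ J) := Ideal.quotientMulEquivQuotientProd I J h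
  let φ : 𝓞 K ⧸ I * J →+* 𝓞 K ⧸ I := (RingHom.fst _ _).comp e.toRingHom
  let ψ : 𝓞 K ⧸ I * J →+* 𝓞 K ⧸ J := (RingHom.snd _ _).comp e.toRingHom
  have hφ : ∀ x, φ x = (e x).1 := fun _ => rfl
  have hψ : ∀ x, ψ x = (e x).2 := fun _ => rfl
  have h1 : ∀ (ρ : Fin s → 𝓞 K ⧸ I * J),
      ev (cred I f) (fun l => φ (ρ l)) = φ (ev (cred (I * J) f) ρ) := by
    intro ρ
    rw [← Pool.Agent.RHP.ev_map]
    rfl
  have h2 : ∀ (ρ : Fin s → 𝓞 K ⧸ I * J),
      ev (cred J f) (fun l => ψ (ρ l)) = ψ (ev (cred (I * J) f) ρ) := by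
    intro ρ
    rw [← Pool.Agent.RHP.ev_map]
    rfl
  have hpφ : ∀ l, φ (cmk (I * J) ρ₀ l) = cmk I ρ₀ l := fun _ => rfl
  have hpψ : ∀ l, ψ (cmk (I * J) ρ₀ l) = cmk J ρ₀ l := fun _ => rfl
  have hoφ : φ (Ideal.Quotient.mk (I * J) ω₀) = Ideal.Quotient.mk I ω₀ := rfl
  have hoψ : ψ (Ideal.Quotient.mk (I * J) ω₀) = Ideal.Quotient.mk J ω₀ := rfl
  have h3 : ∀ p : (Fin s → 𝓞 K ⧸ I * J) × (𝓞 K ⧸ I * J),
      (Prim p.1 ∧ ((∀ l, (q : 𝓞 K ⧸ I * J) ∣ p.1 l - cmk (I * J) ρ₀ l) ∧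
        (q : 𝓞 K ⧸ I * J) ∣ p.2 - Ideal.Quotient.mk (I * J) ω₀) ∧
        ev (cred (I * J) f) p.1 = p.2 ^ k) ↔
      (Prim (fun l => φ (p.1 l)) ∧ ((∀ l, (q : 𝓞 K ⧸ I) ∣ φ (p.1 l) - cmk I ρ₀ l) ∧
        (q : 𝓞 K ⧸ I) ∣ φ p.2 - Ideal.Quotient.mk I ω₀) ∧
        ev (cred I f) (fun l => φ (p.1 l)) = φ p.2 ^ k) ∧
        (Prim (fun l => ψ (p.1 l)) ∧ ((∀ l, (q : 𝓞 K ⧸ J) ∣ ψ (p.1 l) - cmk J ρ₀ l) ∧
          (q : 𝓞 K ⧸ J) ∣ ψ p.2 - Ideal.Quotient.mk J ω₀) ∧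
          ev (cred J f) (fun l => ψ (p.1 l)) = ψ p.2 ^ k) := by
    rintro ⟨ρ, ω⟩
    constructor
    · rintro ⟨hp, ⟨hq, hqw⟩, hz⟩
      refine ⟨⟨Pool.Agent.RHP.Prim.map φ hp, ⟨fun l => ?_, ?_⟩, ?_⟩,
        ⟨Pool.Agent.RHP.Prim.map ψ hp, ⟨fun l => ?_, ?_⟩, ?_⟩⟩
      · have h4 := map_dvd φ (hq l)
        rw [map_natCast, map_sub, hpφ] at h4
        exact h4
      · have h4 := map_dvd φ hqw
        rw [map_natCast, map_sub, hoφ] at h4
        exact h4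
      · show ev (cred I f) (fun l => φ (ρ l)) = φ ω ^ k
        rw [h1, show ev (cred (I * J) f) ρ = ω ^ k from hz, map_pow]
      · have h4 := map_dvd ψ (hq l)
        rw [map_natCast, map_sub, hpψ] at h4
        exact h4
      · have h4 := map_dvd ψ hqw
        rw [map_natCast, map_sub, hoψ] at h4
        exact h4
      · show ev (cred J f) (fun l => ψ (ρ l)) = ψ ω ^ k
        rw [h2, show ev (cred (I * J) f) ρ = ω ^ k from hz, map_pow]
    · rintro ⟨⟨⟨c, hc⟩, ⟨hq, hqw⟩, hz⟩, ⟨⟨c', hc'⟩, ⟨hq', hqw'⟩, hz'⟩⟩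
      refine ⟨⟨fun l => e.symm (c l, c' l), ?_⟩, ⟨fun l => ?_, ?_⟩, ?_⟩
      · apply e.injective
        apply Prod.ext
        · rw [← hφ, map_sum, map_one, Prod.fst_one, ← hc]
          refine Finset.sum_congr rfl fun l _ => ?_
          rw [map_mul, hφ (e.symm _), e.apply_symm_apply]
        · rw [← hψ, map_sum, map_one, Prod.snd_one, ← hc']
          refine Finset.sum_congr rfl fun l _ => ?_
          rw [map_mul, hψ (e.symm _), e.apply_symm_apply]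
      · obtain ⟨a, ha⟩ := hq l
        obtain ⟨a', ha'⟩ := hq' l
        refine ⟨e.symm (a, a'), ?_⟩
        apply e.injective
        apply Prod.ext
        · rw [← hφ, ← hφ, map_sub, hpφ, ha, map_mul, map_natCast, hφ (e.symm _),
            e.apply_symm_apply]
        · rw [← hψ, ← hψ, map_sub, hpψ, ha', map_mul, map_natCast, hψ (e.symm _),
            e.apply_symm_apply]
      · obtain ⟨a, ha⟩ := hqw
        obtain ⟨a', ha'⟩ := hqw'
        refine ⟨e.symm (a, a'), ?_⟩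
        apply e.injective
        apply Prod.ext
        · rw [← hφ, ← hφ, map_sub, hoφ, ha, map_mul, map_natCast, hφ (e.symm _),
            e.apply_symm_apply]
        · rw [← hψ, ← hψ, map_sub, hoψ, ha', map_mul, map_natCast, hψ (e.symm _),
            e.apply_symm_apply]
      · show ev (cred (I * J) f) ρ = ω ^ k
        apply e.injective
        apply Prod.ext
        · rw [← hφ, ← hφ, ← h1, map_pow]
          exact hz
        · rw [← hψ, ← hψ, ← h2, map_pow]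
          exact hz'
  unfold wcntC
  rw [← Nat.card_prod]
  refine Nat.card_congr
    { toFun := fun x => (⟨(fun l => φ (x.1.1 l), φ x.1.2), ((h3 x.1).1 x.2).1⟩,
        ⟨(fun l => ψ (x.1.1 l), ψ x.1.2), ((h3 x.1).1 x.2).2⟩)
      invFun := fun y => ⟨(fun l => e.symm (y.1.1.1 l, y.2.1.1 l), e.symm (y.1.1.2, y.2.1.2)),
        (h3 _).2 ?_⟩
      left_inv := ?_
      right_inv := ?_ }
  · have e1 : (fun l => φ (e.symm (y.1.1.1 l, y.2.1.1 l))) = y.1.1.1 := by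
      funext l
      rw [hφ, e.apply_symm_apply]
    have e2 : (fun l => ψ (e.symm (y.1.1.1 l, y.2.1.1 l))) = y.2.1.1 := by
      funext l
      rw [hψ, e.apply_symm_apply]
    have e3 : φ (e.symm (y.1.1.2, y.2.1.2)) = y.1.1.2 := by
      rw [hφ, e.apply_symm_apply]
    have e4 : ψ (e.symm (y.1.1.2, y.2.1.2)) = y.2.1.2 := by
      rw [hψ, e.apply_symm_apply]
    have e5 : ∀ l, φ (e.symm (y.1.1.1 l, y.2.1.1 l)) = y.1.1.1 l := fun l => congrFun e1 l
    have e6 : ∀ l, ψ (e.symm (y.1.1.1 l, y.2.1.1 l)) = y.2.1.1 l := fun l => congrFun e2 l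
    refine ⟨⟨?_, ⟨fun l => ?_, ?_⟩, ?_⟩, ?_, ⟨fun l => ?_, ?_⟩, ?_⟩
    · rw [e1]
      exact y.1.2.1
    · rw [e5]
      exact y.1.2.2.1.1 l
    · rw [e3]
      exact y.1.2.2.1.2
    · rw [e1, e3]
      exact y.1.2.2.2
    · rw [e2]
      exact y.2.2.1
    · rw [e6]
      exact y.2.2.2.1.1 l
    · rw [e4]
      exact y.2.2.2.1.2
    · rw [e2, e4]
      exact y.2.2.2.2
  · intro x
    apply Subtype.ext
    apply Prod.ext
    · funext l
      exact e.symm_apply_apply (x.1.1 l)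
    · exact e.symm_apply_apply x.1.2
  · intro y
    apply Prod.ext
    · apply Subtype.ext
      apply Prod.ext
      · funext l
        show φ (e.symm (y.1.1.1 l, y.2.1.1 l)) = y.1.1.1 l
        rw [hφ, e.apply_symm_apply]
      · show φ (e.symm (y.1.1.2, y.2.1.2)) = y.1.1.2
        rw [hφ, e.apply_symm_apply]
    · apply Subtype.ext
      apply Prod.ext
      · funext l
        show ψ (e.symm (y.1.1.1 l, y.2.1.1 l)) = y.2.1.1 l
        rw [hψ, e.apply_symm_apply]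
      · show ψ (e.symm (y.1.1.2, y.2.1.2)) = y.2.1.2
        rw [hψ, e.apply_symm_apply]

theorem thm_CRTCW : St_CRTCW := by
  intro K _ _ I J _ _ h s k d q ρ₀ ω₀ f
  unfold wsigC
  rw [CRTCW_cnt q ρ₀ ω₀ f h, Nat.card_congr (Ideal.quotientMulEquivQuotientProd I J h).toEquiv,
    Nat.card_prod]
  push_cast
  rw [mul_pow, div_mul_div_comm]

end Pool.Agent.RHCW
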