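import Pool.Agent.RHCW.St

/-!
RHCW [DETCW]: the local lower bound for individual forms and cells (port of `RHCB/DETC.lean`).
-/

set_option autoImplicit false

namespace Pool.Agent.RHCW

open scoped BigOperators
open Classical NumberField IsDedekindDomain
open Pool.Agent.RHP (Mon mono ev Sys Prim pd WB WW WW_pos WW_cop)
open Pool.Agent.RHK Pool.Agent.RHC
open Pool.Agent.RHKB (mI hh jj qv MK uu BadK)
open Pool.Agent.RHCB (BadC cred cemb uk PrC csig hM)

private theorem DETCW_XX (s c t : ℕ) : t ≤ XC s c t := by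
  unfold XC
  exact Nat.le_self_pow (by omega) t

/-- every `g` with `1 ≤ g ≤ m` divides `WW m` -/
private theorem DETCW_dvd (m g : ℕ) (hg : 1 ≤ g) (hg' : g ≤ m) : g ∣ WW m := by
  have hg0 : g ≠ 0 := by omega
  rw [← Nat.factorization_le_iff_dvd hg0 (WW_pos m).ne']
  intro p
  by_cases hp : p.Prime
  · by_cases hpm : p ≤ m
    · have h1 : g.factorization p ≤ m := by
        have h2 : p ^ g.factorization p ∣ g := Nat.ordProj_dvd g p
        have h3 : p ^ g.factorization p ≤ g := Nat.le_of_dvd hg h2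
        have h4 : g.factorization p < p ^ g.factorization p := Nat.lt_pow_self hp.one_lt
        omega
      have h5 : p ^ m ∣ WW m := by
        unfold WW
        apply Finset.dvd_prod_of_mem (fun p => p ^ m)
        rw [Finset.mem_filter, Finset.mem_range]
        exact ⟨by omega, hp⟩
      have h6 : m ≤ (WW m).factorization p :=
        (hp.pow_dvd_iff_le_factorization (WW_pos m).ne').1 h5
      omega
    · have : ¬ p ∣ g := fun hd => by
        have := Nat.le_of_dvd hg hd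
        omega
      rw [Nat.factorization_eq_zero_of_not_dvd this]
      exact Nat.zero_le _
  · rw [Nat.factorization_eq_zero_of_not_prime _ hp]
    exact Nat.zero_le _

theorem thm_DETCW (hR : St_RCCW) (hN : St_NLOWCW) : St_DETCW := by
  intro K _ _ s k m hyp A B c v hBA hc1 hv1 q hq δ r σ₀ hδ hr hr16 hσ
  have hs := hyp.hs
  have hk2 := hyp.hk
  obtain ⟨c₁, C', hc, hC', hR⟩ := hR K s k m (by omega) (by omega) A B hBA δ r hδ hr hr16
  refine ⟨σ₀ * (c₁ / 2) / (2 * 3 ^ dg K), by positivity, max (max 1 q) ⌈2 * C' / c₁⌉₊, ?_⟩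
  intro m0 hm0 κ hκ
  have hm1 : 1 ≤ m0 := ((le_max_left _ _).trans (le_max_left _ _)).trans hm0
  have hmq : q ≤ m0 := ((le_max_right _ _).trans (le_max_left _ _)).trans hm0
  have hm3 : ⌈2 * C' / c₁⌉₊ ≤ m0 := (le_max_right _ _).trans hm0
  have hm0r : (0 : ℝ) < m0 := by exact_mod_cast hm1
  have hcC : c₁ / 2 ≤ c₁ - C' / m0 := by
    have h1 : 2 * C' / c₁ ≤ m0 := (Nat.le_ceil _).trans (by exact_mod_cast hm3)
    have h2 : C' / m0 ≤ c₁ / 2 := by
      rw [div_le_div_iff₀ hm0r (by norm_num)]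
      rw [div_le_iff₀ hc] at h1
      linarith
    linarith
  have hW := WW_pos m0
  have hqW : q ∣ WW m0 := DETCW_dvd m0 q hq hmq
  obtain ⟨X0, hR⟩ := hR (WW m0) κ m0 hW hκ hm1 (WW_cop m0)
  obtain ⟨t1, hN⟩ := hN K s k m hyp A c v (by omega) hc1 hv1 (c₁ / 2) σ₀ (by positivity) hσ κ
    (WW m0) q hκ hW hqW
  refine ⟨max (max X0 t1) 1, fun t ht V H hH ρ₀ ω₀ f hf hs z₀ hz₀ hzB hZ => ?_⟩
  have ht1 : 1 ≤ t := (le_max_right _ _).trans ht
  have htX0 : X0 ≤ t := ((le_max_left _ _).trans (le_max_left _ _)).trans ht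
  have htt1 : t1 ≤ t := ((le_max_right _ _).trans (le_max_left _ _)).trans ht
  have htV : t ≤ V := (Nat.le_self_pow (by omega) t).trans hH.1
  have htX := DETCW_XX s c t
  have hcell : CellC q ρ₀ ω₀ z₀ (2 * r) (XC s c t) (XC s c t ^ m * V) =
      {p | p ∈ {p : (Fin s → 𝓞 K) × 𝓞 K | NearC z₀ (2 * r) (XC s c t) (XC s c t ^ m * V) p} ∧
        (∀ l, (q : 𝓞 K) ∣ p.1 l - ρ₀ l) ∧ (q : 𝓞 K) ∣ p.2 - ω₀} := by
    ext p
    exact and_comm
  rw [hcell]
  refine hN t htt1 V H hH ρ₀ ω₀ f hs _ fun ρ ω hρ => ?_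
  refine le_trans ?_ (hR (XC s c t) V H (htX0.trans htX) (htX0.trans htV) hH.2.2.1 hH.2.2.2 f hf
    z₀ hz₀ hzB hZ ρ ω hρ)
  refine div_le_div_of_nonneg_right ?_ (by positivity)
  exact mul_le_mul_of_nonneg_right hcC (by positivity)

end Pool.Agent.RHCW
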