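import Pool.Agent.RHCW.St
import Pool.Agent.RHC.Final

/-!
RHCW, module FINCW: Chebyshev for the points in a cell (port of the second part of `cmain_of` in
RHC/Final.lean).
-/

set_option autoImplicit false

namespace Pool.Agent.RHCW

open scoped BigOperators
open Classical NumberField IsDedekindDomain
open Pool.Agent.RHP (Mon mono ev Sys Prim pd WB WW card_le_add WW_pos dvd_WW)
open Pool.Agent.RHK Pool.Agent.RHC
open Pool.Agent.RHKB (mI hh jj qv MK uu BadK)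
open Pool.Agent.RHCB (BadC cred cemb uk PrC csig hM)

section

variable {K : Type} [Field K] [NumberField K] {s k m : ℕ}

/-- Chebyshev -/
theorem FINCW_cheb (P : Set ((Fin s → 𝓞 K) × 𝓞 K)) (A c v t V H κ W : ℕ) (γ : ℝ) (hγ : 0 < γ)
    (ht : 1 ≤ t) (hH : CR k v t V H)
    (ε : ℝ) (hs : ∑ F ∈ box K s (k * m) H, (NCW P A c t V F - NLCW P A c t V H κ W F) ^ 2
      ≤ ε * EC (dg K) s k m c t V H ^ 2 * ((box K s (k * m) H).card : ℝ)) :
    (((box K s (k * m) H).filter fun F => NCW P A c t V F = 0 ∧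
      γ * EC (dg K) s k m c t V H ≤ NLCW P A c t V H κ W F).card : ℝ)
      ≤ ε / γ ^ 2 * ((box K s (k * m) H).card : ℝ) := by
  have hE := EC_pos (dg K) s k m c v t V H ht hH
  obtain ⟨E, hEd⟩ : ∃ E : ℝ, E = EC (dg K) s k m c t V H := ⟨_, rfl⟩
  rw [← hEd] at hE hs ⊢
  have hcE : 0 < γ * E := mul_pos hγ hE
  obtain ⟨S, hS⟩ : ∃ S : Finset (Mon s (k * m) → 𝓞 K), S = (box K s (k * m) H).filter fun F =>
    NCW P A c t V F = 0 ∧ γ * E ≤ NLCW P A c t V H κ W F := ⟨_, rfl⟩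
  rw [← hS]
  have h1 : (S.card : ℝ) * (γ * E) ^ 2 ≤
      ∑ F ∈ box K s (k * m) H, (NCW P A c t V F - NLCW P A c t V H κ W F) ^ 2 := by
    calc (S.card : ℝ) * (γ * E) ^ 2
        = ∑ F ∈ S, (γ * E) ^ 2 := by
          rw [Finset.sum_const, nsmul_eq_mul]
      _ ≤ ∑ F ∈ S, (NCW P A c t V F - NLCW P A c t V H κ W F) ^ 2 := by
          apply Finset.sum_le_sum
          intro F hF
          rw [hS] at hF
          obtain ⟨_, hF1, hF2⟩ := Finset.mem_filter.1 hF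
          rw [hF1, zero_sub, neg_sq]
          exact pow_le_pow_left₀ hcE.le hF2 2
      _ ≤ ∑ F ∈ box K s (k * m) H, (NCW P A c t V F - NLCW P A c t V H κ W F) ^ 2 := by
          apply Finset.sum_le_sum_of_subset_of_nonneg
          · rw [hS]
            exact Finset.filter_subset _ _
          intros
          positivity
  have h2 := h1.trans hs
  have h3 : (γ * E) ^ 2 = γ ^ 2 * E ^ 2 := by ring
  rw [h3] at h2
  have h4 : 0 < E ^ 2 := by positivity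
  have h5 : 0 < γ ^ 2 := by positivity
  have h6 : (S.card : ℝ) * γ ^ 2 ≤ ε * ((box K s (k * m) H).card : ℝ) := by
    have : ((S.card : ℝ) * γ ^ 2) * E ^ 2 ≤
        (ε * ((box K s (k * m) H).card : ℝ)) * E ^ 2 := by
      nlinarith [h2]
    exact le_of_mul_le_mul_right this h4
  rw [div_mul_eq_mul_div, le_div_iff₀ h5]
  exact h6

/-- a good point in the set `P` -/
theorem FINCW_point {P : Set ((Fin s → 𝓞 K) × 𝓞 K)} {A c t V : ℕ} {f : Mon s (k * m) → 𝓞 K}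
    (h : NCW P A c t V f ≠ 0) :
    ∃ p : (Fin s → 𝓞 K) × 𝓞 K, Prim p.1 ∧ p ∈ P ∧ ev f p.1 = p.2 ^ k := by
  unfold NCW at h
  obtain ⟨x, hx, h1⟩ := Finset.exists_ne_zero_of_sum_ne_zero h
  obtain ⟨w, hw, h2⟩ := Finset.exists_ne_zero_of_sum_ne_zero h1
  have hP : (x, w) ∈ P := by
    by_contra h3
    exact h2 (if_neg h3)
  rw [if_pos hP] at h2
  have h3 : ev f x = w ^ k := by
    by_contra h3
    exact h2 (if_neg h3)
  unfold CG at hx
  rw [Finset.mem_filter] at hx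
  exact ⟨(x, w), hx.2.1, hP, h3⟩

end

theorem thm_FINCW (hL : St_LLSCW) : St_FINCW := by
  intro K _ _ s k m hyp A c v hA hc hv sm q hq ρ₀ ω₀ y₀ r hr hr' ε hε
  obtain ⟨γ, hγ, m2, h2⟩ := hL K s k m hyp A c v hA hc hv q hq ρ₀ ω₀ y₀ r hr hr' (ε / 2)
    (by positivity)
  obtain ⟨κ, m0, hκ, h3⟩ := sm (γ ^ 2 * (ε / 2)) (by positivity)
  obtain ⟨M, hM⟩ : ∃ M, M = max m0 m2 := ⟨_, rfl⟩
  obtain ⟨t1, h4⟩ := h3 (WW M) (WW_pos M) (fun g hg hg' =>
    dvd_WW M g hg (hg'.trans (by rw [hM]; exact le_max_left _ _)))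
  obtain ⟨t2, h5⟩ := h2 M (by rw [hM]; exact le_max_right _ _) κ hκ
  obtain ⟨V0, hV0⟩ := exists_root v (max t1 t2) hv
  have hk : 1 ≤ k := by
    have := hyp.hk
    omega
  refine ⟨(V0 + 1) ^ k, fun H hH V hV1 hV2 => ?_⟩
  have hVV : V0 ≤ V := by
    by_contra hcon
    have h6 : (V + 1) ^ k < (V0 + 1) ^ k := Nat.pow_lt_pow_left (by omega) (by omega)
    omega
  obtain ⟨t, ht, ht1, g3, g4⟩ := hV0 V hVV
  have hR : CR k v t V H := ⟨g3, g4.trans (Nat.pow_le_pow_left (by omega) _), hV1, hV2⟩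
  obtain ⟨P, hP⟩ : ∃ P : Set ((Fin s → 𝓞 K) × 𝓞 K),
    P = CellC q ρ₀ ω₀ y₀ (3 * r) (XC s c t) (XC s c t ^ m * V) := ⟨_, rfl⟩
  have h6 := h4 t ((le_max_left _ _).trans ht) V H hR P
  have h7 := h5 t ((le_max_right _ _).trans ht) V H hR
  rw [← hP] at h7
  have h8 := FINCW_cheb P A c v t V H κ (WW M) γ hγ ht1 hR _ h6
  have h9 : (((box K s (k * m) H).filter fun f => (∀ v : InfinitePlace K, InfZC v k V (y₀ v) r f) ∧
        (∀ v, LocZC v k q ρ₀ ω₀ f) ∧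
        ¬ ∃ (X : ℕ) (p : (Fin s → 𝓞 K) × 𝓞 K), 0 < X ∧ Prim p.1 ∧
          p ∈ CellC q ρ₀ ω₀ y₀ (3 * r) X (X ^ m * V) ∧ ev f p.1 = p.2 ^ k).card : ℝ)
      ≤ (((box K s (k * m) H).filter fun f => (∀ v : InfinitePlace K, InfZC v k V (y₀ v) r f) ∧
          (∀ v, LocZC v k q ρ₀ ω₀ f) ∧
          NLCW P A c t V H κ (WW M) f < γ * EC (dg K) s k m c t V H).card : ℝ)
        + (((box K s (k * m) H).filter fun f => NCW P A c t V f = 0 ∧
            γ * EC (dg K) s k m c t V H ≤ NLCW P A c t V H κ (WW M) f).card : ℝ) := by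
    apply card_le_add
    intro F _ hF
    have hN : NCW P A c t V F = 0 := by
      by_contra hN
      obtain ⟨p, hp1, hp2, hp3⟩ := FINCW_point hN
      rw [hP] at hp2
      exact hF.2.2 ⟨XC s c t, p, XC_pos s c t ht1, hp1, hp2, hp3⟩
    by_cases hc1 : γ * EC (dg K) s k m c t V H ≤ NLCW P A c t V H κ (WW M) F
    · exact Or.inr ⟨hN, hc1⟩
    · exact Or.inl ⟨hF.1, hF.2.1, not_le.1 hc1⟩
  have h10 : γ ^ 2 * (ε / 2) / γ ^ 2 = ε / 2 := by field_simp
  rw [h10] at h8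
  linarith

end Pool.Agent.RHCW
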