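import Pool.Agent.RHCW.St
import Pool.Agent.RHCB.FinC

/-!
RHCW: the final theorem for polynomials, from the statements for coefficient vectors (helper18).
-/

set_option autoImplicit false

namespace Pool.Agent.RHCW

open scoped BigOperators
open Classical NumberField IsDedekindDomain
open Pool.Agent.RHP (Mon mono ev Sys Prim pd TR_poly TR_coeff)
open Pool.Agent.RHK Pool.Agent.RHC Pool.Agent.RHCB
open Pool.Agent.RHKB (jj SingL HBox TRK_pos TRK_zero TRK_boxpos TRK_ncard TRK_eval TRK_pderiv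
  SK_count TR2_iff TR2_all)

section

variable {K : Type} [Field K] {n : ℕ}

/-- `(x, w)` is a point over `L` -/
def IsPtC (k : ℕ) (f : MvPolynomial (Fin (n + 1)) (𝓞 K)) {L : Type} [Field L] [Algebra K L]
    (p : (Fin (n + 1) → L) × L) : Prop :=
  p ≠ 0 ∧ p.2 ^ k = valC p.1 f

/-- the points `p` and `q` are `η`-close -/
def CloPC {L : Type} [NormedField L] [Algebra K L] (k m : ℕ)
    (f : MvPolynomial (Fin (n + 1)) (𝓞 K)) (η : ℝ) (p q : (Fin (n + 1) → L) × L) : Prop :=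
  ∃ t : L, (∀ i, ‖t * p.1 i - q.1 i‖ ≤ η * ‖q.1‖) ∧ ∃ e,
    ‖t ^ m * p.2 - q.2‖ ^ k ≤ η * ‖algebraMap K L (f.coeff e : 𝓞 K)‖ * ‖q.1‖ ^ (k * m)

end

/-- the points over `K` are `η`-dense in the product of the sets of points over the completions at the
finite places in `S` and at the infinite places -/
def AppC {K : Type} [Field K] [NumberField K] {n : ℕ} (k m : ℕ)
    (S : Finset (HeightOneSpectrum (𝓞 K))) (η : ℝ) (f : MvPolynomial (Fin (n + 1)) (𝓞 K)) : Prop :=
  ∀ (z : (v : HeightOneSpectrum (𝓞 K)) → (Fin (n + 1) → v.adicCompletion K) × v.adicCompletion K)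
    (y : (v : InfinitePlace K) → (Fin (n + 1) → v.Completion) × v.Completion),
    (∀ v ∈ S, IsPtC k f (z v)) → (∀ v, IsPtC k f (y v)) →
    ∃ p : (Fin (n + 1) → K) × K, IsPtC k f p ∧
      (∀ v ∈ S, CloPC k m f η (fun i => algebraMap K (v.adicCompletion K) (p.1 i),
        algebraMap K (v.adicCompletion K) p.2) (z v)) ∧
      ∀ v, CloPC k m f η (fun i => algebraMap K v.Completion (p.1 i),
        algebraMap K v.Completion p.2) (y v)

section

variable {K : Type} [Field K] {n k m : ℕ}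

theorem FinW_pt (hk : 1 ≤ k) (hkm : 1 ≤ k * m) (f : Mon (n + 1) (k * m) → 𝓞 K) {L : Type}
    [Field L] [Algebra K L] (p : (Fin (n + 1) → L) × L) : IsPtC k (TR_poly f) p ↔
      p.1 ≠ 0 ∧ ev (fun μ => algebraMap K L (f μ : K)) p.1 = p.2 ^ k := by
  have h1 : valC p.1 (TR_poly f) = ev (fun μ => algebraMap K L (f μ : K)) p.1 :=
    TRK_eval L f p.1
  unfold IsPtC
  rw [h1]
  constructor
  · rintro ⟨hxw, h⟩
    refine ⟨?_, h.symm⟩
    intro h0
    rw [h0, FinC_eval0 hkm] at h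
    have h2 : p.2 = 0 := (pow_eq_zero_iff (by omega)).1 h
    exact hxw (Prod.ext h0 h2)
  · rintro ⟨hx, h⟩
    exact ⟨fun h0 => hx (congrArg Prod.fst h0), h.symm⟩

theorem FinW_clo (f : Mon (n + 1) (k * m) → 𝓞 K) {L : Type} [NormedField L] [Algebra K L]
    (η : ℝ) (x : Fin (n + 1) → L) (w : L) (q : (Fin (n + 1) → L) × L)
    (h : CloC k m f η x w q.1 q.2) : CloPC k m (TR_poly f) η (x, w) q := by
  obtain ⟨t, h1, μ, h2⟩ := h
  refine ⟨t, h1, Pool.Agent.RHP.TR_e μ, ?_⟩
  rw [TR_coeff]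
  exact h2

theorem FinW_app [NumberField K] (hk : 1 ≤ k) (hkm : 1 ≤ k * m)
    (S : Finset (HeightOneSpectrum (𝓞 K))) (η : ℝ) (f : Mon (n + 1) (k * m) → 𝓞 K)
    (h : DenseC k m S η f) : AppC k m S η (TR_poly f) := by
  intro z y hz hy
  obtain ⟨x, w, hx, hxw, h1, h2⟩ := h (fun v => (z v).1) (fun v => (z v).2) (fun v => (y v).1)
    (fun v => (y v).2) (fun v hv => (FinW_pt hk hkm f (z v)).1 (hz v hv))
    (fun v => (FinW_pt hk hkm f (y v)).1 (hy v))
  refine ⟨(x, w), (FinW_pt hk hkm f (x, w)).2 ⟨hx, hxw⟩, fun v hv => ?_, fun v => ?_⟩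
  · exact FinW_clo f η _ _ (z v) (h1 v hv)
  · exact FinW_clo f η _ _ (y v) (h2 v)

end

/-- the final theorem, from the statements for coefficient vectors -/
theorem finCW_poly (K : Type) [Field K] [NumberField K] (n k m : ℕ) (hk : 2 ≤ k) (hm : 1 ≤ m)
    (hmain : CMain K (n + 1) k m)
    (S : Finset (HeightOneSpectrum (𝓞 K))) (η : ℝ)
    (hW : ∀ ε : ℝ, 0 < ε → ∃ H0 : ℕ, ∀ H ≥ H0, (((box K (n + 1) (k * m) H).filter fun f =>
        ELSC f ∧ ¬ DenseC k m S η f).card : ℝ) ≤ ε * ((box K (n + 1) (k * m) H).card : ℝ)) :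
    Filter.Tendsto (fun H : ℕ =>
      (({f | InC (k * m) H f ∧ (SmoC k f ∧ LocC k f ∧ AppC k m S η f)} :
        Set (MvPolynomial (Fin (n + 1)) (𝓞 K))).ncard : ℝ) /
      (({f | InC (k * m) H f ∧ (SmoC k f ∧ LocC k f)} :
        Set (MvPolynomial (Fin (n + 1)) (𝓞 K))).ncard : ℝ)) Filter.atTop (nhds 1) := by
  have hkm : 1 ≤ k * m := Nat.one_le_iff_ne_zero.2 (Nat.mul_ne_zero (by omega) (by omega))
  obtain ⟨⟨c, hc, H1, h1⟩, -⟩ := FinC_main hkm hmain
  have h2 := TRK_zero (K := K) (s := n + 1) (d := fun _ : Fin 1 => k * m)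
    (fun F => ELSC (F 0) ∧ ¬ DenseC k m S η (F 0)) (by
      intro ε hε
      obtain ⟨H0, hB⟩ := hW ε hε
      refine ⟨H0, fun H hH => ?_⟩
      rw [EQUC_box, EQUC_card (fun F => ELSC (F 0) ∧ ¬ DenseC k m S η (F 0))
        (fun f => ELSC f ∧ ¬ DenseC k m S η f) (fun f => Iff.rfl)]
      exact hB H hH)
  have hels : ∀ H : ℕ, ({f | InC (k * m) H f ∧ (SmoC k f ∧ LocC k f)} :
      Set (MvPolynomial (Fin (n + 1)) (𝓞 K))).ncard =
      ((HBox K (n + 1) (fun _ : Fin 1 => k * m) H).filter fun F =>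
        ¬ SingL (AlgebraicClosure K) F ∧ ELSC (F 0)).card := by
    intro H
    have h3 := FinC_ncard (K := K) (n := n) (k * m) H fun f => SmoC k f ∧ LocC k f
    exact h3.trans (TR2_iff _ _ _ fun G => and_congr (FinC_sing hk hkm G)
      (and_congr (forall_congr' fun v => FinC_pt (by omega) hkm (G 0) v.Completion)
        (forall_congr' fun v => FinC_pt (by omega) hkm (G 0) (v.adicCompletion K))))
  have hden : ∀ H : ℕ, ({f | InC (k * m) H f ∧ (SmoC k f ∧ LocC k f ∧ AppC k m S η f)} :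
      Set (MvPolynomial (Fin (n + 1)) (𝓞 K))).ncard =
      ((HBox K (n + 1) (fun _ : Fin 1 => k * m) H).filter fun F =>
        ¬ SingL (AlgebraicClosure K) F ∧ ELSC (F 0) ∧ AppC k m S η (TR_poly (F 0))).card := by
    intro H
    have h3 := FinC_ncard (K := K) (n := n) (k * m) H
      fun f => SmoC k f ∧ LocC k f ∧ AppC k m S η f
    exact h3.trans (TR2_iff _ _ _ fun G => and_congr (FinC_sing hk hkm G)
      (and_congr (and_congr (forall_congr' fun v => FinC_pt (by omega) hkm (G 0) v.Completion)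
        (forall_congr' fun v => FinC_pt (by omega) hkm (G 0) (v.adicCompletion K))) Iff.rfl))
  simp only [hden, hels]
  have hlow : ∀ H ≥ H1, c * ((HBox K (n + 1) (fun _ : Fin 1 => k * m) H).card : ℝ) ≤
      (((HBox K (n + 1) (fun _ : Fin 1 => k * m) H).filter fun F =>
        ¬ SingL (AlgebraicClosure K) F ∧ ELSC (F 0)).card : ℝ) := by
    intro H hH
    refine (h1 H hH).trans ?_
    have h3 : ((HBox K (n + 1) (fun _ : Fin 1 => k * m) H).filter fun F =>
        ¬ SingL (AlgebraicClosure K) F ∧ HasZeroC (F 0) K) ⊆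
        ((HBox K (n + 1) (fun _ : Fin 1 => k * m) H).filter fun F =>
          ¬ SingL (AlgebraicClosure K) F ∧ ELSC (F 0)) := by
      intro F hF
      rw [Finset.mem_filter] at hF ⊢
      exact ⟨hF.1, hF.2.1, FinC_els (F 0) hF.2.2⟩
    exact_mod_cast Finset.card_le_card h3
  rw [Metric.tendsto_atTop]
  intro ε hε
  obtain ⟨H3, h4⟩ := h2 (c / 2 * ε) (by positivity)
  refine ⟨max H1 H3, fun H hH => ?_⟩
  have hk' := hlow H ((le_max_left _ _).trans hH)
  have h5 := h4 H ((le_max_right _ _).trans hH)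
  have hb : (0 : ℝ) < ((HBox K (n + 1) (fun _ : Fin 1 => k * m) H).card : ℝ) := by
    exact_mod_cast TRK_boxpos H
  set b : ℝ := ((HBox K (n + 1) (fun _ : Fin 1 => k * m) H).card : ℝ) with hbdef
  set u : ℝ := (((HBox K (n + 1) (fun _ : Fin 1 => k * m) H).filter fun F =>
    ¬ SingL (AlgebraicClosure K) F ∧ ELSC (F 0) ∧ AppC k m S η (TR_poly (F 0))).card : ℝ) with hu
  set w : ℝ := (((HBox K (n + 1) (fun _ : Fin 1 => k * m) H).filter fun F =>
    ¬ SingL (AlgebraicClosure K) F ∧ ELSC (F 0)).card : ℝ) with hw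
  have huv : u ≤ w := by
    have h6 : ((HBox K (n + 1) (fun _ : Fin 1 => k * m) H).filter fun F =>
        ¬ SingL (AlgebraicClosure K) F ∧ ELSC (F 0) ∧ AppC k m S η (TR_poly (F 0))) ⊆
        ((HBox K (n + 1) (fun _ : Fin 1 => k * m) H).filter fun F =>
          ¬ SingL (AlgebraicClosure K) F ∧ ELSC (F 0)) := by
      intro F hF
      rw [Finset.mem_filter] at hF ⊢
      exact ⟨hF.1, hF.2.1, hF.2.2.1⟩
    rw [hu, hw]
    exact_mod_cast Finset.card_le_card h6
  have hvu : w ≤ u + c / 2 * ε * b := by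
    have h6 : ((HBox K (n + 1) (fun _ : Fin 1 => k * m) H).filter fun F =>
        ¬ SingL (AlgebraicClosure K) F ∧ ELSC (F 0)) ⊆
        ((HBox K (n + 1) (fun _ : Fin 1 => k * m) H).filter fun F =>
          ¬ SingL (AlgebraicClosure K) F ∧ ELSC (F 0) ∧ AppC k m S η (TR_poly (F 0))) ∪
          ((HBox K (n + 1) (fun _ : Fin 1 => k * m) H).filter fun F =>
            ELSC (F 0) ∧ ¬ DenseC k m S η (F 0)) := by
      intro F hF
      rw [Finset.mem_filter] at hF
      rw [Finset.mem_union, Finset.mem_filter, Finset.mem_filter]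
      by_cases h7 : DenseC k m S η (F 0)
      · exact Or.inl ⟨hF.1, hF.2.1, hF.2.2, FinW_app (by omega) hkm S η (F 0) h7⟩
      · exact Or.inr ⟨hF.1, hF.2.2, h7⟩
    have h7 : w ≤ u + (((HBox K (n + 1) (fun _ : Fin 1 => k * m) H).filter fun F =>
        ELSC (F 0) ∧ ¬ DenseC k m S η (F 0)).card : ℝ) := by
      have h8 := (Finset.card_le_card h6).trans (Finset.card_union_le _ _)
      rw [hu, hw]
      exact_mod_cast h8
    linarith
  have hv0 : 0 < w := lt_of_lt_of_le (by positivity) hk'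
  rw [Real.dist_eq, abs_sub_comm, abs_of_nonneg]
  · have h6 : 1 - u / w = (w - u) / w := by
      field_simp
    rw [h6, div_lt_iff₀ hv0]
    have h8 : ε * (c * b) ≤ ε * w := mul_le_mul_of_nonneg_left hk' hε.le
    have h9 : 0 < ε * (c * b) := by positivity
    linarith
  · rw [sub_nonneg, div_le_one hv0]
    exact huv

end Pool.Agent.RHCW
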