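import Pool.Agent.RHCW.St

/-!
RHCW, module NLOWCW: the local model in a residue class is large if the local densities are (helper66; port
of `RHCB/NLOWC.lean` of helper22 and `RHW/NLOWW.lean` of helper24).
-/

set_option autoImplicit false

namespace Pool.Agent.RHCW

open scoped BigOperators
open Classical NumberField IsDedekindDomain
open Pool.Agent.RHP (Mon mono ev Sys Prim pd WB WW ev_map Prim.map)
open Pool.Agent.RHK Pool.Agent.RHC
open Pool.Agent.RHKB (mI hh jj qv MK uu BadK)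
open Pool.Agent.RHCB (BadC cred cemb uk PrC csig hM)

section

variable {K : Type} [Field K] [NumberField K] {s k m : ℕ}

/-- the points in `P`, congruent to `(ρ₀, ω₀)` modulo `q`, with primitive `x` where the form is small and
divisible by `W` -/
private noncomputable def NLOWCW_S (P : Set ((Fin s → 𝓞 K) × 𝓞 K)) (q : ℕ) (ρ₀ : Fin s → 𝓞 K)
    (ω₀ : 𝓞 K) (A X V H κ W : ℕ) (f : Mon s (k * m) → 𝓞 K) :
    Finset ((Fin s → 𝓞 K) × 𝓞 K) :=
  (bx K s (X : ℝ) ×ˢ pb K ((A * X ^ m * V : ℕ) : ℝ)).filter fun p =>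
    Prim p.1 ∧ (∀ v : InfinitePlace K, (X : ℝ) < 2 * vs v p.1) ∧
      (W : 𝓞 K) ∣ ev f p.1 - p.2 ^ k ∧ cz (ev f p.1 - p.2 ^ k) * κ ≤ H * X ^ (k * m) ∧
      (p ∈ P ∧ (∀ l, (q : 𝓞 K) ∣ p.1 l - ρ₀ l) ∧ (q : 𝓞 K) ∣ p.2 - ω₀)

omit [NumberField K] in
private theorem NLOWCW_red (I : Ideal (𝓞 K)) (f : Mon s (k * m) → 𝓞 K) (x : Fin s → 𝓞 K) :
    ev (cred I f) (fun l => Ideal.Quotient.mk I (x l)) = Ideal.Quotient.mk I (ev f x) :=
  ev_map (Ideal.Quotient.mk I) f x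

private theorem NLOWCW_card (W : ℕ) :
    Nat.card (𝓞 K ⧸ Ideal.span {(W : 𝓞 K)}) = W ^ dg K := by
  have h1 : Nat.card (𝓞 K ⧸ Ideal.span {(W : 𝓞 K)}) = Ideal.absNorm (Ideal.span {(W : 𝓞 K)}) := by
    rw [Ideal.absNorm_apply]
    rfl
  rw [h1, Ideal.absNorm_span_singleton]
  have h2 : Algebra.norm ℤ (W : 𝓞 K) = (W : ℤ) ^ dg K := by
    have h3 := Algebra.norm_algebraMap (R := ℤ) (S := 𝓞 K) (W : ℤ)
    rw [RingOfIntegers.rank] at h3
    rw [← h3]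
    congr 1
    exact (map_natCast (algebraMap ℤ (𝓞 K)) W).symm
  rw [h2, Int.natAbs_pow, Int.natAbs_natCast]

private theorem NLOWCW_sum (P0 : Set ((Fin s → 𝓞 K) × 𝓞 K)) (q : ℕ) (ρ₀ : Fin s → 𝓞 K)
    (ω₀ : 𝓞 K) (A X V H κ W : ℕ) (hW : 0 < W) (hq : q ∣ W) (f : Mon s (k * m) → 𝓞 K) (b : ℝ)
    (h : ∀ (ρ : Fin s → 𝓞 K) (ω : 𝓞 K), PrC W ρ →
      b ≤ (RCnCW P0 A X V H κ W f ρ ω : ℝ)) :
    (wcntC k q (cmk (Ideal.span {(W : 𝓞 K)}) ρ₀) (Ideal.Quotient.mk (Ideal.span {(W : 𝓞 K)}) ω₀)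
      (cred (Ideal.span {(W : 𝓞 K)}) f) : ℝ) * b ≤
      ((NLOWCW_S P0 q ρ₀ ω₀ A X V H κ W f).card : ℝ) := by
  unfold PrC at h
  set I : Ideal (𝓞 K) := Ideal.span {(W : 𝓞 K)} with hI
  have hfin : Finite (𝓞 K ⧸ I) := by
    refine Nat.finite_of_card_ne_zero ?_
    rw [hI, NLOWCW_card]
    exact (pow_pos hW _).ne'
  have : Fintype (𝓞 K ⧸ I) := Fintype.ofFinite _
  set P : Finset ((Fin s → 𝓞 K ⧸ I) × (𝓞 K ⧸ I)) :=
    Finset.univ.filter fun ρ => Prim ρ.1 ∧ ((∀ l, (q : 𝓞 K ⧸ I) ∣ ρ.1 l - cmk I ρ₀ l) ∧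
      (q : 𝓞 K ⧸ I) ∣ ρ.2 - Ideal.Quotient.mk I ω₀) ∧ ev (cred I f) ρ.1 = ρ.2 ^ k with hP
  have hcnt : wcntC k q (cmk I ρ₀) (Ideal.Quotient.mk I ω₀) (cred I f) = P.card := by
    unfold wcntC
    rw [Nat.card_eq_fintype_card, Fintype.card_subtype]
  rw [hcnt]
  have hdvd : ∀ a : 𝓞 K, Ideal.Quotient.mk I a = 0 ↔ (W : 𝓞 K) ∣ a := by
    intro a
    rw [Ideal.Quotient.eq_zero_iff_mem, hI, Ideal.mem_span_singleton]
  have hqW : (q : 𝓞 K) ∣ (W : 𝓞 K) := by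
    obtain ⟨c, hc⟩ := hq
    exact ⟨(c : 𝓞 K), by rw [hc]; push_cast; rfl⟩
  -- divisibility by `q` of an integer and of its class
  have hqd : ∀ a b : 𝓞 K, (q : 𝓞 K ⧸ I) ∣ Ideal.Quotient.mk I a - Ideal.Quotient.mk I b ↔
      (q : 𝓞 K) ∣ a - b := by
    intro a b
    constructor
    · rintro ⟨c, hc⟩
      obtain ⟨c', rfl⟩ := Ideal.Quotient.mk_surjective (I := I) c
      have h5 : Ideal.Quotient.mk I (a - b - q * c') = 0 := by
        rw [map_sub, map_sub, map_mul, map_natCast, hc, sub_self]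
      have h6 := hqW.trans ((hdvd _).1 h5)
      have h7 : a - b = (a - b - q * c') + q * c' := by ring
      rw [h7]
      exact dvd_add h6 (dvd_mul_right _ _)
    · rintro ⟨c, hc⟩
      refine ⟨Ideal.Quotient.mk I c, ?_⟩
      rw [← map_sub, hc, map_mul, map_natCast]
  set π : ((Fin s → 𝓞 K) × 𝓞 K) → ((Fin s → 𝓞 K ⧸ I) × (𝓞 K ⧸ I)) := fun p =>
    (fun l => Ideal.Quotient.mk I (p.1 l), Ideal.Quotient.mk I p.2) with hπ
  have hev : ∀ p : (Fin s → 𝓞 K) × 𝓞 K, (W : 𝓞 K) ∣ ev f p.1 - p.2 ^ k ↔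
      ev (cred I f) (π p).1 = (π p).2 ^ k := by
    intro p
    rw [← hdvd, map_sub, map_pow, sub_eq_zero, ← NLOWCW_red]
  have hmap : ∀ p ∈ NLOWCW_S P0 q ρ₀ ω₀ A X V H κ W f, π p ∈ P := by
    intro p hp
    unfold NLOWCW_S at hp
    rw [Finset.mem_filter] at hp
    rw [hP, Finset.mem_filter]
    exact ⟨Finset.mem_univ _, hp.2.1.map (Ideal.Quotient.mk I),
      ⟨fun l => (hqd _ _).2 (hp.2.2.2.2.2.2.1 l), (hqd _ _).2 hp.2.2.2.2.2.2.2⟩,
      (hev p).1 hp.2.2.2.1⟩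
  have h1 := Finset.card_eq_sum_card_fiberwise hmap
  have hlift : ∀ ρ : (Fin s → 𝓞 K ⧸ I) × (𝓞 K ⧸ I), ∃ p : (Fin s → 𝓞 K) × 𝓞 K, π p = ρ := by
    intro ρ
    choose r hr using fun l => Ideal.Quotient.mk_surjective (I := I) (ρ.1 l)
    obtain ⟨w, hw⟩ := Ideal.Quotient.mk_surjective (I := I) ρ.2
    exact ⟨(r, w), Prod.ext (funext hr) hw⟩
  choose L hL using hlift
  have h2 : ∀ ρ ∈ P, RCnCW P0 A X V H κ W f (L ρ).1 (L ρ).2 ≤
      ((NLOWCW_S P0 q ρ₀ ω₀ A X V H κ W f).filter fun p => π p = ρ).card := by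
    intro ρ hρ
    rw [hP, Finset.mem_filter] at hρ
    unfold RCnCW
    refine Finset.card_le_card fun p hp => ?_
    rw [Finset.mem_filter] at hp
    obtain ⟨hx1, ⟨hx2, hx3, hx4, hx5, hx6⟩, hx7⟩ := hp
    have h3 : π p = ρ := by
      rw [← hL ρ, hπ]
      refine Prod.ext (funext fun l => ?_) ?_
      · have h4 := (hdvd _).2 (hx4 l)
        rw [map_sub, sub_eq_zero] at h4
        exact h4
      · have h4 := (hdvd _).2 hx5
        rw [map_sub, sub_eq_zero] at h4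
        exact h4
    rw [Finset.mem_filter]
    refine ⟨?_, h3⟩
    unfold NLOWCW_S
    rw [Finset.mem_filter]
    refine ⟨hx1, hx2, hx3, ?_, hx6, hx7, fun l => ?_, ?_⟩
    · rw [hev, h3]
      exact hρ.2.2.2
    · have h5 := hρ.2.2.1.1 l
      rw [← h3] at h5
      exact (hqd _ _).1 h5
    · have h5 := hρ.2.2.1.2
      rw [← h3] at h5
      exact (hqd _ _).1 h5
  have h3 : ∀ ρ ∈ P, b ≤ (((NLOWCW_S P0 q ρ₀ ω₀ A X V H κ W f).filter fun p => π p = ρ).card : ℝ) := by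
    intro ρ hρ
    have h4 : b ≤ (RCnCW P0 A X V H κ W f (L ρ).1 (L ρ).2 : ℝ) := by
      apply h
      have h5 := congrArg Prod.fst (hL ρ)
      rw [hP, Finset.mem_filter] at hρ
      have h6 := hρ.2.1
      rw [← h5] at h6
      exact h6
    refine h4.trans ?_
    exact_mod_cast h2 ρ hρ
  have h4 := Finset.sum_le_sum h3
  rw [Finset.sum_const, nsmul_eq_mul] at h4
  rw [h1]
  push_cast
  exact h4

end

/-- the number of the integers of absolute value at most `T` -/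
private theorem NLOWCW_pb (hC : RHKB.St_CUP) (K : Type) [Field K] [NumberField K] :
    ∃ C : ℝ, 0 < C ∧ ∀ T : ℝ, 1 ≤ T → ((pb K T).card : ℝ) ≤ (C * T) ^ dg K := by
  obtain ⟨C, hC0, hCU⟩ := hC K
  refine ⟨C + 1, by linarith, fun T hT => ?_⟩
  have h1 := (hCU ⊤ 1 one_pos (by simp) T (by linarith) (fun _ => 0) 0).2
  have h2 : {a : 𝓞 K | (∀ v : InfinitePlace K, ‖jj v.Completion a - 0‖ ≤ T) ∧
      a - 0 ∈ (⊤ : Ideal (𝓞 K))} = ((pb K T : Finset (𝓞 K)) : Set (𝓞 K)) := by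
    ext a
    rw [Set.mem_ofPred_eq, Finset.mem_coe, mem_pb]
    have h3 : ∀ v : InfinitePlace K, ‖jj v.Completion a - 0‖ = av v a := by
      intro v
      rw [sub_zero]
      unfold jj av
      exact InfinitePlace.Completion.norm_coe v _
    simp only [h3, Submodule.mem_top, and_true]
  rw [h2, Set.ncard_coe_finset] at h1
  refine h1.trans ?_
  refine pow_le_pow_left₀ (by positivity) ?_ _
  rw [div_one]
  nlinarith

theorem thm_NLOWCW (hG : RHCB.St_NGCC) (hC : RHKB.St_CUP) : St_NLOWCW := by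
  intro K _ _ s k m hyp A c v hA hc hv c₁ σ₀ hc₁ hσ κ W q hκ hW hqW
  obtain ⟨C, hC0, tN, hN⟩ := hG K s (by have := hyp.hs; omega) c hc
  obtain ⟨C', hC'0, hpb⟩ := NLOWCW_pb hC K
  have hκr : (0 : ℝ) < κ := by exact_mod_cast hκ
  have hWr : (0 : ℝ) < W := by exact_mod_cast hW
  have hAr : (0 : ℝ) < A := by exact_mod_cast hA
  set r := dg K with hr
  obtain ⟨t0, ht0⟩ := exists_nat_ge (max ((κ : ℝ) * W)
    (2 * (C * (C' * A) ^ r) * (κ * W) ^ r / (σ₀ * c₁)))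
  refine ⟨max (t0 + 1) tN, fun t ht V H hH ρ₀ ω₀ f hsig P0 hRC => ?_⟩
  have ht1 : 1 ≤ t := by have := le_max_left (t0 + 1) tN; omega
  have htN : tN ≤ t := (le_max_right _ _).trans ht
  have htr : (t0 : ℝ) ≤ t := by
    have := le_max_left (t0 + 1) tN
    exact_mod_cast (by omega : t0 ≤ t)
  have hta : (κ : ℝ) * W ≤ t := (le_max_left _ _).trans (ht0.trans htr)
  have htb : 2 * (C * (C' * A) ^ r) * (κ * W) ^ r / (σ₀ * c₁) ≤ t :=
    (le_max_right _ _).trans (ht0.trans htr)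
  have htp : (0 : ℝ) < t := by exact_mod_cast ht1
  set X : ℕ := XC s c t with hX
  have hX1 : 1 ≤ X := by
    rw [hX]
    unfold XC
    exact Nat.one_le_pow _ _ ht1
  have hXr : (1 : ℝ) ≤ X := by exact_mod_cast hX1
  have hX0 : (0 : ℝ) < X := by linarith
  obtain ⟨hV1, -, hH1, -⟩ := hH
  have hVt : t ≤ V := (Nat.le_self_pow (by omega) t).trans hV1
  have hV0 : 1 ≤ V := ht1.trans hVt
  have hVr : (1 : ℝ) ≤ V := by exact_mod_cast hV0
  have hVp : (0 : ℝ) < V := by linarith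
  have hHt : t ≤ H := (hVt.trans (Nat.le_self_pow (by have := hyp.hk; omega) V)).trans hH1
  have hHr : (t : ℝ) ≤ H := by exact_mod_cast hHt
  have hH0 : (0 : ℝ) < H := by linarith
  -- the set of all points
  have h1 := NLOWCW_sum P0 q ρ₀ ω₀ A X V H κ W hW hqW f
    (c₁ * ((X : ℝ) ^ s * ((X : ℝ) ^ m * V)) ^ r / ((κ : ℝ) ^ r * (W : ℝ) ^ (r * (s + 1)))) hRC
  have h2 : σ₀ * c₁ * ((X : ℝ) ^ s * ((X : ℝ) ^ m * V)) ^ r / ((κ : ℝ) * W) ^ r ≤
      ((NLOWCW_S P0 q ρ₀ ω₀ A X V H κ W f).card : ℝ) := by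
    refine le_trans ?_ h1
    unfold wsigC at hsig
    rw [NLOWCW_card] at hsig
    push_cast at hsig
    rw [← pow_mul] at hsig
    have h3 : σ₀ * (W : ℝ) ^ (r * s) ≤ (wcntC k q (cmk (Ideal.span {(W : 𝓞 K)}) ρ₀)
        (Ideal.Quotient.mk (Ideal.span {(W : 𝓞 K)}) ω₀)
        (cred (Ideal.span {(W : 𝓞 K)}) f) : ℝ) := by
      rwa [le_div_iff₀ (by positivity)] at hsig
    have h4 : σ₀ * c₁ * ((X : ℝ) ^ s * ((X : ℝ) ^ m * V)) ^ r / ((κ : ℝ) * W) ^ r =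
        σ₀ * (W : ℝ) ^ (r * s) *
        (c₁ * ((X : ℝ) ^ s * ((X : ℝ) ^ m * V)) ^ r /
          ((κ : ℝ) ^ r * (W : ℝ) ^ (r * (s + 1)))) := by
      have h5 : (W : ℝ) ^ (r * (s + 1)) = (W : ℝ) ^ (r * s) * (W : ℝ) ^ r := by
        rw [← pow_add]
        congr 1
      rw [mul_pow (κ : ℝ) W, h5]
      field_simp
    rw [h4]
    exact mul_le_mul_of_nonneg_right h3 (by positivity)
  -- the points which are not good
  have hU : (((A * X ^ m * V : ℕ) : ℕ) : ℝ) = A * ((X : ℝ) ^ m * V) := by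
    push_cast
    ring
  have hU1 : (1 : ℝ) ≤ ((A * X ^ m * V : ℕ) : ℝ) := by
    have : 1 ≤ A * X ^ m * V := Nat.one_le_iff_ne_zero.2 (by positivity)
    exact_mod_cast this
  have h3 : (((NLOWCW_S P0 q ρ₀ ω₀ A X V H κ W f).filter fun p => p.1 ∉ CG K s c t).card : ℝ) * t ≤
      C * (C' * A) ^ r * ((X : ℝ) ^ s * ((X : ℝ) ^ m * V)) ^ r := by
    have h4 : ((NLOWCW_S P0 q ρ₀ ω₀ A X V H κ W f).filter fun p => p.1 ∉ CG K s c t) ⊆
        ((bx K s ((XC s c t : ℕ) : ℝ)).filter fun x => ∃ l : Fin s → 𝓞 K, l ≠ 0 ∧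
          (∀ v : InfinitePlace K, vs v l ≤ (t : ℝ) ^ c) ∧ dp l x = 0) ×ˢ
          pb K ((A * X ^ m * V : ℕ) : ℝ) := by
      intro p hp
      rw [Finset.mem_filter] at hp
      obtain ⟨hx1, hx2⟩ := hp
      unfold NLOWCW_S at hx1
      rw [Finset.mem_filter, Finset.mem_product] at hx1
      rw [Finset.mem_product, Finset.mem_filter]
      refine ⟨⟨hx1.1.1, ?_⟩, hx1.1.2⟩
      by_contra hcon
      push Not at hcon
      apply hx2
      unfold CG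
      rw [Finset.mem_filter]
      exact ⟨hx1.1.1, hx1.2.1, hx1.2.2.1, hcon⟩
    have h5 := Finset.card_le_card h4
    rw [Finset.card_product] at h5
    have h6 : (((NLOWCW_S P0 q ρ₀ ω₀ A X V H κ W f).filter fun p => p.1 ∉ CG K s c t).card : ℝ) ≤
        (((bx K s ((XC s c t : ℕ) : ℝ)).filter fun x => ∃ l : Fin s → 𝓞 K, l ≠ 0 ∧
          (∀ v : InfinitePlace K, vs v l ≤ (t : ℝ) ^ c) ∧ dp l x = 0).card : ℝ) *
          ((pb K ((A * X ^ m * V : ℕ) : ℝ)).card : ℝ) := by exact_mod_cast h5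
    have h7 := hN t htN
    have h8 := hpb _ hU1
    rw [hU] at h8
    calc (((NLOWCW_S P0 q ρ₀ ω₀ A X V H κ W f).filter fun p => p.1 ∉ CG K s c t).card : ℝ) * t ≤
        (((bx K s ((XC s c t : ℕ) : ℝ)).filter fun x => ∃ l : Fin s → 𝓞 K, l ≠ 0 ∧
          (∀ v : InfinitePlace K, vs v l ≤ (t : ℝ) ^ c) ∧ dp l x = 0).card : ℝ) *
          ((pb K ((A * X ^ m * V : ℕ) : ℝ)).card : ℝ) * t := mul_le_mul_of_nonneg_right h6 htp.le
      _ = (((bx K s ((XC s c t : ℕ) : ℝ)).filter fun x => ∃ l : Fin s → 𝓞 K, l ≠ 0 ∧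
          (∀ v : InfinitePlace K, vs v l ≤ (t : ℝ) ^ c) ∧ dp l x = 0).card : ℝ) * t *
          ((pb K ((A * X ^ m * V : ℕ) : ℝ)).card : ℝ) := by ring
      _ ≤ C * ((X : ℝ) ^ s) ^ r * (C' * (A * ((X : ℝ) ^ m * V))) ^ r := by
          refine mul_le_mul h7 ?_ (Nat.cast_nonneg _) (by positivity)
          rw [hU]
          exact h8
      _ = C * (C' * A) ^ r * ((X : ℝ) ^ s * ((X : ℝ) ^ m * V)) ^ r := by
          simp only [mul_pow]
          ring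
  set S' := (NLOWCW_S P0 q ρ₀ ω₀ A X V H κ W f).filter fun p => p.1 ∈ CG K s c t with hS'
  have h4 : ((NLOWCW_S P0 q ρ₀ ω₀ A X V H κ W f).card : ℝ) =
      (S'.card : ℝ) + (((NLOWCW_S P0 q ρ₀ ω₀ A X V H κ W f).filter fun p => p.1 ∉ CG K s c t).card : ℝ) := by
    have := Finset.card_filter_add_card_filter_not (s := NLOWCW_S P0 q ρ₀ ω₀ A X V H κ W f)
      (fun p => p.1 ∈ CG K s c t)
    exact_mod_cast this.symm
  set Y : ℝ := (X : ℝ) ^ s * ((X : ℝ) ^ m * V) with hY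
  have hY0 : 0 < Y := by positivity
  have h5 : σ₀ * c₁ * Y ^ r / (2 * ((κ : ℝ) * W) ^ r) ≤ (S'.card : ℝ) := by
    have h6 : (((NLOWCW_S P0 q ρ₀ ω₀ A X V H κ W f).filter fun p => p.1 ∉ CG K s c t).card : ℝ) ≤
        σ₀ * c₁ * Y ^ r / (2 * ((κ : ℝ) * W) ^ r) := by
      have h7 : (((NLOWCW_S P0 q ρ₀ ω₀ A X V H κ W f).filter fun p => p.1 ∉ CG K s c t).card : ℝ) ≤
          C * (C' * A) ^ r * Y ^ r / t := by
        rw [le_div_iff₀ htp]
        exact h3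
      refine h7.trans ?_
      rw [div_le_div_iff₀ htp (by positivity)]
      rw [div_le_iff₀ (by positivity)] at htb
      have h8 := mul_le_mul_of_nonneg_left htb (by positivity : (0 : ℝ) ≤ Y ^ r)
      linarith
    have h9 : σ₀ * c₁ * Y ^ r / ((κ : ℝ) * W) ^ r =
        2 * (σ₀ * c₁ * Y ^ r / (2 * ((κ : ℝ) * W) ^ r)) := by
      field_simp
    linarith
  -- the contribution of a point
  set Z : ℝ := H * (X : ℝ) ^ (k * m) with hZ
  have hZ0 : 0 < Z := by positivity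
  have h6 : (((κ : ℝ) * W) / (3 * Z)) ^ r ≤ 1 / (TC r s c t H κ W (k * m) : ℝ) := by
    have h7 : (1 : ℝ) ≤ Z / (κ * W) := by
      rw [le_div_iff₀ (by positivity), one_mul]
      have h8 : (1 : ℝ) ≤ (X : ℝ) ^ (k * m) := one_le_pow₀ hXr
      have h9 : (H : ℝ) * 1 ≤ Z := mul_le_mul_of_nonneg_left h8 hH0.le
      linarith
    have h8 : ((ThC s c t H κ (k * m) / W : ℕ) : ℝ) ≤ Z / (κ * W) := by
      refine Nat.cast_div_le.trans ?_
      rw [div_le_div_iff₀ hWr (by positivity)]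
      have h9 : ((ThC s c t H κ (k * m) : ℕ) : ℝ) ≤ Z / κ := by
        unfold ThC
        refine Nat.cast_div_le.trans ?_
        push_cast
        exact le_rfl
      rw [le_div_iff₀ hκr] at h9
      have h10 := mul_le_mul_of_nonneg_right h9 hWr.le
      linarith
    have h9 : (((κ : ℝ) * W) / (3 * Z)) ^ r = 1 / (3 * (Z / (κ * W))) ^ r := by
      rw [one_div, ← inv_pow]
      congr 1
      field_simp
    rw [h9]
    apply one_div_le_one_div_of_le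
    · unfold TC
      positivity
    · unfold TC
      push_cast
      refine pow_le_pow_left₀ (by positivity) ?_ r
      linarith
  have h8 : (S'.card : ℝ) * (((κ : ℝ) * W) / (3 * Z)) ^ r ≤
      NLCW {p | p ∈ P0 ∧ (∀ l, (q : 𝓞 K) ∣ p.1 l - ρ₀ l) ∧ (q : 𝓞 K) ∣ p.2 - ω₀}
        A c t V H κ W f := by
    obtain ⟨P1, hP1⟩ : ∃ P1 : Set ((Fin s → 𝓞 K) × 𝓞 K),
      P1 = {p | p ∈ P0 ∧ (∀ l, (q : 𝓞 K) ∣ p.1 l - ρ₀ l) ∧ (q : 𝓞 K) ∣ p.2 - ω₀} := ⟨_, rfl⟩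
    rw [← hP1]
    unfold NLCW
    rw [← Finset.sum_product']
    have hsub : S' ⊆ CG K s c t ×ˢ pb K ((UC s m A c t V : ℕ) : ℝ) := by
      intro p hp
      rw [hS', Finset.mem_filter] at hp
      obtain ⟨hp1, hp2⟩ := hp
      unfold NLOWCW_S at hp1
      rw [Finset.mem_filter, Finset.mem_product] at hp1
      rw [Finset.mem_product]
      exact ⟨hp2, hp1.1.2⟩
    refine le_trans ?_ (Finset.sum_le_sum_of_subset_of_nonneg hsub ?_)
    · rw [← nsmul_eq_mul, ← Finset.sum_const]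
      refine Finset.sum_le_sum fun p hp => ?_
      rw [hS', Finset.mem_filter] at hp
      obtain ⟨hx1, hx2⟩ := hp
      unfold NLOWCW_S at hx1
      rw [Finset.mem_filter] at hx1
      have hx3 : (p.1, p.2) ∈ P1 := by
        rw [hP1]
        exact hx1.2.2.2.2.2
      rw [if_pos hx3, if_pos]
      · exact h6
      · refine ⟨hx1.2.2.2.1, ?_⟩
        unfold ThC
        rw [Nat.le_div_iff_mul_le hκ]
        exact hx1.2.2.2.2.1
    · intro x _ _
      split_ifs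
      · positivity
      · exact le_rfl
      · exact le_rfl
  refine le_trans ?_ h8
  refine le_trans (le_of_eq ?_) (mul_le_mul_of_nonneg_right h5 (by positivity))
  unfold EC
  rw [← hX, ← hY, ← hZ, div_pow, div_pow, mul_pow 3 Z]
  field_simp

end Pool.Agent.RHCW
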