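import Pool.Agent.RHCW.St
import Pool.Agent.RHCB.SIGLOWC

/-!
RHCW, module SIGLOWCW: the local densities of the points in a residue class are seldom small (helper66; port
of `RHCB/SIGLOWC.lean` and of `RHW/SIGLOWW.lean`).
-/

set_option autoImplicit false

namespace Pool.Agent.RHCW

open scoped BigOperators
open Classical NumberField IsDedekindDomain
open Pool.Agent.RHP (Mon mono ev Sys Prim pd WB WW)
open Pool.Agent.RHK Pool.Agent.RHC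
open Pool.Agent.RHKB (mI hh jj qv MK uu BadK)
open Pool.Agent.RHCB (BadC cred cemb uk PrC csig hM SIGLOWC_frac SIGLOWC_finite)

/-- the lower bound at one finite place -/
theorem SIGLOWCW_place (hU : St_UIFTCW) (hP : St_PCNCW) (hV : Pool.Agent.RHKB.St_PLV) {K : Type}
    [Field K] [NumberField K] (s k m : ℕ) (hk : 2 ≤ k) (hm : 1 ≤ m)
    (v : HeightOneSpectrum (𝓞 K)) (q : ℕ) (hq : 0 < q) (τ : ℝ) (hτ : 0 < τ) :
    ∃ c : ℝ, 0 < c ∧ ∀ (ρ₀ : Fin s → 𝓞 K) (ω₀ : 𝓞 K) (f : Mon s (k * m) → 𝓞 K),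
      LocZC v k q ρ₀ ω₀ f → ¬ BadC τ (cemb (1 : v.adicCompletion K) f) →
        ∀ j : ℕ, c ≤ wsigC k q (cmk (v.asIdeal ^ j) ρ₀) (Ideal.Quotient.mk (v.asIdeal ^ j) ω₀)
          (cred (v.asIdeal ^ j) f) := by
  obtain ⟨hprop, hq1, hnt, hultra, hint, happ, hval⟩ := hV K v
  have hk0 : ((k : ℕ) : v.adicCompletion K) ≠ 0 := by
    have h1 : ((k : ℕ) : K) ≠ 0 := Nat.cast_ne_zero.2 (by omega)
    have h2 : algebraMap K (v.adicCompletion K) ((k : ℕ) : K) = ((k : ℕ) : v.adicCompletion K) :=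
      map_natCast _ _
    rw [← h2]
    exact (map_ne_zero _).2 h1
  have hq0 : (0 : ℝ) < ‖(q : v.adicCompletion K)‖ := by
    rw [norm_pos_iff]
    have h1 : (q : v.adicCompletion K) = algebraMap K (v.adicCompletion K) (q : K) :=
      (map_natCast _ q).symm
    rw [h1]
    have h2 : (q : K) ≠ 0 := by exact_mod_cast hq.ne'
    exact (map_ne_zero _).2 h2
  obtain ⟨δ, hδ, h1⟩ := hU (v.adicCompletion K) hnt s k m hk hm hk0 1 one_ne_zero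
    (le_of_eq norm_one) 1 τ (‖(q : v.adicCompletion K)‖ / 2) hτ (by linarith)
  obtain ⟨c, hc, h2⟩ := hP K v q hq s k (k * m) (by omega) δ hδ
  refine ⟨c, hc, fun ρ₀ ω₀ f hz hb j => ?_⟩
  obtain ⟨z, hz1, ⟨hz2, hz3⟩, hz4⟩ := hz
  refine h2 ρ₀ ω₀ f z hz1 hz2 hz3
    (h1 (cemb (1 : v.adicCompletion K) f) (fun μ => ?_) hb z ?_ ?_) j
  · have h4 := (hint (f μ) 0).2 (by rw [pow_zero, Ideal.one_eq_top]; exact Submodule.mem_top)
    rw [pow_zero, inv_one] at h4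
    unfold cemb
    rw [one_mul, Nat.cast_one]
    exact h4
  · rw [hz1, norm_one]
  · rw [← hz4]
    congr 1
    funext μ
    unfold cemb jj
    rw [one_mul]
    rfl

theorem SIGLOWCW_p0 (C C1 C2 ε : ℝ) (hε : 0 < ε) (M : ℕ) (hM : 1 ≤ M) (q : ℕ) :
    ∃ p0 : ℕ, 1 ≤ p0 ∧ q ≤ p0 ∧
      2 * (C * (C1 / (p0 : ℝ) + C2 * (p0 : ℝ) ^ (-(1 : ℝ) / (M : ℝ)))) ≤ ε := by
  have hM0 : (0 : ℝ) < 1 / (M : ℝ) := by
    have : (0 : ℝ) < (M : ℝ) := by exact_mod_cast (show 0 < M by omega)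
    positivity
  have h1 : Filter.Tendsto (fun n : ℕ => C1 / (n : ℝ)) Filter.atTop (nhds 0) :=
    tendsto_const_div_atTop_nhds_zero_nat C1
  have h2 : Filter.Tendsto (fun n : ℕ => (n : ℝ) ^ (-(1 : ℝ) / (M : ℝ))) Filter.atTop (nhds 0) := by
    have h3 := (tendsto_rpow_neg_atTop hM0).comp (tendsto_natCast_atTop_atTop (R := ℝ))
    rw [show (-(1 : ℝ) / (M : ℝ)) = -(1 / (M : ℝ)) from neg_div _ _]
    exact h3
  have h3 : Filter.Tendsto (fun n : ℕ => 2 * (C * (C1 / (n : ℝ) +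
      C2 * (n : ℝ) ^ (-(1 : ℝ) / (M : ℝ))))) Filter.atTop (nhds (2 * (C * (0 + C2 * 0)))) :=
    ((h1.add (h2.const_mul C2)).const_mul C).const_mul 2
  rw [mul_zero, add_zero, mul_zero, mul_zero] at h3
  obtain ⟨n, hn1, hn2⟩ :=
    ((h3.eventually_lt_const hε).and (Filter.eventually_ge_atTop (1 + q))).exists
  exact ⟨n, by omega, by omega, hn1.le⟩

theorem thm_SIGLOWCW (hS : Pool.Agent.RHCB.St_SIGC) (hH : Pool.Agent.RHKB.St_HSUM)
    (hQ : Pool.Agent.RHCB.St_HMQ) (hA : St_WABCW) (hB : Pool.Agent.RHCB.St_BADC)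
    (hU : St_UIFTCW) (hP : St_PCNCW) (hE : Pool.Agent.RHCB.St_EQUC)
    (hV : Pool.Agent.RHKB.St_PLV) : St_SIGLOWCW := by
  intro K _ _ s k m hyp q hq ρ₀ ω₀ ε hε
  have hs3 := hyp.hs
  have hk2 := hyp.hk
  have hm1 := hyp.hm
  have hkm : 1 ≤ k * m := Nat.mul_pos (by omega) hm1
  have hM : 1 ≤ RHCB.MM k := by
    unfold RHCB.MM
    have : 2 * 1 ≤ k * (k + 1) := Nat.mul_le_mul hk2 (by omega)
    omega
  obtain ⟨C1, hC10, hC1⟩ := hH K
  obtain ⟨C2, hC20, hC2⟩ := hQ K (RHCB.MM k) hM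
  obtain ⟨C, hC0, hC⟩ := hS K s k (k * m) hs3 (by omega) hkm
  obtain ⟨p0, hp01, hp0q, hp0⟩ := SIGLOWCW_p0 C C1 C2 (ε / 2) (by positivity) (RHCB.MM k) hM q
  obtain ⟨S, hS1, hS2⟩ := hA K p0
  obtain ⟨ε', hε', hεS⟩ : ∃ ε' : ℝ, 0 < ε' ∧ (S.card : ℝ) * ε' ≤ ε / 2 := by
    refine ⟨ε / (2 * ((S.card : ℝ) + 1)), by positivity, ?_⟩
    rw [mul_div_assoc', div_le_div_iff₀ (by positivity) (by norm_num)]
    have : (0 : ℝ) ≤ (S.card : ℝ) := Nat.cast_nonneg _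
    nlinarith
  choose τ hτ Hv hHv using (hB K s (k * m) (by omega) hkm ε' hε').1
  choose c hc hcF using fun v => SIGLOWCW_place hU hP hV s k m hk2 hm1 v q hq (τ v) (hτ v)
  refine ⟨(∏ v ∈ S, c v) * (1 / 2), by
    have : 0 < ∏ v ∈ S, c v := Finset.prod_pos fun v _ => hc v
    positivity, p0, fun m0 hm0 => ?_⟩
  obtain ⟨hWB0, hWBp, n, hWBs⟩ := hS2 m0 hm0
  have hWBs' := hWBs q hq (fun p _ hpq => (Nat.le_of_dvd hq hpq).trans hp0q) s k (k * m) ρ₀ ω₀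
  obtain ⟨H1, hH1⟩ := hE K s (k * m) (Ideal.span {(WB p0 m0 : 𝓞 K)}) (by
    rw [Ne, Ideal.span_singleton_eq_bot]
    exact_mod_cast hWB0.ne')
  refine ⟨max H1 (S.sup Hv), fun H hHH => ?_⟩
  have hHH1 : H1 ≤ H := (le_max_left _ _).trans hHH
  have hHHv : ∀ v ∈ S, Hv v ≤ H := fun v hv =>
    (Finset.le_sup hv).trans ((le_max_right _ _).trans hHH)
  have hfin := SIGLOWC_finite (K := K) (WB p0 m0) hWB0
  -- the bad forms
  obtain ⟨B1, hB1⟩ : ∃ B1 : HeightOneSpectrum (𝓞 K) → Finset (Mon s (k * m) → 𝓞 K), B1 = fun v =>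
    (box K s (k * m) H).filter fun f => BadC (τ v) (cemb (1 : v.adicCompletion K) f) := ⟨_, rfl⟩
  obtain ⟨B2, hB2⟩ : ∃ B2 : Finset (Mon s (k * m) → 𝓞 K), B2 = (box K s (k * m) H).filter fun f =>
    csig k (cred (Ideal.span {(WB p0 m0 : 𝓞 K)}) f) < 1 / 2 := ⟨_, rfl⟩
  have h1 : (B2.card : ℝ) ≤ ε / 2 * ((box K s (k * m) H).card : ℝ) := by
    have h3 := hC1 p0 (WB p0 m0) hp01 hWB0 hWBp
    have h3' := hC2 p0 (WB p0 m0) hp01 hWB0 hWBp
    have h2 := SIGLOWC_frac (Ideal.span {(WB p0 m0 : 𝓞 K)}) hfin H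
      (fun G : Mon s (k * m) → 𝓞 K ⧸ Ideal.span {(WB p0 m0 : 𝓞 K)} => csig k G < 1 / 2)
      (hH1 H hHH1 _) (C * (C1 / (p0 : ℝ) + C2 * (p0 : ℝ) ^ (-(1 : ℝ) / (RHCB.MM k : ℝ)))) (by
        refine (hC (WB p0 m0) hWB0).trans ?_
        refine mul_le_mul_of_nonneg_right ?_ (Nat.cast_nonneg _)
        exact mul_le_mul_of_nonneg_left (add_le_add h3 h3') hC0.le)
    rw [hB2]
    exact h2.trans (mul_le_mul_of_nonneg_right hp0 (Nat.cast_nonneg _))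
  have h2 : ∀ v ∈ S, ((B1 v).card : ℝ) ≤ ε' * ((box K s (k * m) H).card : ℝ) := by
    intro v hv
    rw [hB1]
    exact hHv v H (hHHv v hv)
  have hsub : ((box K s (k * m) H).filter fun f =>
      (∀ v, LocZC v k q ρ₀ ω₀ f) ∧
      wsigC k q (cmk (Ideal.span {(WW m0 : 𝓞 K)}) ρ₀)
        (Ideal.Quotient.mk (Ideal.span {(WW m0 : 𝓞 K)}) ω₀)
        (cred (Ideal.span {(WW m0 : 𝓞 K)}) f) < (∏ v ∈ S, c v) * (1 / 2)) ⊆
      S.biUnion B1 ∪ B2 := by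
    intro F hF
    rw [Finset.mem_filter] at hF
    obtain ⟨hF1, hF2, hF3⟩ := hF
    by_contra hcon
    rw [Finset.mem_union, not_or, Finset.mem_biUnion] at hcon
    obtain ⟨hc1, hc2⟩ := hcon
    have h3 : (1 : ℝ) / 2 ≤ csig k (cred (Ideal.span {(WB p0 m0 : 𝓞 K)}) F) := by
      by_contra h4
      apply hc2
      rw [hB2, Finset.mem_filter]
      exact ⟨hF1, not_le.1 h4⟩
    have h4 : ∏ v ∈ S, c v ≤ ∏ v ∈ S, wsigC k q (cmk (v.asIdeal ^ n v) ρ₀)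
        (Ideal.Quotient.mk (v.asIdeal ^ n v) ω₀) (cred (v.asIdeal ^ n v) F) := by
      refine Finset.prod_le_prod (fun v _ => (hc v).le) fun v hv => ?_
      apply hcF v ρ₀ ω₀ F (hF2 v)
      intro h5
      apply hc1
      refine ⟨v, hv, ?_⟩
      rw [hB1]
      exact Finset.mem_filter.2 ⟨hF1, h5⟩
    have h5 : 0 ≤ ∏ v ∈ S, c v := Finset.prod_nonneg fun v _ => (hc v).le
    rw [hWBs' F] at hF3
    have h6 : (∏ v ∈ S, c v) * (1 / 2) ≤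
        (∏ v ∈ S, wsigC k q (cmk (v.asIdeal ^ n v) ρ₀)
          (Ideal.Quotient.mk (v.asIdeal ^ n v) ω₀) (cred (v.asIdeal ^ n v) F)) *
          csig k (cred (Ideal.span {(WB p0 m0 : 𝓞 K)}) F) :=
      mul_le_mul h4 h3 (by norm_num) (h5.trans h4)
    exact absurd hF3 (not_lt.2 h6)
  have h3 : (((box K s (k * m) H).filter fun f =>
      (∀ v, LocZC v k q ρ₀ ω₀ f) ∧
      wsigC k q (cmk (Ideal.span {(WW m0 : 𝓞 K)}) ρ₀)
        (Ideal.Quotient.mk (Ideal.span {(WW m0 : 𝓞 K)}) ω₀)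
        (cred (Ideal.span {(WW m0 : 𝓞 K)}) f) < (∏ v ∈ S, c v) * (1 / 2)).card : ℝ) ≤
      ∑ v ∈ S, ((B1 v).card : ℝ) + (B2.card : ℝ) := by
    have h4 := (Finset.card_le_card hsub).trans ((Finset.card_union_le _ _).trans
      (Nat.add_le_add_right Finset.card_biUnion_le _))
    exact_mod_cast h4
  have h4 := Finset.sum_le_sum h2
  rw [Finset.sum_const, nsmul_eq_mul] at h4
  have h6 : (S.card : ℝ) * (ε' * ((box K s (k * m) H).card : ℝ)) ≤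
      ε / 2 * ((box K s (k * m) H).card : ℝ) := by
    rw [← mul_assoc]
    exact mul_le_mul_of_nonneg_right hεS (Nat.cast_nonneg _)
  linarith

end Pool.Agent.RHCW
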