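import Pool.Agent.RHCB.Main
import Pool.Agent.RHCW.CRTCW
import Pool.Agent.RHCW.WABCW
import Pool.Agent.RHCW.UIFTCW
import Pool.Agent.RHCW.PCNCW
import Pool.Agent.RHCW.SIGLOWCW
import Pool.Agent.RHCW.CENCW
import Pool.Agent.RHCW.NLOWCW
import Pool.Agent.RHCW.DETCW
import Pool.Agent.RHCW.FINCW
import Pool.Agent.RHCW.SZC
import Pool.Agent.RHCW.FinW

/-!
RHCW: assembly (helper18).
-/

set_option autoImplicit false

namespace Pool.Agent.RHCW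

open scoped BigOperators
open Classical NumberField IsDedekindDomain
open Pool.Agent.RHP (Mon)
open Pool.Agent.RHK Pool.Agent.RHC

/-- block B -/
theorem blockCW (hR : St_CENCW → RHCB.St_SMLC → RHKB.St_CLOW → RHCB.St_NPRC → RHKB.St_PLW → St_RCCW)
    (hL : St_SIGLOWCW → RHCB.St_BADC → St_UIFTCW → RHKB.St_PLW → St_DETCW → St_LLSCW) :
    St_FINCW ∧ St_SZC := by
  have hHSUM := RHKB.thm_HSUM RHKB.thm_PRS
  have hCUP := RHKB.thm_CUP RHKB.thm_LAT2 RHKB.thm_LAT3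
  have hNPRB := RHKB.thm_NPRB hCUP RHKB.thm_LAT3 RHKB.thm_PRS RHKB.thm_PLW
  have hCLOW := RHKB.thm_CLOW RHKB.thm_LAT1
  have hIDT := RHCB.thm_IDT RHK.thm_IDC
  have hHMQ := RHCB.thm_HMQ hIDT
  have hPAIR := RHCB.thm_PAIRC RHKB.thm_PAIR
  have hSIG := RHCB.thm_SIGC RHKB.thm_UNI hPAIR RHKB.thm_CNTH RHKB.thm_PRM RHCB.thm_VDQ
  have hWAB := thm_WABCW thm_CRTCW
  have hUIFT := thm_UIFTCW RHCB.thm_IFTC RHKB.thm_LIPK
  have hPCN := thm_PCNCW RHKB.thm_PLV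
  have hNPR := RHCB.thm_NPRC hNPRB hCUP
  have hCEN := thm_CENCW RHKB.thm_SEP
  have hSML := RHCB.thm_SMLC RHKB.thm_LIPK RHKB.thm_LAT2 RHKB.thm_PLW
  have hRC := hR hCEN hSML hCLOW hNPR RHKB.thm_PLW
  have hBADG := RHKB.thm_BADG RHKB.thm_TRIG RHKB.thm_LIPK
  have hBADVW := RHKB.thm_BADVW hBADG (RHKB.thm_NETV RHKB.thm_PLV)
    (RHKB.thm_DISCV RHKB.thm_PLV RHKB.thm_EQU)
    (RHKB.thm_NETW RHKB.thm_PLW) (RHKB.thm_DISCW RHKB.thm_PLW) RHKB.thm_PLV RHKB.thm_PLW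
  have hBAD := RHCB.thm_BADC hBADVW
  have hEQU := RHCB.thm_EQUC RHKB.thm_EQU
  have hSIGLOW := thm_SIGLOWCW hSIG hHSUM hHMQ hWAB hBAD hUIFT hPCN hEQU RHKB.thm_PLV
  have hNG := RHCB.thm_NGCC RHK.block_NG
  have hNLOW := thm_NLOWCW hNG hCUP
  have hDET := thm_DETCW hRC hNLOW
  exact ⟨thm_FINCW (hL hSIGLOW hBAD hUIFT RHKB.thm_PLW hDET), thm_SZC hBAD⟩

/-- the conclusion for the cells -/
theorem cellsCW (hA : St_CSMW) (hF : St_FINCW) (K : Type) [Field K] [NumberField K] (s k m : ℕ)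
    (hyp : CHyp s k m) : FinCW K s k m := by
  obtain ⟨c0, hc0⟩ := hA K s k m (Fintype.card (Mon s (k * m)) * (Pool.Agent.RHKB.MK K * 2 ^ k) + 2)
    hyp (by omega)
  obtain ⟨c, hc, hc1, v, hv1, hpar⟩ := exists_CPar s k m c0 hyp
  exact hF K s k m hyp _ c v le_rfl hc1 hv1 (hc0 c hc v hpar)

end Pool.Agent.RHCW
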