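import Pool.Agent.RHCW.St
import Pool.Agent.RHCB.LLSC
import Pool.Agent.RHKB.LIPK

/-!
RHCW, [LLSCW]: the local lower bound for the cells (port of `RHCB/LLSC.lean`).
-/

set_option autoImplicit false

namespace Pool.Agent.RHCW

open scoped BigOperators
open Classical NumberField IsDedekindDomain
open Pool.Agent.RHP (Mon mono ev Sys Prim pd WB WW ev_smul)
open Pool.Agent.RHK Pool.Agent.RHC
open Pool.Agent.RHKB (mI hh jj qv MK uu BadK)
open Pool.Agent.RHCB (BadC cred cemb uk PrC csig hM LLSC_bad LLSC_H)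

theorem LLSCW_mono {L : Type} [NormedField L] {s d k : ℕ} {f : Mon s d → L}
    {z₀ : Fin (s + 1) → L} {δ δ' r : ℝ} (h : δ' ≤ δ) (hF : NZCW k f z₀ δ r) :
    NZCW k f z₀ δ' r := by
  obtain ⟨j, h3⟩ := hF
  exact ⟨j, fun κ hκ => h3 κ fun l => (hκ l).trans h⟩

theorem LLSCW_nl {K : Type} [Field K] [NumberField K] {s k m : ℕ}
    {P P' : Set ((Fin s → 𝓞 K) × 𝓞 K)} (hP : P ⊆ P') (A c t V H κ W : ℕ)
    (f : Mon s (k * m) → 𝓞 K) : NLCW P A c t V H κ W f ≤ NLCW P' A c t V H κ W f := by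
  unfold NLCW
  refine Finset.sum_le_sum fun x _ => Finset.sum_le_sum fun w _ => ?_
  by_cases h1 : (x, w) ∈ P
  · rw [if_pos h1, if_pos (hP h1)]
  · rw [if_neg h1]
    by_cases h2 : (x, w) ∈ P'
    · rw [if_pos h2]
      split_ifs
      · positivity
      · exact le_refl _
    · rw [if_neg h2]

theorem thm_LLSCW (hS : St_SIGLOWCW) (hB : RHCB.St_BADC) (hU : St_UIFTCW) (hW : RHKB.St_PLW)
    (hD : St_DETCW) : St_LLSCW := by
  intro K _ _ s k m hyp A c v hA hc hv q hq ρ₀ ω₀ y₀ r hr hr16 ε hε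
  have hs := hyp.hs
  have hk := hyp.hk
  have hm := hyp.hm
  obtain ⟨σ₀, hσ, m2, hS⟩ := hS K s k m hyp q hq ρ₀ ω₀ (ε / 2) (by positivity)
  set nv : ℕ := Fintype.card (InfinitePlace K) with hnv
  have hnv0 : 0 < nv := Fintype.card_pos
  have hnvr : (0 : ℝ) < nv := by exact_mod_cast hnv0
  have hkm : 1 ≤ k * m := Nat.mul_pos (by omega) (by omega)
  have hBv := (hB K s (k * m) (by omega) hkm (ε / (2 * nv)) (by positivity)).2
  choose τ hτ H1 hBv using hBv
  set B0 : ℕ := MK K * 2 ^ k with hB0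
  set B : ℕ := Fintype.card (Mon s (k * m)) * B0 + 1 with hBdef
  have hUv : ∀ v : InfinitePlace K, ∃ δ : ℝ, 0 < δ ∧ ∀ f : Mon s (k * m) → v.Completion,
      (∀ μ, ‖f μ‖ ≤ B0) → ¬ BadC (τ v) f → ∀ z : Fin (s + 1) → v.Completion,
        ‖fun l : Fin s => z l.succ‖ = 3 / 4 → ev f (fun l => z l.succ) = z 0 ^ k →
        ‖z 0‖ ≤ B ∧ NZCW k f z δ r := by
    intro v
    obtain ⟨h1, h2, h3, h4, h5, h6⟩ := hW K v
    have h7 : ‖((3 / 4 : ℚ) : v.Completion)‖ = 3 / 4 := by
      rw [h4]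
      push_cast
      rw [abs_of_nonneg (by norm_num)]
    have h8 : ((3 / 4 : ℚ) : v.Completion) ≠ 0 := by
      intro h9
      rw [h9, norm_zero] at h7
      norm_num at h7
    have h10 : (k : v.Completion) ≠ 0 := by
      intro h9
      have h11 := h4 (k : ℚ)
      push_cast at h11
      rw [h9, norm_zero] at h11
      have h12 : (0 : ℝ) < |(k : ℝ)| := by
        rw [abs_of_nonneg (Nat.cast_nonneg k)]
        exact_mod_cast (by omega : 0 < k)
      linarith
    obtain ⟨δ, hδ, h9⟩ := hU v.Completion h2 s k m hk hm h10 _ h8 (by rw [h7]; norm_num) B0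
      (τ v) r (hτ v) hr
    rw [h7] at h9
    refine ⟨δ, hδ, fun f ha hb z hz1 hz2 => ⟨?_, h9 f ha hb z hz1 hz2⟩⟩
    have h12 : ((B : ℕ) : ℝ) = (Fintype.card (Mon s (k * m)) * B0 + 1 : ℝ) := by
      rw [hBdef]
      push_cast
      ring
    rw [h12]
    have e1 := (RHKB.thm_LIPK v.Completion s (k * m) f (B0 : ℝ) ha (fun l : Fin s => z l.succ)
      (fun l : Fin s => z l.succ) (by rw [hz1]; norm_num) (by rw [hz1]; norm_num)).1
    rw [hz2, norm_pow] at e1
    by_contra hcon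
    push Not at hcon
    have e2 : (0 : ℝ) ≤ Fintype.card (Mon s (k * m)) * B0 := by positivity
    have e3 : ‖z 0‖ ≤ ‖z 0‖ ^ k := le_self_pow₀ (by linarith) (by omega)
    linarith
  choose δv hδv hUv using hUv
  obtain ⟨δ, hδ, hδle⟩ : ∃ δ : ℝ, 0 < δ ∧ ∀ v, δ ≤ δv v := by
    obtain ⟨v0, hv0⟩ := Finite.exists_min δv
    exact ⟨δv v0, hδv v0, hv0⟩
  obtain ⟨γ, hγ, m3, hD⟩ := hD K s k m hyp A B c v (by omega) hc hv q hq δ r σ₀ hδ hr hr16 hσ
  refine ⟨γ, hγ, max m2 m3, fun m0 hm0 κ hκ => ?_⟩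
  obtain ⟨H0, hS⟩ := hS m0 ((le_max_left _ _).trans hm0)
  obtain ⟨t1, hD⟩ := hD m0 ((le_max_right _ _).trans hm0) κ hκ
  refine ⟨max (max t1 1) (max H0 (Finset.univ.sup H1)), fun t ht V H hH => ?_⟩
  have ht1 : t1 ≤ t := ((le_max_left _ _).trans (le_max_left _ _)).trans ht
  have htone : 1 ≤ t := ((le_max_right _ _).trans (le_max_left _ _)).trans ht
  have htH0 : H0 ≤ t := ((le_max_left _ _).trans (le_max_right _ _)).trans ht
  have htH1 : ∀ v, H1 v ≤ t := fun v => ((Finset.le_sup (Finset.mem_univ v)).trans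
    (le_max_right _ _)).trans ((le_max_right _ _).trans ht)
  obtain ⟨htH, hV1⟩ := LLSC_H (by omega) hv htone hH
  have hS := hS H (htH0.trans htH)
  have hVr : (0 : ℝ) < (V : ℝ) ^ k := by positivity
  have hlow : (V : ℝ) ^ k ≤ MK K * H := by
    have h1 : (V : ℝ) ^ k ≤ H := by exact_mod_cast hH.2.2.1
    have h2 : (1 : ℝ) ≤ MK K := by
      have h3 : 1 ≤ MK K := by
        unfold MK
        omega
      exact_mod_cast h3
    nlinarith [Nat.cast_nonneg (α := ℝ) H]
  have hupp : (MK K : ℝ) * H ≤ B0 * (V : ℝ) ^ k := by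
    have h1 : H ≤ 2 ^ k * V ^ k := by
      refine hH.2.2.2.trans ?_
      rw [← mul_pow]
      exact Nat.pow_le_pow_left (by omega) k
    have h2 : (H : ℝ) ≤ 2 ^ k * (V : ℝ) ^ k := by exact_mod_cast h1
    have h3 : ((B0 : ℕ) : ℝ) = MK K * 2 ^ k := by
      rw [hB0]
      push_cast
      ring
    rw [h3, mul_assoc]
    exact mul_le_mul_of_nonneg_left h2 (Nat.cast_nonneg _)
  have hHpos : (0 : ℝ) < (H : ℝ) := by
    exact_mod_cast (lt_of_lt_of_le (by omega : 0 < t) htH)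
  set B1 := (box K s (k * m) H).filter fun f => (∀ v, LocZC v k q ρ₀ ω₀ f) ∧
        wsigC k q (cmk (Ideal.span {(WW m0 : 𝓞 K)}) ρ₀)
          (Ideal.Quotient.mk (Ideal.span {(WW m0 : 𝓞 K)}) ω₀)
          (cred (Ideal.span {(WW m0 : 𝓞 K)}) f) < σ₀ with hB1
  set B2 : InfinitePlace K → Finset (Mon s (k * m) → 𝓞 K) := fun v =>
    (box K s (k * m) H).filter fun f => BadC (τ v) (cemb (uu v H) f) with hB2
  have hsub : ((box K s (k * m) H).filter fun f =>
        (∀ v : InfinitePlace K, InfZC v k V (y₀ v) r f) ∧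
        (∀ v, LocZC v k q ρ₀ ω₀ f) ∧
        NLCW (CellC q ρ₀ ω₀ y₀ (3 * r) (XC s c t) (XC s c t ^ m * V)) A c t V H κ (WW m0) f <
          γ * EC (dg K) s k m c t V H) ⊆
          B1 ∪ Finset.univ.biUnion B2 := by
    intro f hf
    rw [Finset.mem_filter] at hf
    obtain ⟨hf1, hf2, hf3, hf4⟩ := hf
    by_contra hcon
    rw [Finset.mem_union, not_or, hB1, Finset.mem_filter, Finset.mem_biUnion] at hcon
    obtain ⟨hc1, hc2⟩ := hcon
    have h1 : σ₀ ≤ wsigC k q (cmk (Ideal.span {(WW m0 : 𝓞 K)}) ρ₀)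
        (Ideal.Quotient.mk (Ideal.span {(WW m0 : 𝓞 K)}) ω₀)
        (cred (Ideal.span {(WW m0 : 𝓞 K)}) f) := by
      by_contra h2
      exact hc1 ⟨hf1, hf3, not_le.1 h2⟩
    have h2 : ∀ v, ¬ BadC (τ v) (cemb (uu v H) f) := fun v h3 =>
      hc2 ⟨v, Finset.mem_univ v, by rw [hB2]; exact Finset.mem_filter.2 ⟨hf1, h3⟩⟩
    choose z hz1 hz2 hz3 using hf2
    have hcell : CellC q ρ₀ ω₀ z (2 * r) (XC s c t) (XC s c t ^ m * V) ⊆
        CellC q ρ₀ ω₀ y₀ (3 * r) (XC s c t) (XC s c t ^ m * V) := by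
      rintro p ⟨hp1, hp2⟩
      refine ⟨hp1, fun v => ?_⟩
      obtain ⟨-, -, -, hqv, -, -⟩ := hW K v
      have hnear : ∀ (n : ℕ) (u a b : v.Completion), ‖a - b‖ ≤ r →
          ‖u - (n : v.Completion) * a‖ ≤ 2 * r * n →
          ‖u - (n : v.Completion) * b‖ ≤ 3 * r * n := by
        intro n u a b h6 h7
        have h8 : u - (n : v.Completion) * b = (u - (n : v.Completion) * a) +
          (n : v.Completion) * (a - b) := by ring
        rw [h8]
        refine (norm_add_le _ _).trans ?_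
        have hnn : ‖(n : v.Completion)‖ = n := by
          have h3 := hqv (n : ℚ)
          rw [Rat.cast_natCast, Rat.cast_natCast, Nat.abs_cast] at h3
          exact h3
        rw [norm_mul, hnn]
        have h9 := mul_le_mul_of_nonneg_left h6 (Nat.cast_nonneg (α := ℝ) n)
        linarith
      exact ⟨fun l => hnear _ _ _ _ (hz2 v l.succ) ((hp2 v).1 l),
        hnear _ _ _ _ (hz2 v 0) (hp2 v).2⟩
    have hall : ∀ v : InfinitePlace K, ‖z v 0‖ ≤ B ∧ NZCW k (cemb (uk v k V) f) (z v) δ r := by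
      intro v
      obtain ⟨-, -, hjj, hq, hcb, -⟩ := hW K v
      have hnV : ‖((V ^ k : ℕ) : v.Completion)‖ = (V : ℝ) ^ k := by
        have h3 := hq ((V ^ k : ℕ) : ℚ)
        rw [Rat.cast_natCast, Rat.cast_natCast] at h3
        rw [h3, abs_of_nonneg (Nat.cast_nonneg _)]
        push_cast
        ring
      have hnMH : ‖((MK K * H : ℕ) : v.Completion)‖ = MK K * H := by
        have h3 := hq ((MK K * H : ℕ) : ℚ)
        rw [Rat.cast_natCast, Rat.cast_natCast] at h3
        rw [h3, abs_of_nonneg (Nat.cast_nonneg _)]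
        push_cast
        ring
      have hMH0 : ((MK K * H : ℕ) : v.Completion) ≠ 0 := by
        intro h3
        rw [h3, norm_zero] at hnMH
        linarith
      have hV0 : ((V ^ k : ℕ) : v.Completion) ≠ 0 := by
        intro h3
        rw [h3, norm_zero] at hnV
        linarith
      have hmain := hUv v (cemb (uk v k V) f) (fun μ => ?_) (fun h3 => h2 v ?_) (z v) (hz1 v)
        (hz3 v)
      · exact ⟨hmain.1, LLSCW_mono (hδle v) hmain.2⟩
      · have h3 : f μ ∈ cb K H := by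
          have h4 := hf1
          unfold box at h4
          rw [Fintype.mem_piFinset] at h4
          exact h4 μ
        have h4 := hcb H _ h3
        show ‖uk v k V * jj v.Completion (f μ)‖ ≤ B0
        unfold uk
        rw [norm_mul, norm_inv, hnV, hjj, inv_mul_le_iff₀ hVr, mul_comm]
        exact h4.trans hupp
      · refine LLSC_bad (a := ((MK K * H : ℕ) : v.Completion) * ((V ^ k : ℕ) : v.Completion)⁻¹) ?_
          ?_ h3
        · rw [norm_mul, norm_inv, hnV, hnMH, ← div_eq_mul_inv, le_div_iff₀ hVr, one_mul]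
          exact hlow
        · funext μ
          show uk v k V * jj v.Completion (f μ) = _ * (uu v H * jj v.Completion (f μ))
          unfold uk uu
          field_simp
    refine absurd hf4 (not_lt.2 ((hD t ht1 V H hH ρ₀ ω₀ f hf1 h1 z hz1 (fun v => (hall v).1)
      fun v => (hall v).2).trans (LLSCW_nl hcell A c t V H κ (WW m0) f)))
  have h1 : (((box K s (k * m) H).filter fun f =>
        (∀ v : InfinitePlace K, InfZC v k V (y₀ v) r f) ∧
        (∀ v, LocZC v k q ρ₀ ω₀ f) ∧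
        NLCW (CellC q ρ₀ ω₀ y₀ (3 * r) (XC s c t) (XC s c t ^ m * V)) A c t V H κ (WW m0) f <
          γ * EC (dg K) s k m c t V H).card : ℝ) ≤
      (B1.card : ℝ) + ∑ v, ((B2 v).card : ℝ) := by
    have h2 := ((Finset.card_le_card hsub).trans (Finset.card_union_le _ _)).trans
      (Nat.add_le_add_left Finset.card_biUnion_le _)
    exact_mod_cast h2
  have h2 : ∑ v, ((B2 v).card : ℝ) ≤ ε / 2 * ((box K s (k * m) H).card : ℝ) := by
    have h3 : ∀ v ∈ (Finset.univ : Finset (InfinitePlace K)), ((B2 v).card : ℝ) ≤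
        ε / (2 * nv) * ((box K s (k * m) H).card : ℝ) := fun v _ =>
      hBv v H ((htH1 v).trans htH)
    refine (Finset.sum_le_sum h3).trans (le_of_eq ?_)
    rw [Finset.sum_const, nsmul_eq_mul, Finset.card_univ, ← hnv]
    field_simp
  have h3 : (B1.card : ℝ) ≤ ε / 2 * ((box K s (k * m) H).card : ℝ) := hS
  linarith

end Pool.Agent.RHCW
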