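import Pool.Agent.RHCW.St
import Pool.Agent.RHCB.RCC

/-!
RHCW, [RCCW]: the count of the points near the given real points (port of `RHCB/RCC.lean`).
-/

set_option autoImplicit false

namespace Pool.Agent.RHCW

open scoped BigOperators
open Classical NumberField IsDedekindDomain
open Pool.Agent.RHP (Mon mono ev Sys Prim pd WB WW)
open Pool.Agent.RHK Pool.Agent.RHC
open Pool.Agent.RHKB (mI hh jj qv MK uu BadK)
open Pool.Agent.RHCB (BadC cred cemb uk PrC csig hM)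

theorem thm_RCCW (hC : St_CENCW) (hM : RHCB.St_SMLC) (hL : RHKB.St_CLOW) (hP : RHCB.St_NPRC)
    (hW : RHKB.St_PLW) : St_RCCW := by
  intro K _ _ s k m hs hk A B hAB δ r hδ hr hr16
  obtain ⟨θ₀, c1, hθ₀, hc1, hC⟩ := hC K s k (k * m) δ r hδ hr
  obtain ⟨Λ, hΛ, hM⟩ := hM K s k m (by omega) B
  obtain ⟨C2, c2, hC2, hc2, hL⟩ := hL K
  obtain ⟨C3, hC3, hP⟩ := hP K s hs
  obtain ⟨a, ha, haθ, har, haΛ⟩ : ∃ a : ℝ, 0 < a ∧ a ≤ θ₀ ∧ a ≤ r ∧ Λ * a ≤ 1 := by
    refine ⟨min (min θ₀ r) (1 / Λ), lt_min (lt_min hθ₀ hr) (by positivity),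
      (min_le_left _ _).trans (min_le_left _ _), (min_le_left _ _).trans (min_le_right _ _), ?_⟩
    have h1 : min (min θ₀ r) (1 / Λ) ≤ 1 / Λ := min_le_right _ _
    calc Λ * min (min θ₀ r) (1 / Λ) ≤ Λ * (1 / Λ) := mul_le_mul_of_nonneg_left h1 hΛ.le
      _ = 1 := by field_simp
  have ha16 : a ≤ 1 / 16 := har.trans hr16
  set D : ℕ := dg K with hD
  set g : ℝ := c1 * a ^ D with hg
  have hg0 : 0 < g := by positivity
  have hA0 : 0 < A := by omega
  have hAr : (0 : ℝ) < A := by exact_mod_cast hA0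
  refine ⟨g * c2 ^ (s + 1) / 2, g * C3, by positivity, by positivity, ?_⟩
  intro W κ m0 hW0 hκ hm0 hcop
  have hWr : (0 : ℝ) < W := by exact_mod_cast hW0
  have hκr : (0 : ℝ) < κ := by exact_mod_cast hκ
  have hκ1 : (1 : ℝ) ≤ κ := by exact_mod_cast hκ
  have hm0r : (0 : ℝ) < m0 := by exact_mod_cast hm0
  set M2 : ℝ := (A : ℝ) ^ D * (W * κ / a) ^ (D * s) with hM2
  have hM20 : 0 < M2 := by positivity
  obtain ⟨X0, hX0⟩ := exists_nat_ge (max (max (C2 * W * κ / a) (W * κ / a))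
    (2 * C3 * M2 * κ ^ D * W ^ (D * (s + 1)) / (g * c2 ^ (s + 1))))
  refine ⟨X0 + 1, fun X V H hX hV hVH hHV f hf z₀ hz1 hz2 hNZ ρ ω hρ => ?_⟩
  have hXpos : 0 < X := by omega
  have hVpos : 0 < V := by omega
  have hXr : (0 : ℝ) < X := by exact_mod_cast hXpos
  obtain ⟨Q, hQ⟩ : ∃ Q : ℕ, Q = X ^ m * V := ⟨_, rfl⟩
  have hQV : V ≤ Q := by
    rw [hQ]
    exact Nat.le_mul_of_pos_left _ (pow_pos hXpos m)
  have hQpos : 0 < Q := by omega
  have hQr : (0 : ℝ) < Q := by exact_mod_cast hQpos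
  have hXX0 : (X0 : ℝ) ≤ X := by exact_mod_cast (by omega : X0 ≤ X)
  have hQX0 : (X0 : ℝ) ≤ Q := by exact_mod_cast (by omega : X0 ≤ Q)
  have hXa : C2 * W * κ / a ≤ (X0 : ℝ) :=
    ((le_max_left _ _).trans (le_max_left _ _)).trans hX0
  have hXc : W * κ / a ≤ (X0 : ℝ) :=
    ((le_max_right _ _).trans (le_max_left _ _)).trans hX0
  have hXb : 2 * C3 * M2 * κ ^ D * W ^ (D * (s + 1)) / (g * c2 ^ (s + 1)) ≤ (X : ℝ) :=
    ((le_max_right _ _).trans hX0).trans hXX0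
  set P0 : ℝ := ((X : ℝ) ^ s * Q) ^ D with hP0def
  have hP00 : 0 < P0 := by positivity
  have hP0eq : ((X : ℝ) ^ s * ((X : ℝ) ^ m * V)) ^ D = P0 := by
    rw [hP0def, hQ]
    push_cast
    rfl
  rw [hP0eq]
  -- trivial case
  by_cases hneg : c2 ^ (s + 1) - C3 / m0 < 0
  · have h1 : g * c2 ^ (s + 1) / 2 - g * C3 / m0 ≤ 0 := by
      have h2 : g * c2 ^ (s + 1) / 2 - g * C3 / m0 =
          g * (c2 ^ (s + 1) - C3 / m0) - g * c2 ^ (s + 1) / 2 := by
        ring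
      rw [h2]
      have h3 : g * (c2 ^ (s + 1) - C3 / m0) < 0 := mul_neg_of_pos_of_neg hg0 hneg
      have h4 : 0 < g * c2 ^ (s + 1) / 2 := by positivity
      linarith
    have h5 : (g * c2 ^ (s + 1) / 2 - g * C3 / m0) * P0 /
        ((κ : ℝ) ^ D * (W : ℝ) ^ (D * (s + 1))) ≤ 0 := by
      apply div_nonpos_of_nonpos_of_nonneg
      · exact mul_nonpos_of_nonpos_of_nonneg h1 hP00.le
      · positivity
    exact h5.trans (Nat.cast_nonneg _)
  push Not at hneg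
  set θ : ℝ := a / κ with hθ
  have hθ0 : 0 < θ := by positivity
  have hθa : θ ≤ a := div_le_self ha.le hκ1
  have hCT0 : C2 * W ≤ θ * X0 := by
    have h1 := hXa
    rw [div_le_iff₀ ha] at h1
    rw [hθ, div_mul_eq_mul_div, le_div_iff₀ hκr]
    linarith
  have hWT0 : (W : ℝ) ≤ θ * X0 := by
    have h1 := hXc
    rw [div_le_iff₀ ha] at h1
    rw [hθ, div_mul_eq_mul_div, le_div_iff₀ hκr]
    linarith
  have hθX : θ * X0 ≤ θ * X := mul_le_mul_of_nonneg_left hXX0 hθ0.le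
  have hθQ : θ * X0 ≤ θ * Q := mul_le_mul_of_nonneg_left hQX0 hθ0.le
  obtain ⟨ι, hι, y, hy0, hyr, hysep, hyc⟩ := hC (fun v => cemb (uk v k V) f) z₀ hNZ θ hθ0
    (hθa.trans haθ)
  have hyn : ∀ i (v : InfinitePlace K), 11 / 16 ≤ ‖fun l : Fin s => y i v l.succ‖ ∧
      ‖fun l : Fin s => y i v l.succ‖ ≤ 13 / 16 ∧ ‖y i v 0‖ ≤ (B : ℝ) + 1 / 16 := by
    intro i v
    have h1 : ‖(fun l : Fin s => y i v l.succ) - fun l : Fin s => z₀ v l.succ‖ ≤ 1 / 16 :=
      ((pi_norm_le_iff_of_nonneg hr.le).2 fun l : Fin s => hyr i v l.succ).trans hr16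
    have h2 := hz1 v
    have h3 := abs_norm_sub_norm_le (fun l : Fin s => y i v l.succ) fun l : Fin s => z₀ v l.succ
    have h4 := abs_le.1 (h3.trans h1)
    have h5 : ‖y i v 0‖ ≤ ‖z₀ v 0‖ + ‖y i v 0 - z₀ v 0‖ := norm_le_norm_add_norm_sub' _ _
    have h6 := hyr i v 0
    have h7 := hz2 v
    refine ⟨?_, ?_, ?_⟩ <;> linarith [h4.1, h4.2]
  have hSM : ∀ (i : ι) (x : Fin s → 𝓞 K) (w : 𝓞 K), (∀ v : InfinitePlace K, (∀ l : Fin s,
      ‖jj v.Completion (x l) - (X : v.Completion) * y i v l.succ‖ ≤ θ * X) ∧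
        ‖jj v.Completion w - (Q : v.Completion) * y i v 0‖ ≤ θ * Q) →
      (x ∈ bx K s (X : ℝ) ∧ w ∈ pb K ((A * Q : ℕ) : ℝ)) ∧
        (∀ v : InfinitePlace K, (X : ℝ) < 2 * vs v x) ∧
        (cz (ev f x - w ^ k) : ℝ) ≤ Λ * θ * H * (X : ℝ) ^ (k * m) := by
    intro i x w hx
    have h1 := hM V H X hVpos hXpos hVH hHV f hf θ hθ0 (hθa.trans ha16) (y i) (hy0 i) (hyn i) x w
      (by rw [← hQ]; exact hx)
    refine ⟨⟨h1.1, ?_⟩, h1.2.1, h1.2.2.2⟩
    rw [mem_pb]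
    intro v
    refine (h1.2.2.1 v).trans ?_
    rw [← hQ, Nat.cast_mul]
    refine mul_le_mul_of_nonneg_right ?_ (Nat.cast_nonneg _)
    exact_mod_cast hAB
  have hcard : ∀ i : ι, c2 ^ (s + 1) * (θ / W) ^ (D * (s + 1)) * P0 ≤
      ((RHCB.RCC_B A X Q W ρ ω θ (y i)).card : ℝ) := by
    intro i
    have h1 : c2 ^ (s + 1) * (θ / W) ^ (D * (s + 1)) * P0 =
        (c2 * (θ * X / W) ^ D) ^ s * (c2 * (θ * Q / W) ^ D) := by
      have h2 : θ * X / W = θ / W * X := by ring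
      have h3 : θ * Q / W = θ / W * Q := by ring
      rw [h2, h3, hP0def]
      ring
    rw [h1]
    refine RHCB.RCC_card_B A X Q W ρ ω θ (y i) _ _ (by positivity) (by positivity) (fun l => ?_) ?_
      fun x w hx => (hSM i x w hx).1
    · exact hL W hW0 (θ * X) (hCT0.trans hθX) (fun v => (X : v.Completion) * y i v l.succ) (ρ l)
    · exact hL W hW0 (θ * Q) (hCT0.trans hθQ) (fun v => (Q : v.Completion) * y i v 0) ω
  have hnat : ∀ (v : InfinitePlace K) (n : ℕ), ‖(n : v.Completion)‖ = n := by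
    intro v n
    have h1 := (hW K v).2.2.2.1 (n : ℚ)
    rw [Rat.cast_natCast, Rat.cast_natCast, Nat.abs_cast] at h1
    exact h1
  have hsepn : ∀ (v : InfinitePlace K) (n : ℕ) (u z z' : v.Completion), 0 < n →
      2 * θ < ‖z - z'‖ → ‖u - (n : v.Completion) * z‖ ≤ θ * n →
      ‖u - (n : v.Completion) * z'‖ ≤ θ * n → False := by
    intro v n u z z' hn h0 h1 h2
    have hnr : (0 : ℝ) < n := by exact_mod_cast hn
    have h3 : ‖(n : v.Completion) * z - (n : v.Completion) * z'‖ ≤ θ * n + θ * n := by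
      have h4 : (n : v.Completion) * z - (n : v.Completion) * z' =
          (u - (n : v.Completion) * z') - (u - (n : v.Completion) * z) := by ring
      rw [h4]
      exact (norm_sub_le _ _).trans (add_le_add h2 h1)
    rw [← mul_sub, norm_mul, hnat] at h3
    have h5 : (n : ℝ) * (2 * θ) < n * ‖z - z'‖ := mul_lt_mul_of_pos_left h0 hnr
    linarith
  have hdisj : ∀ i ∈ (Finset.univ : Finset ι), ∀ j ∈ (Finset.univ : Finset ι), i ≠ j →
      Disjoint (RHCB.RCC_B A X Q W ρ ω θ (y i)) (RHCB.RCC_B A X Q W ρ ω θ (y j)) := by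
    intro i _ j _ hij
    rw [Finset.disjoint_left]
    intro p hp hp'
    unfold RHCB.RCC_B at hp hp'
    rw [Finset.mem_filter] at hp hp'
    obtain ⟨v, l, hvl⟩ := hysep i j hij
    have h1 := hp.2.2 v
    have h2 := hp'.2.2 v
    refine Fin.cases ?_ (fun l => ?_) l hvl
    · intro h3
      exact hsepn v Q _ _ _ hQpos h3 h1.2 h2.2
    · intro h3
      exact hsepn v X _ _ _ hXpos h3 (h1.1 l) (h2.1 l)
  -- the union
  have hU1 : (Fintype.card ι : ℝ) * (c2 ^ (s + 1) * (θ / W) ^ (D * (s + 1)) * P0) ≤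
      ((Finset.univ.biUnion fun i => RHCB.RCC_B A X Q W ρ ω θ (y i)).card : ℝ) := by
    rw [Finset.card_biUnion hdisj, Nat.cast_sum]
    calc (Fintype.card ι : ℝ) * (c2 ^ (s + 1) * (θ / W) ^ (D * (s + 1)) * P0) =
          ∑ _i : ι, (c2 ^ (s + 1) * (θ / W) ^ (D * (s + 1)) * P0) := by
          rw [Finset.sum_const, Finset.card_univ, nsmul_eq_mul]
      _ ≤ ∑ i : ι, ((RHCB.RCC_B A X Q W ρ ω θ (y i)).card : ℝ) :=
          Finset.sum_le_sum fun i _ => hcard i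
  have hnp := hP W m0 hW0 hm0 hcop ρ ω hρ A X Q θ hA0 hXpos hQpos hθ0 (by linarith)
    (hWT0.trans hθX) (hWT0.trans hθQ) ι
    (fun i v l => Fin.cases ((Q : v.Completion) * y i v 0)
      (fun l' => (X : v.Completion) * y i v l'.succ) l)
  set NP : Finset ((Fin s → 𝓞 K) × 𝓞 K) :=
    (bx K s (X : ℝ) ×ˢ pb K ((A * Q : ℕ) : ℝ)).filter fun p => p.1 ≠ 0 ∧ ¬ Prim p.1 ∧
      (∀ l, (W : 𝓞 K) ∣ p.1 l - ρ l) ∧ (W : 𝓞 K) ∣ p.2 - ω ∧
      ∃ i, ∀ v : InfinitePlace K, (∀ l : Fin s,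
        ‖jj v.Completion (p.1 l) - (X : v.Completion) * y i v l.succ‖ ≤ θ * X) ∧
        ‖jj v.Completion p.2 - (Q : v.Completion) * y i v 0‖ ≤ θ * Q with hNP
  set PP : Finset ((Fin s → 𝓞 K) × 𝓞 K) :=
    (bx K s (X : ℝ) ×ˢ pb K ((A * Q : ℕ) : ℝ)).filter fun p =>
      (Prim p.1 ∧ (∀ v : InfinitePlace K, (X : ℝ) < 2 * vs v p.1) ∧
      (∀ l, (W : 𝓞 K) ∣ p.1 l - ρ l) ∧ (W : 𝓞 K) ∣ p.2 - ω ∧
      cz (ev f p.1 - p.2 ^ k) * κ ≤ H * X ^ (k * m)) ∧
      p ∈ {p : (Fin s → 𝓞 K) × 𝓞 K | NearC z₀ (2 * r) X Q p} with hPP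
  have hsub : (Finset.univ.biUnion fun i => RHCB.RCC_B A X Q W ρ ω θ (y i)) ⊆ PP ∪ NP := by
    intro p hp
    rw [Finset.mem_biUnion] at hp
    obtain ⟨i, -, hp⟩ := hp
    unfold RHCB.RCC_B at hp
    rw [Finset.mem_filter] at hp
    obtain ⟨hx1, ⟨hx2, hx2'⟩, hx3⟩ := hp
    obtain ⟨-, h2, h3⟩ := hSM i p.1 p.2 hx3
    rw [Finset.mem_union]
    by_cases hpr : Prim p.1
    · left
      rw [hPP, Finset.mem_filter]
      refine ⟨hx1, ⟨hpr, h2, hx2, hx2', ?_⟩, ?_⟩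
      swap
      · have hnear : ∀ (v : InfinitePlace K) (n : ℕ) (u z z' : v.Completion),
            ‖z - z'‖ ≤ r → ‖u - (n : v.Completion) * z‖ ≤ θ * n →
            ‖u - (n : v.Completion) * z'‖ ≤ 2 * r * n := by
          intro v n u z z' h6 h7
          have h8 : u - (n : v.Completion) * z' = (u - (n : v.Completion) * z) +
            (n : v.Completion) * (z - z') := by ring
          rw [h8]
          refine (norm_add_le _ _).trans ?_
          rw [norm_mul, hnat]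
          have h9 := mul_le_mul_of_nonneg_left h6 (Nat.cast_nonneg (α := ℝ) n)
          have h10 : θ * n ≤ r * n :=
            mul_le_mul_of_nonneg_right (hθa.trans har) (Nat.cast_nonneg _)
          linarith
        intro v
        exact ⟨fun l => hnear v X _ _ _ (hyr i v l.succ) ((hx3 v).1 l),
          hnear v Q _ _ _ (hyr i v 0) (hx3 v).2⟩
      have h5 : (cz (ev f p.1 - p.2 ^ k) : ℝ) * κ ≤ H * (X : ℝ) ^ (k * m) := by
        calc (cz (ev f p.1 - p.2 ^ k) : ℝ) * κ ≤ Λ * θ * H * (X : ℝ) ^ (k * m) * κ :=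
              mul_le_mul_of_nonneg_right h3 hκr.le
          _ = Λ * a * (H * (X : ℝ) ^ (k * m)) := by
              rw [hθ]
              field_simp
          _ ≤ 1 * (H * (X : ℝ) ^ (k * m)) := mul_le_mul_of_nonneg_right haΛ (by positivity)
          _ = H * (X : ℝ) ^ (k * m) := one_mul _
      exact_mod_cast h5
    · right
      rw [hNP, Finset.mem_filter]
      refine ⟨hx1, ?_, hpr, hx2, hx2', i, hx3⟩
      intro hb
      obtain ⟨v⟩ : Nonempty (InfinitePlace K) := inferInstance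
      have h4 := h2 v
      have h5 : vs v (0 : Fin s → 𝓞 K) = 0 := by
        unfold vs av
        have h6 : (fun i : Fin s => v (((0 : Fin s → 𝓞 K) i : 𝓞 K) : K)) = 0 := by
          funext i
          simp
        rw [h6, norm_zero]
      rw [hb, h5] at h4
      linarith
  have hU2 : ((Finset.univ.biUnion fun i => RHCB.RCC_B A X Q W ρ ω θ (y i)).card : ℝ) ≤
      (PP.card : ℝ) + (NP.card : ℝ) := by
    have h1 := (Finset.card_le_card hsub).trans (Finset.card_union_le _ _)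
    exact_mod_cast h1
  have hRCn : (RCnCW {p | NearC z₀ (2 * r) X (X ^ m * V) p} A X V H κ W f ρ ω : ℝ) =
      (PP.card : ℝ) := by
    unfold RCnCW
    rw [hPP, hQ, mul_assoc A]
  rw [hRCn]
  -- numbers
  set N : ℝ := (Fintype.card ι : ℝ) with hN
  have hN0 : 0 ≤ N := Nat.cast_nonneg _
  set P : ℝ := P0 / ((κ : ℝ) ^ D * (W : ℝ) ^ (D * (s + 1))) with hPdef
  have hPpos : 0 < P := by positivity
  set T : ℝ := (θ / W) ^ (D * (s + 1)) * P0 with hT
  have hT0 : 0 < T := by positivity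
  have hNg : g * P ≤ N * T := by
    have h1 : c1 * (1 / θ) ^ (D * s) * θ ^ (D * (s + 1)) = c1 * θ ^ D := by
      have e1 : D * (s + 1) = D * s + D := by ring
      rw [e1, pow_add, one_div, inv_pow]
      have h2 : θ ^ (D * s) ≠ 0 := by positivity
      field_simp
    have h3 : g * P = c1 * θ ^ D * (P0 / (W : ℝ) ^ (D * (s + 1))) := by
      rw [hg, hPdef, hθ, div_pow]
      field_simp
    have h4 : T = θ ^ (D * (s + 1)) * (P0 / (W : ℝ) ^ (D * (s + 1))) := by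
      rw [hT, div_pow]
      ring
    rw [h3, ← h1, h4]
    have h5 : c1 * (1 / θ) ^ (D * s) * θ ^ (D * (s + 1)) *
        (P0 / (W : ℝ) ^ (D * (s + 1))) = c1 * (1 / θ) ^ (D * s) *
        (θ ^ (D * (s + 1)) * (P0 / (W : ℝ) ^ (D * (s + 1)))) := by ring
    rw [h5]
    exact mul_le_mul_of_nonneg_right hyc (by positivity)
  have hlast : C3 * (A : ℝ) ^ D / X * (W / θ) ^ (D * s) * P0 ≤ g * c2 ^ (s + 1) / 2 * P := by
    have h1 : (W : ℝ) / θ = W * κ / a := by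
      rw [hθ]
      field_simp
    rw [h1]
    have h2 : C3 * (A : ℝ) ^ D / X * (W * κ / a) ^ (D * s) * P0 = C3 / X * M2 * P0 := by
      rw [hM2]
      ring
    rw [h2]
    rw [div_le_iff₀ (by positivity)] at hXb
    rw [hPdef, mul_div_assoc', le_div_iff₀ (by positivity), div_mul_eq_mul_div,
      div_mul_eq_mul_div, div_mul_eq_mul_div, div_le_iff₀ hXr]
    have h3 := mul_le_mul_of_nonneg_right hXb hP00.le
    linarith
  have hgoal : (g * c2 ^ (s + 1) / 2 - g * C3 / m0) * P0 /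
      ((κ : ℝ) ^ D * (W : ℝ) ^ (D * (s + 1))) = (c2 ^ (s + 1) - C3 / m0) * (g * P) -
        g * c2 ^ (s + 1) / 2 * P := by
    rw [hPdef]
    ring
  rw [hgoal]
  have h6 : (c2 ^ (s + 1) - C3 / m0) * (g * P) ≤ (c2 ^ (s + 1) - C3 / m0) * (N * T) :=
    mul_le_mul_of_nonneg_left hNg hneg
  have h7 : (NP.card : ℝ) ≤ (C3 * (N / m0) * (θ / W) ^ (D * (s + 1)) +
      C3 * (A : ℝ) ^ D / X * (W / θ) ^ (D * s)) * P0 := hnp
  have h8 : N * (c2 ^ (s + 1) * (θ / W) ^ (D * (s + 1)) * P0) ≤ (PP.card : ℝ) + (NP.card : ℝ) :=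
    hU1.trans hU2
  have h9 : (c2 ^ (s + 1) - C3 / m0) * (N * T) =
      N * (c2 ^ (s + 1) * (θ / W) ^ (D * (s + 1)) * P0) -
        C3 * (N / m0) * (θ / W) ^ (D * (s + 1)) * P0 := by
    rw [hT]
    ring
  have h10 : (C3 * (N / m0) * (θ / W) ^ (D * (s + 1)) +
      C3 * (A : ℝ) ^ D / X * (W / θ) ^ (D * s)) * P0 =
      C3 * (N / m0) * (θ / W) ^ (D * (s + 1)) * P0 +
      C3 * (A : ℝ) ^ D / X * (W / θ) ^ (D * s) * P0 := by ring
  linarith

end Pool.Agent.RHCW
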