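import Pool.Agent.RHCW.Poly
import Pool.Agent.RHCW.CSMW
import Pool.Agent.RHCW.RCCW
import Pool.Agent.RHCW.LLSCW
import Pool.Agent.RHCW.TOPCW

/-!
RHCW: the Hasse principle and weak approximation for one hundred percent of the Fano cyclic covers
`w^k = f(x)` of dimension at least two of projective spaces over a number field.
-/

set_option autoImplicit false

namespace Pool.Agent.RHCW

open scoped BigOperators
open Classical NumberField IsDedekindDomain
open Pool.Agent.RHCB (InC SmoC PtC LocC)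

/-- the theorem for polynomials -/
theorem main_polyCW (K : Type) [Field K] [NumberField K]
    (n k m : ℕ) (hn : 2 ≤ n) (hk : 2 ≤ k) (hm : 1 ≤ m) (hFano : m * (k - 1) ≤ n) :
    (∃ c : ℝ, 0 < c ∧ ∀ᶠ H : ℕ in Filter.atTop,
      c * (({f | InC (k * m) H f} : Set (MvPolynomial (Fin (n + 1)) (𝓞 K))).ncard : ℝ) ≤
      (({f | InC (k * m) H f ∧ (SmoC k f ∧ LocC k f)} :
        Set (MvPolynomial (Fin (n + 1)) (𝓞 K))).ncard : ℝ)) ∧
    ∀ (S : Finset (HeightOneSpectrum (𝓞 K))) (η : ℝ), 0 < η →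
    Filter.Tendsto (fun H : ℕ =>
      (({f | InC (k * m) H f ∧ (SmoC k f ∧ PtC k f K ∧ AppC k m S η f)} :
        Set (MvPolynomial (Fin (n + 1)) (𝓞 K))).ncard : ℝ) /
      (({f | InC (k * m) H f ∧ (SmoC k f ∧ LocC k f)} :
        Set (MvPolynomial (Fin (n + 1)) (𝓞 K))).ncard : ℝ)) Filter.atTop (nhds 1) := by
  obtain ⟨hF, hZ⟩ := blockCW thm_RCCW thm_LLSCW
  exact main_polyCW0 thm_CSMW hF (thm_TOPCW hZ RHKB.thm_PLV RHKB.thm_PLW) K n k m hn hk hm hFano

end Pool.Agent.RHCW
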