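import Pool.Agent.RHCW.Asm

/-!
RHCW: the theorem for polynomials (helper18).
-/

set_option autoImplicit false

namespace Pool.Agent.RHCW

open scoped BigOperators
open Classical NumberField IsDedekindDomain
open Pool.Agent.RHP (Mon)
open Pool.Agent.RHK Pool.Agent.RHC Pool.Agent.RHCB

section

variable {K : Type} [Field K] [NumberField K] {n k m : ℕ}

omit [NumberField K] in
/-- a point over `K` gives a point over every extension -/
theorem ptC_ext (f : MvPolynomial (Fin (n + 1)) (𝓞 K)) (L : Type) [Field L]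
    [Algebra K L] (h : PtC k f K) : PtC k f L := by
  obtain ⟨x, w, hx, h1⟩ := h
  refine ⟨fun t => algebraMap K L (x t), algebraMap K L w, fun h0 => hx ?_, ?_⟩
  · have e1 := congrArg Prod.fst h0
    have e2 := congrArg Prod.snd h0
    refine Prod.ext ?_ ?_
    · funext t
      have e3 := congrFun e1 t
      exact (map_eq_zero (algebraMap K L)).1 e3
    · exact (map_eq_zero (algebraMap K L)).1 e2
  · have h2 := MvPolynomial.eval₂_comp_left (algebraMap K L)
      ((algebraMap K K).comp (algebraMap (𝓞 K) K)) x f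
    have h3 : algebraMap K L (w ^ k) = algebraMap K L (valC x f) := by rw [h1]
    rw [map_pow] at h3
    rw [h3]
    exact h2

/-- for forms with approximation the local points give a point over `K` -/
theorem ptC_iff (S : Finset (HeightOneSpectrum (𝓞 K))) (η : ℝ)
    (f : MvPolynomial (Fin (n + 1)) (𝓞 K)) :
    (PtC k f K ∧ AppC k m S η f) ↔ (LocC k f ∧ AppC k m S η f) := by
  constructor
  · rintro ⟨h1, h2⟩
    exact ⟨⟨fun v => ptC_ext f _ h1, fun v => ptC_ext f _ h1⟩, h2⟩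
  · rintro ⟨h1, h2⟩
    refine ⟨?_, h2⟩
    choose y y' hy using h1.1
    choose z z' hz using h1.2
    obtain ⟨p, hp, -, -⟩ := h2 (fun v => (z v, z' v)) (fun v => (y v, y' v)) (fun v _ => hz v) hy
    exact ⟨p.1, p.2, hp⟩

end

/-- the theorem for polynomials -/
theorem main_polyCW0 (hA : St_CSMW) (hF : St_FINCW)
    (hT : ∀ (K : Type) [Field K] [NumberField K] (s k m : ℕ), CHyp s k m → FinCW K s k m →
      ∀ (S : Finset (HeightOneSpectrum (𝓞 K))) (η : ℝ), 0 < η → ∀ ε : ℝ, 0 < ε →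
      ∃ H0 : ℕ, ∀ H ≥ H0, (((box K s (k * m) H).filter fun f =>
        ELSC f ∧ ¬ DenseC k m S η f).card : ℝ) ≤ ε * ((box K s (k * m) H).card : ℝ))
    (K : Type) [Field K] [NumberField K]
    (n k m : ℕ) (hn : 2 ≤ n) (hk : 2 ≤ k) (hm : 1 ≤ m) (hFano : m * (k - 1) ≤ n) :
    (∃ c : ℝ, 0 < c ∧ ∀ᶠ H : ℕ in Filter.atTop,
      c * (({f | InC (k * m) H f} : Set (MvPolynomial (Fin (n + 1)) (𝓞 K))).ncard : ℝ) ≤
      (({f | InC (k * m) H f ∧ (SmoC k f ∧ LocC k f)} :
        Set (MvPolynomial (Fin (n + 1)) (𝓞 K))).ncard : ℝ)) ∧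
    ∀ (S : Finset (HeightOneSpectrum (𝓞 K))) (η : ℝ), 0 < η →
    Filter.Tendsto (fun H : ℕ =>
      (({f | InC (k * m) H f ∧ (SmoC k f ∧ PtC k f K ∧ AppC k m S η f)} :
        Set (MvPolynomial (Fin (n + 1)) (𝓞 K))).ncard : ℝ) /
      (({f | InC (k * m) H f ∧ (SmoC k f ∧ LocC k f)} :
        Set (MvPolynomial (Fin (n + 1)) (𝓞 K))).ncard : ℝ)) Filter.atTop (nhds 1) := by
  have hyp : CHyp (n + 1) k m := ⟨by omega, hk, hm, by omega⟩
  refine ⟨(main_polyC K n k m hn hk hm hFano).1, fun S η hη => ?_⟩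
  have h1 := hT K (n + 1) k m hyp (cellsCW hA hF K (n + 1) k m hyp) S η hη
  have h2 := finCW_poly K n k m hk hm (cmain_thm K (n + 1) k m hyp) S η h1
  simp only [ptC_iff]
  exact h2

end Pool.Agent.RHCW
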